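import Mathlib

set_option autoImplicit false

/-!
The rank of the inclusion matrix and automata with bounded ambiguity.
-/

namespace Pool.Agent.D0H57.LC

open Finset

/-- The inclusion matrix has full rank. -/
theorem card_le_of_factor {S Y : Type} [Finite S] [Finite Y] (a b : Set S → Y → ℚ)
    (h : ∀ G H : Set S, ∑ᶠ y, a G y * b H y = Set.indicator {x : Set S | G ⊆ x} 1 H) :
    Nat.card (Set S) ≤ Nat.card Y := by
  classical
  have i1 : Fintype (Set S) := Fintype.ofFinite _
  have i2 : Fintype Y := Fintype.ofFinite _
  let B : Matrix Y (Set S) ℚ := fun y H => b H y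
  have hinj : Function.Injective (Matrix.mulVecLin B) := by
    rw [← LinearMap.ker_eq_bot, LinearMap.ker_eq_bot']
    intro v hv
    have hv' : ∀ y, ∑ H, b H y * v H = 0 := by
      intro y
      have := congrFun hv y
      simpa [Matrix.mulVecLin_apply, Matrix.mulVec, dotProduct, B] using this
    have hz : ∀ G : Set S, ∑ H, (Set.indicator {x : Set S | G ⊆ x} (1 : Set S → ℚ) H) * v H = 0 := by
      intro G
      calc ∑ H, (Set.indicator {x : Set S | G ⊆ x} (1 : Set S → ℚ) H) * v H
          = ∑ H, (∑ y, a G y * b H y) * v H := by
            apply Finset.sum_congr rfl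
            intro H _
            rw [← h G H, finsum_eq_sum_of_fintype]
        _ = ∑ y, a G y * ∑ H, b H y * v H := by
            simp_rw [Finset.sum_mul, Finset.mul_sum]
            rw [Finset.sum_comm]
            apply Finset.sum_congr rfl
            intro y _
            apply Finset.sum_congr rfl
            intro H _
            ring
        _ = 0 := by
            apply Finset.sum_eq_zero
            intro y _
            rw [hv' y, mul_zero]
    have hall : ∀ G : Set S, v G = 0 := by
      intro G
      induction G using WellFoundedGT.induction with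
      | ind G ih =>
        have h1 := hz G
        rw [Finset.sum_eq_single G] at h1
        · simpa using h1
        · intro H _ hne
          by_cases hs : G ⊆ H
          · have h2 : G < H := lt_of_le_of_ne hs (Ne.symm hne)
            rw [ih H h2, mul_zero]
          · rw [Set.indicator_of_notMem (by exact hs), zero_mul]
        · intro hG
          exact absurd (Finset.mem_univ G) hG
    funext G
    exact hall G
  have h1 := LinearMap.finrank_le_finrank_of_injective hinj
  rw [Module.finrank_fintype_fun_eq_card, Module.finrank_fintype_fun_eq_card] at h1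
  rw [Nat.card_eq_fintype_card, Nat.card_eq_fintype_card]
  exact h1

/-- Non-inclusion is decided by `X`-valued certificates, at most `k` for every pair. -/
theorem rank_lemma {S X : Type} [Finite S] [Finite X] (k : ℕ) (l r : Set S → X → Prop)
    (h1 : ∀ G H, (∃ x, l G x ∧ r H x) ↔ ¬ G ⊆ H)
    (h2 : ∀ G H, {x | l G x ∧ r H x}.encard ≤ k) :
    Nat.card (Set S) ≤ (Nat.card X + 1) ^ k := by
  classical
  have i2 : Fintype X := Fintype.ofFinite _
  let a : Set S → (Fin k → Option X) → ℚ := fun G o => ∏ i, (match o i with
    | none => 1
    | some x => if l G x then - (1 / ((i : ℚ) + 1)) else 0)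
  let b : Set S → (Fin k → Option X) → ℚ := fun H o => ∏ i, (match o i with
    | none => 1
    | some x => if r H x then 1 else 0)
  have key := card_le_of_factor a b ?_
  · refine key.trans (le_of_eq ?_)
    rw [Nat.card_fun, Finite.card_option, Nat.card_fin]
  · intro G H
    rw [finsum_eq_sum_of_fintype]
    -- the number of certificates
    obtain ⟨c, hc⟩ : ∃ c : ℕ, {x | l G x ∧ r H x}.ncard = c := ⟨_, rfl⟩
    have hck : c ≤ k := by
      have h3 := h2 G H
      rw [← hc]
      rw [← Set.Finite.cast_ncard_eq (Set.toFinite _)] at h3
      exact_mod_cast h3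
    have hsum : ∑ x : X, (if l G x then (1 : ℚ) else 0) * (if r H x then 1 else 0) = c := by
      have e : ∀ x : X, (if l G x then (1 : ℚ) else 0) * (if r H x then 1 else 0) =
          if l G x ∧ r H x then 1 else 0 := by
        intro x
        by_cases e1 : l G x <;> by_cases e2 : r H x <;> simp [e1, e2]
      rw [Finset.sum_congr rfl (fun x _ => e x), Finset.sum_boole, ← hc,
        Set.ncard_eq_toFinset_card']
      congr 2
      ext x
      simp
    have hprod : ∑ o : Fin k → Option X, a G o * b H o =
        ∏ i : Fin k, (1 - (c : ℚ) / ((i : ℚ) + 1)) := by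
      have e1 : ∀ i : Fin k, (1 - (c : ℚ) / ((i : ℚ) + 1)) = ∑ y : Option X,
          (match y with
            | none => (1 : ℚ)
            | some x => if l G x then - (1 / ((i : ℚ) + 1)) else 0) *
          (match y with
            | none => (1 : ℚ)
            | some x => if r H x then 1 else 0) := by
        intro i
        rw [Fintype.sum_option]
        have e2 : ∑ x : X, (if l G x then - (1 / ((i : ℚ) + 1)) else 0) *
            (if r H x then (1 : ℚ) else 0) = - (1 / ((i : ℚ) + 1)) * c := by
          rw [← hsum, Finset.mul_sum]
          apply Finset.sum_congr rfl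
          intro x _
          by_cases e1 : l G x <;> by_cases e2 : r H x <;> simp [e1, e2]
        rw [e2]
        ring
      rw [Finset.prod_congr rfl (fun i _ => e1 i), Finset.prod_univ_sum, Fintype.piFinset_univ]
      apply Finset.sum_congr rfl
      intro o _
      rw [← Finset.prod_mul_distrib]
    rw [hprod]
    by_cases hs : G ⊆ H
    · rw [Set.indicator_of_mem (by exact hs)]
      have h3 : c = 0 := by
        rw [← hc]
        have h4 : {x | l G x ∧ r H x} = ∅ := by
          rw [Set.eq_empty_iff_forall_notMem]
          intro x hx
          exact (h1 G H).1 ⟨x, hx⟩ hs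
        rw [h4, Set.ncard_empty]
      rw [h3]
      simp
    · rw [Set.indicator_of_notMem (by exact hs)]
      have h3 : c ≠ 0 := by
        intro h0
        rw [h0, Set.ncard_eq_zero (Set.toFinite _)] at hc
        obtain ⟨x, hx⟩ := (h1 G H).2 hs
        have h4 : x ∈ {x | l G x ∧ r H x} := hx
        rw [hc] at h4
        exact h4
      apply Finset.prod_eq_zero (i := (⟨c - 1, by omega⟩ : Fin k)) (Finset.mem_univ _)
      have h4 : (((⟨c - 1, by omega⟩ : Fin k) : ℕ) : ℚ) + 1 = c := by
        have h5 : (c - 1) + 1 = c := by omega
        exact_mod_cast congrArg (fun t : ℕ => (t : ℚ)) h5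
      rw [h4, div_self (by exact_mod_cast h3), sub_self]

end Pool.Agent.D0H57.LC
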