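import Mathlib
import Pool.Agent.D0H57.LC.Rank

set_option autoImplicit false

/-!
The rank bound for Boolean combinations.
-/

namespace Pool.Agent.D0H57.LC

open Finset

/-- The left vectors. -/
noncomputable def fA {X : Type} {k : ℕ} (al be : Fin k → ℚ) (p : X → Prop)
    (o : Fin k → Option X) : ℚ :=
  ∏ j, (match o j with
    | none => al j
    | some x => @ite ℚ (p x) (Classical.propDecidable _) (be j) 0)

/-- The right vectors. -/
noncomputable def fB {X : Type} {k : ℕ} (p : X → Prop) (o : Fin k → Option X) : ℚ :=
  ∏ j, (match o j with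
    | none => (1 : ℚ)
    | some x => @ite ℚ (p x) (Classical.propDecidable _) 1 0)

/-- One factor of the interpolation polynomial. -/
theorem block_sum {T X : Type} [Fintype X] (k : ℕ) (al be : Fin k → ℚ) (l r : T → X → Prop)
    (G H : T) (c : ℕ) (hc : {x | l G x ∧ r H x}.ncard = c) :
    (∑ o : Fin k → Option X, fA al be (l G) o * fB (r H) o) = ∏ j, (al j + be j * c) := by
  classical
  unfold fA fB
  have hsum : ∑ x : X, (if l G x then (1 : ℚ) else 0) * (if r H x then 1 else 0) = c := by
    have e : ∀ x : X, (if l G x then (1 : ℚ) else 0) * (if r H x then 1 else 0) =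
        if l G x ∧ r H x then 1 else 0 := by
      intro x
      by_cases e1 : l G x <;> by_cases e2 : r H x <;> simp [e1, e2]
    rw [Finset.sum_congr rfl (fun x _ => e x), Finset.sum_boole, ← hc,
      Set.ncard_eq_toFinset_card']
    congr 2
    ext x
    simp
  have e1 : ∀ j : Fin k, (al j + be j * (c : ℚ)) = ∑ y : Option X,
      (match y with
        | none => al j
        | some x => @ite ℚ (l G x) (Classical.propDecidable _) (be j) 0) *
      (match y with
        | none => (1 : ℚ)
        | some x => @ite ℚ (r H x) (Classical.propDecidable _) 1 0) := by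
    intro j
    rw [Fintype.sum_option]
    have e2 : ∑ x : X, (@ite ℚ (l G x) (Classical.propDecidable _) (be j) 0) *
        (@ite ℚ (r H x) (Classical.propDecidable _) 1 0) = be j * c := by
      rw [← hsum, Finset.mul_sum]
      apply Finset.sum_congr rfl
      intro x _
      by_cases e1 : l G x <;> by_cases e2 : r H x <;> simp [e1, e2]
    rw [e2]
    ring
  rw [Finset.prod_congr rfl (fun j _ => e1 j), Finset.prod_univ_sum, Fintype.piFinset_univ]
  apply Finset.sum_congr rfl
  intro o _
  rw [← Finset.prod_mul_distrib]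

/-- Interpolation on `0, ..., k`. -/
theorem delta (k : ℕ) (v u : Fin (k + 1)) :
    (∏ j : Fin k, (- ((v.succAbove j : ℕ) : ℚ) / (((v : ℕ) : ℚ) - ((v.succAbove j : ℕ) : ℚ)) +
      1 / (((v : ℕ) : ℚ) - ((v.succAbove j : ℕ) : ℚ)) * ((u : ℕ) : ℚ))) =
      if v = u then 1 else 0 := by
  have hne : ∀ j : Fin k, (((v : ℕ) : ℚ) - ((v.succAbove j : ℕ) : ℚ)) ≠ 0 := by
    intro j h
    have h1 : ((v : ℕ) : ℚ) = ((v.succAbove j : ℕ) : ℚ) := sub_eq_zero.1 h
    have h2 : (v : ℕ) = (v.succAbove j : ℕ) := by exact_mod_cast h1
    exact Fin.succAbove_ne v j (Fin.ext h2.symm)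
  by_cases h : v = u
  · rw [if_pos h]
    subst h
    apply Finset.prod_eq_one
    intro j _
    have := hne j
    field_simp
    ring
  · rw [if_neg h]
    obtain ⟨j, hj⟩ := Fin.exists_succAbove_eq (Ne.symm h)
    apply Finset.prod_eq_zero (Finset.mem_univ j)
    rw [hj]
    have := hne j
    rw [hj] at this
    field_simp
    ring

/-- Non-inclusion is a Boolean combination of `t` properties with certificates, at most `k i` of
the `i`-th kind for every pair. -/
theorem rank_bool {S : Type} [Finite S] {t : ℕ} (X : Fin t → Type) (hX : ∀ i, Finite (X i))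
    (k : Fin t → ℕ) (l r : (i : Fin t) → Set S → X i → Prop) (F : (Fin t → Prop) → Prop)
    (h1 : ∀ G H, F (fun i => ∃ x, l i G x ∧ r i H x) ↔ ¬ G ⊆ H)
    (h2 : ∀ i G H, {x | l i G x ∧ r i H x}.encard ≤ k i) :
    Nat.card (Set S) ≤ ∏ i, (Nat.card (X i) + 1) ^ k i := by
  classical
  have i2 : ∀ i, Fintype (X i) := fun i => Fintype.ofFinite _
  let al : (i : Fin t) → Fin (k i + 1) → Fin (k i) → ℚ := fun i v j =>
    - ((v.succAbove j : ℕ) : ℚ) / (((v : ℕ) : ℚ) - ((v.succAbove j : ℕ) : ℚ))
  let be : (i : Fin t) → Fin (k i + 1) → Fin (k i) → ℚ := fun i v j =>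
    1 / (((v : ℕ) : ℚ) - ((v.succAbove j : ℕ) : ℚ))
  let a1 : (i : Fin t) → Fin (k i + 1) → Set S → (Fin (k i) → Option (X i)) → ℚ :=
    fun i v G o => fA (al i v) (be i v) (l i G) o
  let b1 : (i : Fin t) → Set S → (Fin (k i) → Option (X i)) → ℚ := fun i H o =>
    fB (r i H) o
  let φ : ((i : Fin t) → Fin (k i + 1)) → ℚ := fun v => if F (fun i => v i ≠ 0) then 0 else 1
  have key := card_le_of_factor (Y := (i : Fin t) → Fin (k i) → Option (X i))
    (fun G o => ∑ v, φ v * ∏ i, a1 i (v i) G (o i)) (fun H o => ∏ i, b1 i H (o i)) ?_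
  · refine key.trans (le_of_eq ?_)
    rw [Nat.card_pi]
    apply Finset.prod_congr rfl
    intro i _
    rw [Nat.card_fun, Finite.card_option, Nat.card_fin]
  · intro G H
    rw [finsum_eq_sum_of_fintype]
    obtain ⟨c, hc⟩ : ∃ c : Fin t → ℕ, ∀ i, {x | l i G x ∧ r i H x}.ncard = c i :=
      ⟨_, fun i => rfl⟩
    have hck : ∀ i, c i < k i + 1 := by
      intro i
      have h3 := h2 i G H
      rw [← hc]
      rw [← Set.Finite.cast_ncard_eq (Set.toFinite _)] at h3
      have h4 : {x | l i G x ∧ r i H x}.ncard ≤ k i := by exact_mod_cast h3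
      omega
    let u : (i : Fin t) → Fin (k i + 1) := fun i => ⟨c i, hck i⟩
    have hblock : ∀ (v : (i : Fin t) → Fin (k i + 1)) (i : Fin t),
        ∑ o, a1 i (v i) G o * b1 i H o = if v i = u i then 1 else 0 := by
      intro v i
      rw [← delta (k i) (v i) (u i)]
      exact block_sum (k i) (al i (v i)) (be i (v i)) (l i) (r i) G H (c i) (hc i)
    have hmain : ∑ o : (i : Fin t) → Fin (k i) → Option (X i),
        (∑ v, φ v * ∏ i, a1 i (v i) G (o i)) * ∏ i, b1 i H (o i) = φ u := by
      calc ∑ o : (i : Fin t) → Fin (k i) → Option (X i),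
          (∑ v, φ v * ∏ i, a1 i (v i) G (o i)) * ∏ i, b1 i H (o i)
          = ∑ v, φ v * ∑ o : (i : Fin t) → Fin (k i) → Option (X i),
              ∏ i, (a1 i (v i) G (o i) * b1 i H (o i)) := by
            simp_rw [Finset.sum_mul, Finset.mul_sum]
            rw [Finset.sum_comm]
            apply Finset.sum_congr rfl
            intro v _
            apply Finset.sum_congr rfl
            intro o _
            rw [Finset.prod_mul_distrib]
            ring
        _ = ∑ v, φ v * ∏ i, (if v i = u i then 1 else 0) := by
            apply Finset.sum_congr rfl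
            intro v _
            congr 1
            rw [← Finset.prod_congr rfl (fun i _ => hblock v i), Finset.prod_univ_sum,
              Fintype.piFinset_univ]
        _ = φ u := by
            rw [Finset.sum_eq_single u]
            · simp
            · intro v _ hv
              obtain ⟨i, hi⟩ := Function.ne_iff.1 hv
              rw [Finset.prod_eq_zero (Finset.mem_univ i) (by rw [if_neg hi]), mul_zero]
            · intro h
              exact absurd (Finset.mem_univ u) h
    rw [hmain]
    have hF : F (fun i => u i ≠ 0) ↔ ¬ G ⊆ H := by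
      rw [← h1 G H]
      have e : (fun i => u i ≠ 0) = (fun i => ∃ x, l i G x ∧ r i H x) := by
        funext i
        apply propext
        have h3 : u i ≠ 0 ↔ c i ≠ 0 := by
          constructor
          · intro h h'
            exact h (Fin.ext h')
          · intro h h'
            exact h (congrArg Fin.val h')
        rw [h3, ← hc i]
        constructor
        · intro h
          by_contra hcon
          apply h
          rw [Set.ncard_eq_zero (Set.toFinite _), Set.eq_empty_iff_forall_notMem]
          intro x hx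
          exact hcon ⟨x, hx⟩
        · rintro ⟨x, hx⟩ h
          rw [Set.ncard_eq_zero (Set.toFinite _)] at h
          have h4 : x ∈ {x | l i G x ∧ r i H x} := hx
          rw [h] at h4
          exact h4
      rw [e]
    by_cases hs : G ⊆ H
    · rw [Set.indicator_of_mem (by exact hs)]
      have : ¬ F (fun i => u i ≠ 0) := fun h => hF.1 h hs
      simp only [φ, if_neg this, Pi.one_apply]
    · rw [Set.indicator_of_notMem (by exact hs)]
      have : F (fun i => u i ≠ 0) := hF.2 hs
      simp only [φ, if_pos this]

end Pool.Agent.D0H57.LC
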