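import Mathlib
import Pool.Agent.R50.LX.Expr
import Pool.Agent.N602.FT.TimeCost

set_option autoImplicit false

/-!
Complementation of 1-limited automata by nondeterministic machines: lower and upper bounds.
-/

namespace Pool.Agent.D0H57.LC

open Pool.Agent.H630R2.LA Pool.Agent.TH705.LB
open Pool.Agent.R50.LX (Expr Acc Pth Pth_append det_acc acc_la)
open Pool.Agent.N602.FT

/-! ### The lower bound -/

/-- One-way nondeterministic automata for the complement of the witness. -/
theorem acc_compl_lower (strict : Prop) (m r : ℕ)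
    (h : Acc ((bwit m).language strict)ᶜ r) : 2 ^ 2 ^ (m ^ 2) ≤ r := by
  obtain ⟨X, hX, I, F, s, h1, h2⟩ := h
  have key : ∀ G : Set (Mat m), ∃ x : X, (∃ i ∈ I, Pth s (lft G 0) i x) ∧
      ∃ y ∈ F, Pth s (rgt G 0) x y := by
    intro G
    have h3 : lft G 0 ++ rgt G 0 ∈ ((bwit m).language strict)ᶜ := by
      rw [Set.mem_compl_iff, mem_lft_rgt]
      rintro ⟨Y, h1, h2⟩
      exact h2 h1
    obtain ⟨i, hi, y, hy, hp⟩ := (h2 _).1 h3
    obtain ⟨x, h4, h5⟩ := (Pth_append _ _ _ _).1 hp
    exact ⟨x, ⟨i, hi, h4⟩, y, hy, h5⟩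
  choose l hl hr using key
  have hsub : ∀ G G' : Set (Mat m), l G = l G' → G ⊆ G' := by
    intro G G' h Y hY
    by_contra hY'
    obtain ⟨i, hi, h4⟩ := hl G
    obtain ⟨y, hy, h5⟩ := hr G'
    rw [← h] at h5
    have h6 := (h2 (lft G 0 ++ rgt G' 0)).2
      ⟨i, hi, y, hy, (Pth_append _ _ _ _).2 ⟨l G, h4, h5⟩⟩
    exact h6 ((mem_lft_rgt G G' 0 0).2 ⟨Y, hY, hY'⟩)
  have hinj : Function.Injective l := by
    intro G G' h
    exact Set.Subset.antisymm (hsub G G' h) (hsub G' G h.symm)
  have h3 := Nat.card_le_card_of_injective l hinj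
  rw [card_sets m] at h3
  exact h3.trans h1

/-- Expressions for the complement of the witness. -/
theorem expr_compl_lower (strict : Prop) (m : ℕ) (e : Expr (BL Ltr))
    (h : e.lang strict = ((bwit m).language strict)ᶜ) : 2 ^ (m ^ 2) ≤ e.weight := by
  have h1 := e.acc strict
  rw [h] at h1
  exact (Nat.pow_le_pow_iff_right (by norm_num)).1 (acc_compl_lower strict m _ h1)

/-- 1-limited automata for the complement of the witness. -/
theorem la_compl_lower (strict : Prop) (m : ℕ) (M : LimAut (BL Ltr))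
    (h : M.language strict = ((bwit m).language strict)ᶜ) :
    2 ^ (m ^ 2) ≤ Nat.card M.Q ^ 2 + Nat.card M.Q :=
  expr_compl_lower strict m (.la M) h

/-! ### The upper bounds -/

/-- The subset construction. -/
theorem Acc_compl {A : Type} {L : Set (List A)} {N : ℕ} (h : Acc L N) : Acc Lᶜ (2 ^ N) := by
  obtain ⟨X, hX, I, F, s, h1, h2⟩ := h
  have key : ∀ (w : List A) (S T : Set X),
      Pth (fun a (S T : Set X) => T = {y | ∃ x ∈ S, s a x y}) w S T ↔
        T = {y | ∃ x ∈ S, Pth s w x y} := by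
    intro w
    induction w with
    | nil =>
      intro S T
      have e : {y | ∃ x ∈ S, Pth s [] x y} = S := by
        ext y
        constructor
        · rintro ⟨x, hx, h⟩
          have h' : x = y := h
          rwa [← h']
        · intro hy
          exact ⟨y, hy, rfl⟩
      rw [e]
      exact ⟨fun h => Eq.symm h, fun h => Eq.symm h⟩
    | cons a w ih =>
      intro S T
      have e : {y | ∃ x ∈ S, Pth s (a :: w) x y} =
          {y | ∃ x ∈ {y | ∃ x ∈ S, s a x y}, Pth s w x y} := by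
        ext y
        constructor
        · rintro ⟨x, hx, z, hz, hp⟩
          exact ⟨z, ⟨x, hx, hz⟩, hp⟩
        · rintro ⟨z, ⟨x, hx, hz⟩, hp⟩
          exact ⟨x, hx, z, hz, hp⟩
      rw [e]
      constructor
      · rintro ⟨Z, hZ, hp⟩
        have hp' := (ih _ _).1 hp
        rw [hp', hZ]
      · intro h
        exact ⟨_, rfl, (ih _ _).2 h⟩
  refine ⟨Set X, inferInstance, {I}, {S | ∀ x ∈ S, x ∉ F},
    fun a S T => T = {y | ∃ x ∈ S, s a x y}, ?_, fun w => ?_⟩
  · have h3 : Nat.card (Set X) = Nat.card (X → Prop) := rfl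
    rw [h3, Nat.card_fun]
    simpa using Nat.pow_le_pow_right (n := 2) (by norm_num) h1
  · rw [Set.mem_compl_iff, h2]
    constructor
    · intro h
      refine ⟨I, rfl, {y | ∃ x ∈ I, Pth s w x y}, ?_, (key _ _ _).2 rfl⟩
      rintro y ⟨x, hx, hp⟩ hy
      exact h ⟨x, hx, y, hy, hp⟩
    · rintro ⟨S, hS, T, hT, hp⟩ ⟨x, hx, y, hy, hp'⟩
      have hS' : S = I := hS
      subst hS'
      have h3 := (key _ _ _).1 hp
      refine hT y ?_ hy
      rw [h3]
      exact ⟨x, hx, hp'⟩

/-- Deterministic machines for the complement of an expression. -/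
theorem exists_det_compl {A : Type} [Finite A] (strict : Prop) (e : Expr A) (n : ℕ)
    (hn : e.size ≤ n) : ∃ M' : LimAut A, M'.Deterministic ∧
      M'.language strict = (e.lang strict)ᶜ ∧ M'.size ≤ 2 ^ ((n + 2) ^ 4) := by
  obtain ⟨M', h1, h2, _, _, h5, _⟩ := det_acc (n := 1) (fun _ => e.lang strict)
    (fun _ => e.weight) (fun _ => e.weight_pos) (fun _ => e.acc strict) (fun v => ¬ v 0)
  refine ⟨M', h1, Set.ext fun w => (h2 strict w), h5.trans ?_⟩
  obtain ⟨h6, h7, h8⟩ := e.weight_le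
  rw [Finset.univ_unique, Finset.sum_singleton]
  have h9 : e.weight ≤ n ^ 2 := h6.trans (Nat.pow_le_pow_left hn 2)
  have h10 : Nat.card A + 1 ≤ 2 ^ (n + 1) := by
    have := Nat.lt_two_pow_self (n := n + 1)
    omega
  have hn1 : 1 ≤ n := by omega
  calc 2 ^ ((e.weight + 5) ^ 2) * (Nat.card A + 1)
      ≤ 2 ^ ((n ^ 2 + 5) ^ 2) * 2 ^ (n + 1) :=
        Nat.mul_le_mul (Nat.pow_le_pow_right (by norm_num)
          (Nat.pow_le_pow_left (by omega) 2)) h10
    _ = 2 ^ ((n ^ 2 + 5) ^ 2 + (n + 1)) := by rw [← pow_add]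
    _ ≤ 2 ^ ((n + 2) ^ 4) := by
        apply Nat.pow_le_pow_right (by norm_num)
        have e1 : (n + 2) ^ 4 = (n ^ 2 + 5) ^ 2 + (8 * n ^ 3 + 14 * n ^ 2 + 32 * n) - 9 := by
          have : (n + 2) ^ 4 + 9 = (n ^ 2 + 5) ^ 2 + (8 * n ^ 3 + 14 * n ^ 2 + 32 * n) := by ring
          omega
        have e2 : n ≤ 14 * n ^ 2 := by nlinarith
        omega

/-! ### The cost functions -/

/-- The least size of a (nondeterministic) 1-limited automaton with language `L`. -/
noncomputable def laSize (strict : Prop) {A : Type} (L : Set (List A)) : ℕ :=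
  sInf {s | ∃ M : LimAut A, M.language strict = L ∧ M.size = s}

/-- The least size of an expression over 1-limited automata with language `L`. -/
noncomputable def exprSize (strict : Prop) {A : Type} (L : Set (List A)) : ℕ :=
  sInf {s | ∃ e : Expr A, e.lang strict = L ∧ e.size = s}

/-- The values `exprSize` of the complement of `L(M)`, for the 1-limited automata `M` of size at
most `n`. -/
def costsX (strict : Prop) (n : ℕ) : Set ℕ :=
  {s | ∃ (A : Type) (_ : Finite A) (M : LimAut A), M.size ≤ n ∧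
    s = exprSize strict (M.language strict)ᶜ}

/-- The values `laSize` of the complement of `L(M)`, for the 1-limited automata `M` of size at
most `n`. -/
def costsC (strict : Prop) (n : ℕ) : Set ℕ :=
  {s | ∃ (A : Type) (_ : Finite A) (M : LimAut A), M.size ≤ n ∧
    s = laSize strict (M.language strict)ᶜ}

/-- The values `detSize` of the complement of `L(e)`, for the expressions `e` of size at
most `n`. -/
def costsY (strict : Prop) (n : ℕ) : Set ℕ :=
  {s | ∃ (A : Type) (_ : Finite A) (e : Expr A), e.size ≤ n ∧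
    s = detSize strict (e.lang strict)ᶜ}

/-- The cost of complementing 1-limited automata by expressions. -/
noncomputable def CX (strict : Prop) (n : ℕ) : ℕ := sSup (costsX strict n)

/-- The cost of complementing 1-limited automata by 1-limited automata. -/
noncomputable def CC (strict : Prop) (n : ℕ) : ℕ := sSup (costsC strict n)

/-- The cost of complementing expressions by deterministic 1-limited automata. -/
noncomputable def CY (strict : Prop) (n : ℕ) : ℕ := sSup (costsY strict n)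

/-- The least number of states of a one-way nondeterministic automaton with language `L`. -/
noncomputable def accSize {A : Type} (L : Set (List A)) : ℕ := sInf {r | Acc L r}

/-- The values `accSize` of the complement of `L(M)`, for the 1-limited automata `M` of size at
most `n`. -/
def costsN (strict : Prop) (n : ℕ) : Set ℕ :=
  {s | ∃ (A : Type) (_ : Finite A) (M : LimAut A), M.size ≤ n ∧
    s = accSize (M.language strict)ᶜ}

/-- The cost of complementing 1-limited automata by one-way nondeterministic automata. -/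
noncomputable def CN (strict : Prop) (n : ℕ) : ℕ := sSup (costsN strict n)

theorem exists_m (n : ℕ) (hn : 680000 ≤ n) : ∃ m, 3 ≤ m ∧ 170000 * (m + 1) ≤ n ∧
    n < 170000 * (m + 2) ∧ n ^ 2 ≤ m ^ 2 * 100000000000 := by
  obtain ⟨m, hm, h1, h2⟩ : ∃ m, 3 ≤ m ∧ 170000 * (m + 1) ≤ n ∧ n < 170000 * (m + 2) :=
    ⟨n / 170000 - 1, by omega, by omega, by omega⟩
  refine ⟨m, hm, h1, h2, ?_⟩
  have h6 : n ^ 2 ≤ (170000 * (m + 2)) ^ 2 := Nat.pow_le_pow_left h2.le 2
  refine h6.trans ?_
  obtain ⟨r, rfl⟩ : ∃ r, m = 3 + r := ⟨m - 3, by omega⟩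
  nlinarith [Nat.zero_le r, Nat.zero_le (r ^ 2)]

section costs

variable {strict : Prop}

theorem det_le {A : Type} [Finite A] (e : Expr A) (n : ℕ) (hn : e.size ≤ n) :
    detSize strict (e.lang strict)ᶜ ≤ 2 ^ ((n + 2) ^ 4) := by
  obtain ⟨M', h1, h2, h3⟩ := exists_det_compl strict e n hn
  exact le_trans (Nat.sInf_le ⟨M', h1, h2, rfl⟩) h3

theorem la_le_det {A : Type} [Finite A] (e : Expr A) :
    laSize strict (e.lang strict)ᶜ ≤ detSize strict (e.lang strict)ᶜ := by
  obtain ⟨M', h1, h2, h3⟩ := exists_det_compl strict e e.size le_rfl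
  have hne : {s | ∃ M : LimAut A, M.Deterministic ∧
      M.language strict = (e.lang strict)ᶜ ∧ M.size = s}.Nonempty := ⟨_, M', h1, h2, rfl⟩
  obtain ⟨M, h4, h5, h6⟩ := Nat.sInf_mem hne
  exact Nat.sInf_le ⟨M, h5, h6⟩

theorem expr_le_la {A : Type} [Finite A] (e : Expr A) :
    exprSize strict (e.lang strict)ᶜ ≤ laSize strict (e.lang strict)ᶜ := by
  obtain ⟨M', h1, h2, h3⟩ := exists_det_compl strict e e.size le_rfl
  have hne : {s | ∃ M : LimAut A,
      M.language strict = (e.lang strict)ᶜ ∧ M.size = s}.Nonempty := ⟨_, M', h2, rfl⟩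
  obtain ⟨M, h5, h6⟩ := Nat.sInf_mem hne
  exact Nat.sInf_le ⟨.la M, h5, h6⟩

theorem bddY (n : ℕ) : BddAbove (costsY strict n) := by
  refine ⟨2 ^ ((n + 2) ^ 4), ?_⟩
  rintro s ⟨A, hA, e, he, rfl⟩
  exact det_le e n he

theorem bddC (n : ℕ) : BddAbove (costsC strict n) := by
  refine ⟨2 ^ ((n + 2) ^ 4), ?_⟩
  rintro s ⟨A, hA, M, hM, rfl⟩
  exact (la_le_det (Expr.la M)).trans (det_le (Expr.la M) n hM)

theorem bddX (n : ℕ) : BddAbove (costsX strict n) := by
  refine ⟨2 ^ ((n + 2) ^ 4), ?_⟩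
  rintro s ⟨A, hA, M, hM, rfl⟩
  exact (expr_le_la (Expr.la M)).trans ((la_le_det (Expr.la M)).trans (det_le (Expr.la M) n hM))

theorem X_greatest (n : ℕ) (hn : 4 ≤ n) : IsGreatest (costsX strict n) (CX strict n) := by
  have hne : (costsX strict n).Nonempty :=
    ⟨_, Empty, inferInstance, trivM, by rw [size_trivM]; exact hn, rfl⟩
  exact ⟨Nat.sSup_mem hne (bddX n), fun s hs => le_csSup (bddX n) hs⟩

theorem C_greatest (n : ℕ) (hn : 4 ≤ n) : IsGreatest (costsC strict n) (CC strict n) := by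
  have hne : (costsC strict n).Nonempty :=
    ⟨_, Empty, inferInstance, trivM, by rw [size_trivM]; exact hn, rfl⟩
  exact ⟨Nat.sSup_mem hne (bddC n), fun s hs => le_csSup (bddC n) hs⟩

theorem Y_greatest (n : ℕ) (hn : 4 ≤ n) : IsGreatest (costsY strict n) (CY strict n) := by
  have hne : (costsY strict n).Nonempty :=
    ⟨_, Empty, inferInstance, .la trivM, by
      show trivM.size ≤ n
      rw [size_trivM]
      exact hn, rfl⟩
  exact ⟨Nat.sSup_mem hne (bddY n), fun s hs => le_csSup (bddY n) hs⟩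

theorem X_le_C (n : ℕ) (hn : 4 ≤ n) : CX strict n ≤ CC strict n := by
  obtain ⟨A, hA, M, hM, h1⟩ := (X_greatest (strict := strict) n hn).1
  rw [h1]
  exact (expr_le_la (Expr.la M)).trans (le_csSup (bddC n) ⟨A, hA, M, hM, rfl⟩)

theorem C_le_Y (n : ℕ) (hn : 4 ≤ n) : CC strict n ≤ CY strict n := by
  obtain ⟨A, hA, M, hM, h1⟩ := (C_greatest (strict := strict) n hn).1
  rw [h1]
  exact (la_le_det (Expr.la M)).trans (le_csSup (bddY n) ⟨A, hA, .la M, hM, rfl⟩)

theorem Y_le (n : ℕ) (hn : 4 ≤ n) : CY strict n ≤ 2 ^ ((n + 2) ^ 4) := by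
  obtain ⟨A, hA, e, he, h1⟩ := (Y_greatest (strict := strict) n hn).1
  rw [h1]
  exact det_le e n he

theorem X_lower (n : ℕ) (hn : 680000 ≤ n) :
    2 ^ (n ^ 2) ≤ CX strict n ^ 200000000000 := by
  obtain ⟨m, hm, h1, h2, h5⟩ := exists_m n hn
  have hmem : exprSize strict ((bwit m).language strict)ᶜ ∈ costsX strict n :=
    ⟨BL Ltr, inferInstance, bwit m, (size_bwit m).trans h1, rfl⟩
  have h3 : exprSize strict ((bwit m).language strict)ᶜ ≤ CX strict n :=
    le_csSup (bddX n) hmem
  have h4 : 2 ^ (m ^ 2) ≤ exprSize strict ((bwit m).language strict)ᶜ ^ 2 := by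
    obtain ⟨M', _, h2', _⟩ := exists_det_compl strict (Expr.la (bwit m)) _ le_rfl
    have hne : {s | ∃ e : Expr (BL Ltr),
        e.lang strict = ((bwit m).language strict)ᶜ ∧ e.size = s}.Nonempty :=
      ⟨_, .la M', h2', rfl⟩
    obtain ⟨e, h5, h6⟩ := Nat.sInf_mem hne
    have h7 : e.size = exprSize strict ((bwit m).language strict)ᶜ := h6
    rw [← h7]
    exact (expr_compl_lower strict m e h5).trans e.weight_le.1
  generalize exprSize strict ((bwit m).language strict)ᶜ = s at *
  generalize CX strict n = c at *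
  calc 2 ^ (n ^ 2) ≤ 2 ^ (m ^ 2 * 100000000000) := Nat.pow_le_pow_right (by omega) h5
    _ = (2 ^ (m ^ 2)) ^ 100000000000 := by rw [pow_mul]
    _ ≤ (s ^ 2) ^ 100000000000 := Nat.pow_le_pow_left h4 _
    _ ≤ (c ^ 2) ^ 100000000000 := Nat.pow_le_pow_left (Nat.pow_le_pow_left h3 2) _
    _ = c ^ 200000000000 := by rw [← pow_mul]

theorem accSize_le {A : Type} (e : Expr A) (n : ℕ) (hn : e.size ≤ n) :
    accSize (e.lang strict)ᶜ ≤ 2 ^ 2 ^ (n ^ 2) := by
  refine le_trans (Nat.sInf_le (Acc_compl (e.acc strict))) ?_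
  have h : e.weight ≤ n ^ 2 := e.weight_le.1.trans (Nat.pow_le_pow_left hn 2)
  exact Nat.pow_le_pow_right (by norm_num) (Nat.pow_le_pow_right (by norm_num) h)

theorem bddN (n : ℕ) : BddAbove (costsN strict n) := by
  refine ⟨2 ^ 2 ^ (n ^ 2), ?_⟩
  rintro s ⟨A, hA, M, hM, rfl⟩
  exact accSize_le (Expr.la M) n hM

theorem N_greatest (n : ℕ) (hn : 4 ≤ n) : IsGreatest (costsN strict n) (CN strict n) := by
  have hne : (costsN strict n).Nonempty :=
    ⟨_, Empty, inferInstance, trivM, by rw [size_trivM]; exact hn, rfl⟩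
  exact ⟨Nat.sSup_mem hne (bddN n), fun s hs => le_csSup (bddN n) hs⟩

theorem N_le (n : ℕ) (hn : 4 ≤ n) : CN strict n ≤ 2 ^ 2 ^ (n ^ 2) := by
  obtain ⟨A, hA, M, hM, h1⟩ := (N_greatest (strict := strict) n hn).1
  rw [h1]
  exact accSize_le (Expr.la M) n hM

theorem N_lower (n : ℕ) (hn : 680000 ≤ n) :
    2 ^ 2 ^ (n ^ 2 / 100000000000) ≤ CN strict n := by
  obtain ⟨m, hm, h1, h2, h5⟩ := exists_m n hn
  have hmem : accSize ((bwit m).language strict)ᶜ ∈ costsN strict n :=
    ⟨BL Ltr, inferInstance, bwit m, (size_bwit m).trans h1, rfl⟩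
  refine le_trans ?_ (le_csSup (bddN n) hmem)
  have hne : {r | Acc ((bwit m).language strict)ᶜ r}.Nonempty :=
    ⟨_, Acc_compl (acc_la strict (bwit m))⟩
  refine le_trans ?_ (acc_compl_lower strict m _ (Nat.sInf_mem hne))
  apply Nat.pow_le_pow_right (by norm_num)
  apply Nat.pow_le_pow_right (by norm_num)
  exact Nat.div_le_of_le_mul (by rw [mul_comm]; exact h5)

end costs

end Pool.Agent.D0H57.LC
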