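import Mathlib
import Pool.Agent.D0H57.LC.Core

set_option autoImplicit false

/-!
Unambiguous 1-limited automata: different labels of the table automaton give different
computations.
-/

namespace Pool.Agent.D0H57.LC

open Relation
open Pool.Agent.H630R2.LA
open Pool.Agent.R620.KV (IsComp IsAcc)

section fst

variable {A : Type} {strict : Prop} {M : LimAut A}

/-- `c` is a configuration of the first arrival at the cell `m + 1`, with the label `x`. -/
structure Fst (strict : Prop) (M : LimAut A) (w : List A) (m : ℕ)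
    (x : Set (M.Q × M.Q) × M.Q) (c : Cfg M) : Prop where
  state : c.state = x.2
  pos : c.pos = m + 1
  seen : ∀ i, 1 ≤ i → (i ∈ c.seen ↔ i ≤ m)
  tape : ∀ i, m < i → c.tape i = initTape M w i
  zero : c.tape 0 = .lm
  tab : Tab strict M c.tape m = x.1

theorem Fst.start (w : List A) : Fst strict M w 0 (x0 strict M) (init M w) where
  state := rfl
  pos := rfl
  seen := by
    intro i hi
    simp [init]
    omega
  tape := fun _ _ => rfl
  zero := rfl
  tab := by
    rw [Tab_zero]
    rfl

theorem Fst.next {w : List A} {m : ℕ} (hm : m ≤ w.length) {x y : Set (M.Q × M.Q) × M.Q}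
    {c : Cfg M} (hc : Fst strict M w m y c)
    (h : nstep strict M (initTape M w (m + 1)) y x) :
    ∃ c', Fst strict M w (m + 1) x c' ∧ ReflTransGen (Step strict w.length) c c' := by
  obtain ⟨q, b, d, hδ, hR, hr, hl⟩ := h
  obtain ⟨st, ps, τ, S⟩ := c
  obtain ⟨h1, h2, hS, hτ, h0, hT⟩ := hc
  simp only at h1 h2 hS hτ h0 hT
  subst h1
  subst h2
  set τ' : ℕ → Sym M.W := Function.update τ (m + 1) ((τ (m + 1)).rewrite b) with hτ'
  have hagree : ∀ i, i ≤ m → τ' i = τ i := by
    intro i hi
    rw [hτ', Function.update_of_ne]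
    omega
  have hnew : τ' (m + 1) = (initTape M w (m + 1)).rewrite b := by
    rw [hτ', Function.update_self, hτ _ (by omega)]
  have htab : Tab strict M τ' (m + 1) = x.1 := by
    rw [Tab_succ, hnew, Tab.congr hagree, hT, hR]
  have hnot : m + 1 ∉ S := by
    intro h
    have := (hS (m + 1) (by omega)).1 h
    omega
  have hS1 : ∀ i, 1 ≤ i → (i ∈ insert (m + 1) S ↔ i ≤ m + 1) := by
    intro i hi
    rw [Set.mem_insert_iff, hS i hi]
    omega
  have h0' : τ' 0 = .lm := by rw [hagree 0 (by omega)]; exact h0
  have hτ1 : ∀ i, m + 1 < i → τ' i = initTape M w i := by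
    intro i hi
    rw [hτ', Function.update_of_ne (by omega)]
    exact hτ i (by omega)
  have hδ' : (q, b, d) ∈ M.δ y.2 (τ (m + 1)) := by rw [hτ _ (by omega)]; exact hδ
  have hm' : m + 1 ≤ w.length + 1 := by omega
  cases d
  · obtain ⟨s, hs1, hs2⟩ := hl rfl
    have hstep : Step strict w.length (⟨y.2, m + 1, τ, S⟩ : Cfg M)
        ⟨q, m, τ', insert (m + 1) S⟩ :=
      ⟨hm', q, b, false, hδ', fun _ h => absurd h hnot, rfl, fun h => absurd h hnot,
        fun _ => rfl, rfl, by simp, by simp⟩
    have hpath : ReflTransGen (Fr strict M τ' (m + 1)) (q, m) (x.2, m + 2) := by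
      have h1 : ReflTransGen (Fr strict M τ m) (q, m) (s, m + 1) := by
        have := hs1
        rw [← hT] at this
        exact this
      have h2 : ReflTransGen (Fr strict M τ' (m + 1)) (q, m) (s, m + 1) :=
        FrS.mono (Nat.le_succ m) (FrS.congr (fun i hi => (hagree i hi).symm) h1)
      refine h2.trans ?_
      have := hs2
      rw [← htab] at this
      exact this
    obtain ⟨S', hS', hlift⟩ := lift (n := w.length) hm' h0' hpath _ hS1
    exact ⟨⟨x.2, m + 2, τ', S'⟩, ⟨rfl, rfl, hS', hτ1, h0', htab⟩,
      (ReflTransGen.single hstep).trans hlift⟩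
  · have hq := hr rfl
    have hstep : Step strict w.length (⟨y.2, m + 1, τ, S⟩ : Cfg M)
        ⟨q, m + 2, τ', insert (m + 1) S⟩ :=
      ⟨hm', q, b, true, hδ', fun _ h => absurd h hnot, rfl, fun h => absurd h hnot,
        fun _ => rfl, rfl, by simp, by simp⟩
    exact ⟨⟨q, m + 2, τ', insert (m + 1) S⟩, ⟨hq.symm, rfl, hS1, hτ1, h0', htab⟩,
      ReflTransGen.single hstep⟩

theorem Fst.path {w : List A} (b : List A) : ∀ (a v : List A), w = a ++ b ++ v →
    ∀ (x y : Set (M.Q × M.Q) × M.Q) (c : Cfg M), Fst strict M w a.length x c →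
    runs strict M b x y → ∃ c', Fst strict M w (a.length + b.length) y c' ∧
      ReflTransGen (Step strict w.length) c c' := by
  induction b with
  | nil =>
    intro a v _ x y c hc h
    have h' : x = y := h
    subst h'
    exact ⟨c, hc, ReflTransGen.refl⟩
  | cons l b ih =>
    intro a v hw x y c hc h
    obtain ⟨z, hz, hp⟩ := h
    have hlen : w.length = a.length + (b.length + 1) + v.length := by
      rw [hw]
      simp only [List.length_append, List.length_cons]
    have hwt : w[a.length]? = some l := by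
      rw [hw, List.append_assoc, List.getElem?_append_right le_rfl]
      simp
    have hcell : initTape M w (a.length + 1) = .sym (M.inp l) := by
      simp only [initTape, hwt]
    obtain ⟨c1, h1, h2⟩ := hc.next (by omega) (x := z) (by rw [hcell]; exact hz)
    have e1 : (a ++ [l]).length = a.length + 1 := by simp
    obtain ⟨c2, h3, h4⟩ := ih (a ++ [l]) v (by rw [hw]; simp) z y c1 (by rw [e1]; exact h1) hp
    refine ⟨c2, ?_, h2.trans h4⟩
    have e2 : a.length + (l :: b).length = (a ++ [l]).length + b.length := by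
      simp only [List.length_cons, List.length_append, List.length_nil]
      omega
    rw [e2]
    exact h3

theorem exists_fun {α : Type} {r : α → α → Prop} {a b : α} (h : ReflTransGen r a b) :
    ∃ (T : ℕ) (f : ℕ → α), f 0 = a ∧ f T = b ∧ ∀ t, t < T → r (f t) (f (t + 1)) := by
  induction h with
  | refl => exact ⟨0, fun _ => a, rfl, rfl, fun t ht => absurd ht (Nat.not_lt_zero t)⟩
  | tail _ hs ih =>
    rename_i b c _
    obtain ⟨T, f, h0, h1, h2⟩ := ih
    refine ⟨T + 1, fun t => if t ≤ T then f t else c, ?_, ?_, ?_⟩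
    · simp [h0]
    · simp
    · intro t ht
      by_cases h3 : t < T
      · have e1 : t ≤ T := h3.le
        have e2 : t + 1 ≤ T := h3
        simp only [e1, e2, if_true]
        exact h2 t h3
      · have e1 : t = T := by omega
        subst e1
        simp only [le_refl, if_true, Nat.not_succ_le_self, if_false]
        rw [h1]
        exact hs

/-- An accepting computation through a first arrival with the label `l`. -/
def Through (strict : Prop) (M : LimAut A) (w : List A) (m : ℕ)
    (l : Set (M.Q × M.Q) × M.Q) (T : ℕ) (f : ℕ → Cfg M) : Prop :=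
  IsAcc strict M w T f ∧ ∃ t, t ≤ T ∧ Fst strict M w m l (f t)

theorem exists_through {u v : List A} {l z : Set (M.Q × M.Q) × M.Q}
    (h1 : runs strict M u (x0 strict M) l) (h2 : runs strict M v l z) (h3 : finX strict M z) :
    ∃ T f, Through strict M (u ++ v) u.length l T f := by
  obtain ⟨c1, h4, h5⟩ := Fst.path (strict := strict) (M := M) (w := u ++ v) u [] v (by simp) _ _ _
    (Fst.start (u ++ v)) h1
  have e1 : ([] : List A).length + u.length = u.length := by simp
  rw [e1] at h4
  obtain ⟨c2, h6, h7⟩ := Fst.path (strict := strict) (M := M) (w := u ++ v) v u [] (by simp) _ _ _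
    h4 h2
  obtain ⟨x, hx, hF⟩ := h3
  have hlen : u.length + v.length = (u ++ v).length := by simp
  rw [hlen] at h6
  have hlast : initTape M (u ++ v) ((u ++ v).length + 1) = .rm := by
    simp only [initTape, List.getElem?_eq_none (le_refl (u ++ v).length)]
  obtain ⟨c3, h8, h9⟩ := h6.next (x := x) le_rfl (by rw [hlast]; exact hx)
  obtain ⟨T1, f1, a0, a1, a2⟩ := exists_fun h5
  obtain ⟨T2, f2, b0, b1, b2⟩ := exists_fun (h7.trans h9)
  obtain ⟨g, e3, e2⟩ : ∃ g : ℕ → Cfg M, (∀ t, t ≤ T1 → g t = f1 t) ∧
      ∀ t, T1 ≤ t → g t = f2 (t - T1) := by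
    refine ⟨fun t => if t ≤ T1 then f1 t else f2 (t - T1), fun t ht => ?_, fun t ht => ?_⟩
    · simp only [ht, if_true]
    · by_cases h : t ≤ T1
      · have e3 : t = T1 := by omega
        subst e3
        simp [a1, b0]
      · simp only [h, if_false]
  have e5 : g (T1 + T2) = c3 := by
    rw [e2 _ (by omega)]
    have e4 : T1 + T2 - T1 = T2 := by omega
    rw [e4, b1]
  refine ⟨T1 + T2, g, ⟨⟨?_, ?_⟩, ?_, ?_⟩, T1, by omega, ?_⟩
  · rw [e3 0 (Nat.zero_le _)]
    exact a0
  · intro t ht
    by_cases h : t < T1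
    · rw [e3 t h.le, e3 (t + 1) h]
      exact a2 t h
    · rw [e2 t (by omega), e2 (t + 1) (by omega)]
      have e4 : t + 1 - T1 = (t - T1) + 1 := by omega
      rw [e4]
      exact b2 _ (by omega)
  · rw [e5, h8.pos]
  · rw [e5, h8.state]
    exact hF
  · rw [e3 _ le_rfl, a1]
    exact h4

theorem seen_mono {w : List A} {T : ℕ} {f : ℕ → Cfg M} (hf : IsComp strict M w T f) (i : ℕ) :
    ∀ s t, s ≤ t → t ≤ T → i ∈ (f s).seen → i ∈ (f t).seen := by
  intro s t hst ht hi
  induction t, hst using Nat.le_induction with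
  | base => exact hi
  | succ t hst ih =>
    obtain ⟨_, q, b, d, _, _, _, _, _, h, _⟩ := hf.step t (by omega)
    rw [h]
    exact Set.mem_insert_of_mem _ (ih (by omega))

/-- The label is determined by the computation. -/
theorem label_unique {w : List A} {m : ℕ} {l l' : Set (M.Q × M.Q) × M.Q} {T : ℕ}
    {f f' : ℕ → Cfg M} (hf : IsComp strict M w T f) (hff : ∀ t, t ≤ T → f' t = f t)
    {t t' : ℕ} (ht : t ≤ T) (ht' : t' ≤ T) (h : Fst strict M w m l (f t))
    (h' : Fst strict M w m l' (f' t')) : l = l' := by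
  rw [hff t' ht'] at h'
  have key : ∀ (s s' : ℕ) (k k' : Set (M.Q × M.Q) × M.Q), s' ≤ T → Fst strict M w m k (f s) →
      Fst strict M w m k' (f s') → ¬ s < s' := by
    intro s s' k k' hs' h1 h2 hlt
    have h3 : m + 1 ∈ (f (s + 1)).seen := by
      obtain ⟨_, q, b, d, _, _, _, _, _, h, _⟩ := hf.step s (by omega)
      rw [h, h1.pos]
      exact Set.mem_insert _ _
    have h4 := seen_mono hf (m + 1) (s + 1) s' hlt hs' h3
    have h5 := (h2.seen (m + 1) (by omega)).1 h4
    omega
  have e : t = t' := by
    have h1 := key t t' l l' ht' h h'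
    have h2 := key t' t l' l ht h' h
    omega
  subst e
  refine Prod.ext ?_ ?_
  · rw [← h.tab, h'.tab]
  · rw [← h.state, h'.state]

/-- The accepting computations on `w`, as lists of configurations. -/
def accComps (strict : Prop) (M : LimAut A) (w : List A) : Set (List (Cfg M)) :=
  {L | ∃ (T : ℕ) (f : ℕ → Cfg M), IsAcc strict M w T f ∧ L = (List.range (T + 1)).map f}

/-- `M` is `k`-ambiguous: no input has more than `k` accepting computations. -/
def Ambiguity (strict : Prop) (M : LimAut A) (k : ℕ) : Prop :=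
  ∀ w : List A, (accComps strict M w).encard ≤ k

/-- The labels for a cut of an input. -/
def labels (strict : Prop) (M : LimAut A) (u v : List A) : Set (Set (M.Q × M.Q) × M.Q) :=
  {l | runs strict M u (x0 strict M) l ∧ ∃ z, runs strict M v l z ∧ finX strict M z}

theorem labels_encard (u v : List A) :
    (labels strict M u v).encard ≤ (accComps strict M (u ++ v)).encard := by
  have key : ∀ l : Set (M.Q × M.Q) × M.Q, l ∈ labels strict M u v →
      ∃ T f, Through strict M (u ++ v) u.length l T f := by
    rintro l ⟨h1, z, h2, h3⟩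
    exact exists_through h1 h2 h3
  have hne : Nonempty (Cfg M) := ⟨init M []⟩
  choose! T f h using key
  refine Set.encard_le_encard_of_injOn (f := fun l => (List.range (T l + 1)).map (f l)) ?_ ?_
  · intro l hl
    exact ⟨T l, f l, (h l hl).1, rfl⟩
  · intro l hl l' hl' heq
    have heq' : (List.range (T l + 1)).map (f l) = (List.range (T l' + 1)).map (f l') := heq
    have hT : T l = T l' := by
      have := congrArg List.length heq'
      simpa using this
    rw [← hT] at heq'
    have hf : ∀ t, t ≤ T l → f l' t = f l t := by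
      intro t ht
      have h1 := List.map_inj_left.1 heq' t (List.mem_range.2 (by omega))
      exact h1.symm
    obtain ⟨hacc, t, ht, hF⟩ := h l hl
    obtain ⟨hacc', t', ht', hF'⟩ := h l' hl'
    exact label_unique hacc.toIsComp hf ht (by omega) hF hF'

theorem step_det (hd : M.Deterministic) {n : ℕ} {c c1 c2 : Cfg M} (h1 : Step strict n c c1)
    (h2 : Step strict n c c2) : c1 = c2 := by
  obtain ⟨_, q, b, d, a1, _, a2, a3, a4, a5, a6, a7⟩ := h1
  obtain ⟨_, q', b', d', b1, _, b2, b3, b4, b5, b6, b7⟩ := h2
  have e := hd _ _ a1 b1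
  simp only [Prod.mk.injEq] at e
  obtain ⟨rfl, rfl, rfl⟩ := e
  obtain ⟨s1, p1, t1, S1⟩ := c1
  obtain ⟨s2, p2, t2, S2⟩ := c2
  simp only at a2 a3 a4 a5 a6 a7 b2 b3 b4 b5 b6 b7
  have e1 : s1 = s2 := a2.trans b2.symm
  have e2 : t1 = t2 := by
    by_cases h : c.pos ∈ c.seen
    · rw [a3 h, b3 h]
    · rw [a4 h, b4 h]
  have e3 : S1 = S2 := a5.trans b5.symm
  have e4 : p1 = p2 := by
    cases d
    · have := a7 rfl
      have := b7 rfl
      omega
    · rw [a6 rfl, b6 rfl]
  rw [e1, e2, e3, e4]

/-- Deterministic machines are unambiguous. -/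
theorem det_ambiguity (hd : M.Deterministic) : Ambiguity strict M 1 := by
  intro w
  rw [Nat.cast_one, Set.encard_le_one_iff]
  rintro L L' ⟨T, f, hf, rfl⟩ ⟨T', f', hf', rfl⟩
  have key : ∀ t, t ≤ T → t ≤ T' → f t = f' t := by
    intro t
    induction t with
    | zero =>
      intro _ _
      rw [hf.start, hf'.start]
    | succ t ih =>
      intro h1 h2
      have h3 := hf.step t (by omega)
      rw [ih (by omega) (by omega)] at h3
      exact step_det hd h3 (hf'.step t (by omega))
  have hno : ∀ (T T' : ℕ) (f f' : ℕ → Cfg M), IsAcc strict M w T f → IsAcc strict M w T' f' →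
      (∀ t, t ≤ T → t ≤ T' → f t = f' t) → ¬ T < T' := by
    intro T T' f f' h h' hk hlt
    have h1 := (h'.step T hlt).1
    rw [← hk T le_rfl hlt.le, h.last] at h1
    omega
  have e : T = T' := by
    have h1 := hno T T' f f' hf hf' key
    have h2 := hno T' T f' f hf' hf (fun t a b => (key t b a).symm)
    omega
  subst e
  apply List.map_congr_left
  intro t ht
  have := List.mem_range.1 ht
  exact key t (by omega) (by omega)

end fst

end Pool.Agent.D0H57.LC
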