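import Mathlib
import Pool.Agent.D0H57.LC.Unamb
import Pool.Agent.D0H57.LC.Rank

set_option autoImplicit false

/-!
The cost of converting 1-limited automata into 1-limited automata of bounded ambiguity.
-/

namespace Pool.Agent.D0H57.LC

open Filter
open Pool.Agent.H630R2.LA Pool.Agent.TH705.LB
open Pool.Agent.N602.FT

/-- The lower bound for one machine. -/
theorem ambiguous_lower (strict : Prop) (m k : ℕ) (M : LimAut (BL Ltr))
    (ha : Ambiguity strict M k) (h : M.language strict = (bwit m).language strict) :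
    2 ^ (m ^ 2) ≤ k * (Nat.card M.Q ^ 2 + Nat.card M.Q) := by
  have hfin := M.finQ
  have h1 := rank_lemma (S := Mat m) (X := Set (M.Q × M.Q) × M.Q) k
    (fun G x => runs strict M (lft G 0) (x0 strict M) x)
    (fun H x => ∃ z, runs strict M (rgt H 0) x z ∧ finX strict M z) ?_ ?_
  · rw [card_sets m, card_table] at h1
    have h2 : 2 ^ (Nat.card M.Q * Nat.card M.Q) * Nat.card M.Q + 1 ≤
        2 ^ (Nat.card M.Q ^ 2 + Nat.card M.Q) := by
      generalize Nat.card M.Q = s
      have h3 : s + 1 ≤ 2 ^ s := Nat.lt_two_pow_self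
      have h4 : 1 ≤ 2 ^ (s * s) := Nat.one_le_two_pow
      calc 2 ^ (s * s) * s + 1 ≤ 2 ^ (s * s) * s + 2 ^ (s * s) := by omega
        _ = 2 ^ (s * s) * (s + 1) := by ring
        _ ≤ 2 ^ (s * s) * 2 ^ s := Nat.mul_le_mul_left _ h3
        _ = 2 ^ (s ^ 2 + s) := by rw [← pow_add, sq]
    have h3 : 2 ^ 2 ^ (m ^ 2) ≤ 2 ^ ((Nat.card M.Q ^ 2 + Nat.card M.Q) * k) := by
      rw [pow_mul 2 (Nat.card M.Q ^ 2 + Nat.card M.Q) k]
      exact h1.trans (Nat.pow_le_pow_left h2 k)
    rw [mul_comm k]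
    exact (Nat.pow_le_pow_iff_right (by norm_num)).1 h3
  · intro G H
    have h2 : lft G 0 ++ rgt H 0 ∈ M.language strict ↔ ¬ G ⊆ H := by
      rw [h, mem_lft_rgt, Set.not_subset]
    rw [← h2, mem_language_runs]
    constructor
    · rintro ⟨x, hx, z, hz, hf⟩
      exact ⟨z, (runs_append _ _ _ _).2 ⟨x, hx, hz⟩, hf⟩
    · rintro ⟨z, hz, hf⟩
      obtain ⟨x, hx, hz'⟩ := (runs_append _ _ _ _).1 hz
      exact ⟨x, hx, z, hz', hf⟩
  · intro G H
    exact (labels_encard (lft G 0) (rgt H 0)).trans (ha _)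

/-- The least size of a `k`-ambiguous 1-limited automaton with language `L`. -/
noncomputable def ambSize (k : ℕ) (strict : Prop) {A : Type} (L : Set (List A)) : ℕ :=
  sInf {s | ∃ M : LimAut A, Ambiguity strict M k ∧ M.language strict = L ∧ M.size = s}

/-- The values `ambSize k L(M)`, for the 1-limited automata `M` of size at most `n`. -/
def costsA (k : ℕ) (strict : Prop) (n : ℕ) : Set ℕ :=
  {s | ∃ (A : Type) (_ : Finite A) (M : LimAut A), M.size ≤ n ∧
    s = ambSize k strict (M.language strict)}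

/-- The cost of the conversion of 1-limited automata of size at most `n` into `k`-ambiguous
ones. -/
noncomputable def DA (k : ℕ) (strict : Prop) (n : ℕ) : ℕ := sSup (costsA k strict n)

section costs

variable {strict : Prop}

theorem Ambiguity.mono {A : Type} {M : LimAut A} {k k' : ℕ} (h : Ambiguity strict M k)
    (hk : k ≤ k') : Ambiguity strict M k' := by
  intro w
  refine (h w).trans ?_
  exact_mod_cast hk

theorem exists_det {A : Type} [Finite A] (M : LimAut A) : ∃ M' : LimAut A, M'.Deterministic ∧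
    M'.language strict = M.language strict ∧ M'.size = detSize strict (M.language strict) := by
  obtain ⟨M', h1, h2, -⟩ := upper M strict
  have hne : {s | ∃ M' : LimAut A, M'.Deterministic ∧
      M'.language strict = M.language strict ∧ M'.size = s}.Nonempty := ⟨_, M', h1, h2, rfl⟩
  obtain ⟨M1, h3, h4, h5⟩ := Nat.sInf_mem hne
  exact ⟨M1, h3, h4, h5⟩

theorem exists_amb {A : Type} [Finite A] (M : LimAut A) {k : ℕ} (hk : 1 ≤ k) :
    ∃ M' : LimAut A, Ambiguity strict M' k ∧
      M'.language strict = M.language strict ∧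
      M'.size = ambSize k strict (M.language strict) := by
  obtain ⟨M', h1, h2, -⟩ := upper M strict
  have hne : {s | ∃ M' : LimAut A, Ambiguity strict M' k ∧
      M'.language strict = M.language strict ∧ M'.size = s}.Nonempty :=
    ⟨_, M', (det_ambiguity h1).mono hk, h2, rfl⟩
  obtain ⟨M1, h3, h4, h5⟩ := Nat.sInf_mem hne
  exact ⟨M1, h3, h4, h5⟩

theorem amb_le_det {A : Type} [Finite A] (M : LimAut A) {k : ℕ} (hk : 1 ≤ k) :
    ambSize k strict (M.language strict) ≤ detSize strict (M.language strict) := by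
  obtain ⟨M', h1, h2, h3⟩ := exists_det (strict := strict) M
  exact Nat.sInf_le ⟨M', (det_ambiguity h1).mono hk, h2, h3⟩

theorem det_le_pow {A : Type} [Finite A] (M : LimAut A) (n : ℕ) (hn : M.size ≤ n) :
    detSize strict (M.language strict) ≤ 2 ^ ((n + 2) ^ 4) := by
  obtain ⟨M', h1, h2, h3⟩ := upper M strict
  refine (Nat.sInf_le ⟨M', h1, h2, rfl⟩ : detSize strict (M.language strict) ≤ M'.size).trans
    (h3.trans ?_)
  apply Nat.pow_le_pow_right (by omega)
  exact Nat.pow_le_pow_left (by omega) 4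

theorem bddD (n : ℕ) : BddAbove (costs strict n) := by
  refine ⟨2 ^ ((n + 2) ^ 4), ?_⟩
  rintro s ⟨A, hA, M, hM, rfl⟩
  exact det_le_pow M n hM

theorem bddA {k : ℕ} (hk : 1 ≤ k) (n : ℕ) : BddAbove (costsA k strict n) := by
  refine ⟨2 ^ ((n + 2) ^ 4), ?_⟩
  rintro s ⟨A, hA, M, hM, rfl⟩
  exact (amb_le_det M hk).trans (det_le_pow M n hM)

theorem A_greatest {k : ℕ} (hk : 1 ≤ k) (n : ℕ) (hn : 4 ≤ n) :
    IsGreatest (costsA k strict n) (DA k strict n) := by
  have hne : (costsA k strict n).Nonempty :=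
    ⟨_, Empty, inferInstance, trivM, by rw [size_trivM]; exact hn, rfl⟩
  exact ⟨Nat.sSup_mem hne (bddA hk n), fun s hs => le_csSup (bddA hk n) hs⟩

theorem A_anti {k k' : ℕ} (hk : 1 ≤ k) (hkk : k ≤ k') (n : ℕ) (hn : 4 ≤ n) :
    DA k' strict n ≤ DA k strict n := by
  obtain ⟨A, hA, M, hM, h1⟩ := (A_greatest (strict := strict) (hk.trans hkk) n hn).1
  rw [h1]
  obtain ⟨M', h2, h3, h4⟩ := exists_amb (strict := strict) M hk
  have h5 : ambSize k' strict (M.language strict) ≤ M'.size :=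
    Nat.sInf_le ⟨M', h2.mono hkk, h3, rfl⟩
  rw [h4] at h5
  exact h5.trans (le_csSup (bddA hk n) ⟨A, hA, M, hM, rfl⟩)

theorem A_le_D {k : ℕ} (hk : 1 ≤ k) (n : ℕ) (hn : 4 ≤ n) : DA k strict n ≤ D strict n := by
  obtain ⟨A, hA, M, hM, h1⟩ := (A_greatest (strict := strict) hk n hn).1
  rw [h1]
  exact (amb_le_det M hk).trans (le_csSup (bddD n) ⟨A, hA, M, hM, rfl⟩)

theorem D_le_pow (n : ℕ) : D strict n ≤ 2 ^ ((n + 2) ^ 4) := by
  rcases (costs strict n).eq_empty_or_nonempty with h | h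
  · unfold D
    rw [h]
    simp
  · refine csSup_le h ?_
    rintro s ⟨A, hA, M, hM, rfl⟩
    exact det_le_pow M n hM

theorem A_lower {k : ℕ} (hk : 1 ≤ k) (n : ℕ) (hn : 680000 ≤ n) :
    2 ^ (n ^ 2 / 100000000000) ≤ k * DA k strict n ^ 2 := by
  obtain ⟨m, hm, h1, h2, h5⟩ := exists_m n hn
  have hmem : ambSize k strict ((bwit m).language strict) ∈ costsA k strict n :=
    ⟨BL Ltr, inferInstance, bwit m, (size_bwit m).trans h1, rfl⟩
  have h3 : ambSize k strict ((bwit m).language strict) ≤ DA k strict n :=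
    le_csSup (bddA hk n) hmem
  obtain ⟨M, h6, h7, h8⟩ := exists_amb (strict := strict) (bwit m) hk
  have h9 := ambiguous_lower strict m k M h6 h7
  have h10 : Nat.card M.Q ^ 2 + Nat.card M.Q ≤ DA k strict n ^ 2 := by
    refine le_trans ?_ (Nat.pow_le_pow_left h3 2)
    rw [← h8]
    have h11 : Nat.card M.Q + 3 ≤ M.size := by
      unfold LimAut.size
      omega
    refine le_trans ?_ (Nat.pow_le_pow_left h11 2)
    nlinarith [Nat.zero_le (Nat.card M.Q)]
  refine le_trans ?_ (h9.trans (Nat.mul_le_mul_left k h10))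
  apply Nat.pow_le_pow_right (by norm_num)
  exact Nat.div_le_of_le_mul (by rw [mul_comm]; exact h5)

theorem A_superexp (c : ℕ) :
    ∀ᶠ n in atTop, 2 ^ (c * n) < DA (2 ^ (c * n)) strict n := by
  filter_upwards [eventually_ge_atTop 680000,
    eventually_ge_atTop (100000000000 * (3 * c + 1))] with n hn0 hn
  have hk : 1 ≤ 2 ^ (c * n) := Nat.one_le_two_pow
  have h1 := A_lower (strict := strict) hk n hn0
  by_contra hcon
  have h2 : DA (2 ^ (c * n)) strict n ≤ 2 ^ (c * n) := not_lt.1 hcon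
  have h3 : 2 ^ (n ^ 2 / 100000000000) ≤ 2 ^ (c * n * 3) := by
    refine h1.trans ?_
    calc 2 ^ (c * n) * DA (2 ^ (c * n)) strict n ^ 2 ≤ 2 ^ (c * n) * (2 ^ (c * n)) ^ 2 :=
          Nat.mul_le_mul_left _ (Nat.pow_le_pow_left h2 2)
      _ = (2 ^ (c * n)) ^ 3 := by ring
      _ = 2 ^ (c * n * 3) := by rw [← pow_mul]
  have h4 : n ^ 2 / 100000000000 ≤ c * n * 3 := (Nat.pow_le_pow_iff_right (by norm_num)).1 h3
  have h5 : (3 * c + 1) * n ≤ n ^ 2 / 100000000000 := by
    rw [Nat.le_div_iff_mul_le (by norm_num), sq]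
    calc (3 * c + 1) * n * 100000000000 = (100000000000 * (3 * c + 1)) * n := by ring
      _ ≤ n * n := Nat.mul_le_mul_right _ hn
  have h6 : (3 * c + 1) * n = c * n * 3 + n := by ring
  have h7 : c * n * 3 + n ≤ c * n * 3 := by
    rw [← h6]
    exact h5.trans h4
  clear hn h5 h4 h3 h1
  omega

end costs

end Pool.Agent.D0H57.LC
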