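import Mathlib
import Pool.Agent.D0H57.LC.UnambCost
import Pool.Agent.D0H57.LC.RankBool

set_option autoImplicit false

/-!
Boolean combinations of 1-limited automata of bounded ambiguity.
-/

namespace Pool.Agent.D0H57.LC

open Filter
open Pool.Agent.H630R2.LA Pool.Agent.TH705.LB
open Pool.Agent.N602.FT

/-- The Boolean combination `F` of the languages of the machines `M i`. -/
def boolComb (strict : Prop) {A : Type} {t : ℕ} (M : Fin t → LimAut A)
    (F : (Fin t → Prop) → Prop) : Set (List A) :=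
  {w | F (fun i => w ∈ (M i).language strict)}

/-- The lower bound for Boolean combinations. -/
theorem bool_lower (strict : Prop) (m t : ℕ) (k : Fin t → ℕ) (M : Fin t → LimAut (BL Ltr))
    (F : (Fin t → Prop) → Prop) (ha : ∀ i, Ambiguity strict (M i) (k i))
    (h : boolComb strict M F = (bwit m).language strict) :
    2 ^ (m ^ 2) ≤ ∑ i, k i * (Nat.card (M i).Q ^ 2 + Nat.card (M i).Q) := by
  have h1 := rank_bool (S := Mat m) (fun i => Set ((M i).Q × (M i).Q) × (M i).Q)
    (fun i => by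
      have := (M i).finQ
      infer_instance) k
    (fun i G x => runs strict (M i) (lft G 0) (x0 strict (M i)) x)
    (fun i H x => ∃ z, runs strict (M i) (rgt H 0) x z ∧ finX strict (M i) z) F ?_ ?_
  · rw [card_sets m] at h1
    have h2 : ∀ i, (Nat.card (Set ((M i).Q × (M i).Q) × (M i).Q) + 1) ^ k i ≤
        2 ^ (k i * (Nat.card (M i).Q ^ 2 + Nat.card (M i).Q)) := by
      intro i
      rw [mul_comm (k i), pow_mul 2 (Nat.card (M i).Q ^ 2 + Nat.card (M i).Q) (k i)]
      apply Nat.pow_le_pow_left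
      rw [card_table]
      generalize Nat.card (M i).Q = s
      have h3 : s + 1 ≤ 2 ^ s := Nat.lt_two_pow_self
      have h4 : 1 ≤ 2 ^ (s * s) := Nat.one_le_two_pow
      calc 2 ^ (s * s) * s + 1 ≤ 2 ^ (s * s) * s + 2 ^ (s * s) := by omega
        _ = 2 ^ (s * s) * (s + 1) := by ring
        _ ≤ 2 ^ (s * s) * 2 ^ s := Nat.mul_le_mul_left _ h3
        _ = 2 ^ (s ^ 2 + s) := by rw [← pow_add, sq]
    have h3 : 2 ^ 2 ^ (m ^ 2) ≤
        2 ^ (∑ i, k i * (Nat.card (M i).Q ^ 2 + Nat.card (M i).Q)) := by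
      rw [← Finset.prod_pow_eq_pow_sum]
      exact h1.trans (Finset.prod_le_prod' fun i _ => h2 i)
    exact (Nat.pow_le_pow_iff_right (by norm_num)).1 h3
  · intro G H
    have h2 : lft G 0 ++ rgt H 0 ∈ boolComb strict M F ↔ ¬ G ⊆ H := by
      rw [h, mem_lft_rgt, Set.not_subset]
    rw [← h2]
    have e : (fun i => ∃ x, runs strict (M i) (lft G 0) (x0 strict (M i)) x ∧
        ∃ z, runs strict (M i) (rgt H 0) x z ∧ finX strict (M i) z) =
        fun i => lft G 0 ++ rgt H 0 ∈ (M i).language strict := by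
      funext i
      apply propext
      rw [mem_language_runs]
      constructor
      · rintro ⟨x, hx, z, hz, hf⟩
        exact ⟨z, (runs_append _ _ _ _).2 ⟨x, hx, hz⟩, hf⟩
      · rintro ⟨z, hz, hf⟩
        obtain ⟨x, hx, hz'⟩ := (runs_append _ _ _ _).1 hz
        exact ⟨x, hx, z, hz', hf⟩
    rw [e]
    exact Iff.rfl
  · intro i G H
    exact (labels_encard (lft G 0) (rgt H 0)).trans (ha i _)

/-- The least total size of the `k`-ambiguous 1-limited automata in a Boolean combination with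
language `L`. -/
noncomputable def boolSize (k : ℕ) (strict : Prop) {A : Type} (L : Set (List A)) : ℕ :=
  sInf {s | ∃ (t : ℕ) (M : Fin t → LimAut A) (F : (Fin t → Prop) → Prop),
    (∀ i, Ambiguity strict (M i) k) ∧ boolComb strict M F = L ∧ ∑ i, (M i).size = s}

/-- The values `boolSize k L(M)`, for the 1-limited automata `M` of size at most `n`. -/
def costsBA (k : ℕ) (strict : Prop) (n : ℕ) : Set ℕ :=
  {s | ∃ (A : Type) (_ : Finite A) (M : LimAut A), M.size ≤ n ∧
    s = boolSize k strict (M.language strict)}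

/-- The cost of the conversion of 1-limited automata of size at most `n` into Boolean combinations
of `k`-ambiguous ones. -/
noncomputable def DBA (k : ℕ) (strict : Prop) (n : ℕ) : ℕ := sSup (costsBA k strict n)

section costs

variable {strict : Prop}

theorem mem_bool {A : Type} {k : ℕ} (M : LimAut A) (h : Ambiguity strict M k) :
    ∃ (t : ℕ) (N : Fin t → LimAut A) (F : (Fin t → Prop) → Prop),
      (∀ i, Ambiguity strict (N i) k) ∧ boolComb strict N F = M.language strict ∧
      ∑ i, (N i).size = M.size :=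
  ⟨1, fun _ => M, fun v => v 0, fun _ => h, rfl, by simp⟩

theorem bool_le_amb {A : Type} [Finite A] (M : LimAut A) {k : ℕ} (hk : 1 ≤ k) :
    boolSize k strict (M.language strict) ≤ ambSize k strict (M.language strict) := by
  obtain ⟨M', h1, h2, h3⟩ := exists_amb (strict := strict) M hk
  obtain ⟨t, N, F, h4, h5, h6⟩ := mem_bool M' h1
  exact Nat.sInf_le ⟨t, N, F, h4, h5.trans h2, h6.trans h3⟩

theorem bddBA {k : ℕ} (hk : 1 ≤ k) (n : ℕ) : BddAbove (costsBA k strict n) := by
  refine ⟨2 ^ ((n + 2) ^ 4), ?_⟩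
  rintro s ⟨A, hA, M, hM, rfl⟩
  exact (bool_le_amb M hk).trans ((amb_le_det M hk).trans (det_le_pow M n hM))

theorem BA_greatest {k : ℕ} (hk : 1 ≤ k) (n : ℕ) (hn : 4 ≤ n) :
    IsGreatest (costsBA k strict n) (DBA k strict n) := by
  have hne : (costsBA k strict n).Nonempty :=
    ⟨_, Empty, inferInstance, trivM, by rw [size_trivM]; exact hn, rfl⟩
  exact ⟨Nat.sSup_mem hne (bddBA hk n), fun s hs => le_csSup (bddBA hk n) hs⟩

theorem BA_le_A {k : ℕ} (hk : 1 ≤ k) (n : ℕ) (hn : 4 ≤ n) :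
    DBA k strict n ≤ DA k strict n := by
  obtain ⟨A, hA, M, hM, h1⟩ := (BA_greatest (strict := strict) hk n hn).1
  rw [h1]
  exact (bool_le_amb M hk).trans (le_csSup (bddA hk n) ⟨A, hA, M, hM, rfl⟩)

theorem sum_sq_le {t : ℕ} (a : Fin t → ℕ) : ∑ i, a i ^ 2 ≤ (∑ i, a i) ^ 2 := by
  rw [sq, Finset.sum_mul]
  apply Finset.sum_le_sum
  intro i hi
  rw [sq]
  exact Nat.mul_le_mul_left _ (Finset.single_le_sum (f := a) (fun _ _ => Nat.zero_le _) hi)

theorem BA_lower {k : ℕ} (hk : 1 ≤ k) (n : ℕ) (hn : 680000 ≤ n) :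
    2 ^ (n ^ 2 / 100000000000) ≤ k * DBA k strict n ^ 2 := by
  obtain ⟨m, hm, h1, h2, h5⟩ := exists_m n hn
  have hmem : boolSize k strict ((bwit m).language strict) ∈ costsBA k strict n :=
    ⟨BL Ltr, inferInstance, bwit m, (size_bwit m).trans h1, rfl⟩
  have h3 : boolSize k strict ((bwit m).language strict) ≤ DBA k strict n :=
    le_csSup (bddBA hk n) hmem
  have hne : {s | ∃ (t : ℕ) (M : Fin t → LimAut (BL Ltr)) (F : (Fin t → Prop) → Prop),
      (∀ i, Ambiguity strict (M i) k) ∧ boolComb strict M F = (bwit m).language strict ∧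
      ∑ i, (M i).size = s}.Nonempty := by
    obtain ⟨M', a1, a2, _⟩ := exists_amb (strict := strict) (bwit m) hk
    obtain ⟨t, N, F, h4, h5, h6⟩ := mem_bool M' a1
    exact ⟨_, t, N, F, h4, h5.trans a2, rfl⟩
  obtain ⟨t, M, F, h6, h7, h8⟩ := Nat.sInf_mem hne
  have h9 := bool_lower strict m t (fun _ => k) M F h6 h7
  have h10 : ∑ i, k * (Nat.card (M i).Q ^ 2 + Nat.card (M i).Q) ≤ k * DBA k strict n ^ 2 := by
    rw [← Finset.mul_sum]
    apply Nat.mul_le_mul_left
    refine le_trans ?_ (Nat.pow_le_pow_left h3 2)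
    have h8' : ∑ i, (M i).size = boolSize k strict ((bwit m).language strict) := h8
    rw [← h8']
    refine le_trans (Finset.sum_le_sum fun i _ => ?_) (sum_sq_le _)
    have h11 : Nat.card (M i).Q + 3 ≤ (M i).size := by
      unfold LimAut.size
      omega
    refine le_trans ?_ (Nat.pow_le_pow_left h11 2)
    nlinarith [Nat.zero_le (Nat.card (M i).Q)]
  refine le_trans ?_ (h9.trans h10)
  apply Nat.pow_le_pow_right (by norm_num)
  exact Nat.div_le_of_le_mul (by rw [mul_comm]; exact h5)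

theorem BA_superexp (c : ℕ) :
    ∀ᶠ n in atTop, 2 ^ (c * n) < DBA (2 ^ (c * n)) strict n := by
  filter_upwards [eventually_ge_atTop 680000,
    eventually_ge_atTop (100000000000 * (3 * c + 1))] with n hn0 hn
  have hk : 1 ≤ 2 ^ (c * n) := Nat.one_le_two_pow
  have h1 := BA_lower (strict := strict) hk n hn0
  by_contra hcon
  have h2 : DBA (2 ^ (c * n)) strict n ≤ 2 ^ (c * n) := not_lt.1 hcon
  have h3 : 2 ^ (n ^ 2 / 100000000000) ≤ 2 ^ (c * n * 3) := by
    refine h1.trans ?_
    calc 2 ^ (c * n) * DBA (2 ^ (c * n)) strict n ^ 2 ≤ 2 ^ (c * n) * (2 ^ (c * n)) ^ 2 :=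
          Nat.mul_le_mul_left _ (Nat.pow_le_pow_left h2 2)
      _ = (2 ^ (c * n)) ^ 3 := by ring
      _ = 2 ^ (c * n * 3) := by rw [← pow_mul]
  have h4 : n ^ 2 / 100000000000 ≤ c * n * 3 := (Nat.pow_le_pow_iff_right (by norm_num)).1 h3
  have h5 : (3 * c + 1) * n ≤ n ^ 2 / 100000000000 := by
    rw [Nat.le_div_iff_mul_le (by norm_num), sq]
    calc (3 * c + 1) * n * 100000000000 = (100000000000 * (3 * c + 1)) * n := by ring
      _ ≤ n * n := Nat.mul_le_mul_right _ hn
  have h6 : (3 * c + 1) * n = c * n * 3 + n := by ring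
  have h7 : c * n * 3 + n ≤ c * n * 3 := by
    rw [← h6]
    exact h5.trans h4
  clear hn h5 h4 h3 h1
  omega

end costs

end Pool.Agent.D0H57.LC
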