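import Mathlib
import Pool.Agent.H630R2.LA.Det

set_option autoImplicit false

/-!
Inductive counting on annotated tapes: the program and its soundness.
-/

namespace Pool.Agent.D0H57.LC

open Pool.Agent.H630R2.LA

open Classical in
/-- The number of `k < m` with `P k`. -/
noncomputable def cn (P : ℕ → Prop) (m : ℕ) : ℕ := ((Finset.range m).filter P).card

theorem cn_zero (P : ℕ → Prop) : cn P 0 = 0 := by simp [cn]

theorem cn_pos {P : ℕ → Prop} {m : ℕ} (h : P m) : cn P (m + 1) = cn P m + 1 := by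
  classical
  unfold cn
  rw [Finset.range_add_one, Finset.filter_insert, if_pos h, Finset.card_insert_of_notMem]
  simp

theorem cn_neg {P : ℕ → Prop} {m : ℕ} (h : ¬ P m) : cn P (m + 1) = cn P m := by
  classical
  unfold cn
  rw [Finset.range_add_one, Finset.filter_insert, if_neg h]

theorem cn_le (P : ℕ → Prop) (m : ℕ) : cn P m ≤ m := by
  classical
  unfold cn
  exact (Finset.card_filter_le _ _).trans (by simp)

theorem cn_step_le (P : ℕ → Prop) (m : ℕ) : cn P m ≤ cn P (m + 1) := by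
  by_cases h : P m
  · rw [cn_pos h]
    omega
  · rw [cn_neg h]

theorem cn_full {P Q : ℕ → Prop} {m : ℕ} (h1 : ∀ k, P k → Q k) (h2 : cn Q m ≤ cn P m) :
    ∀ k, k < m → Q k → P k := by
  classical
  intro k hk hQ
  unfold cn at h2
  have h3 : (Finset.range m).filter P ⊆ (Finset.range m).filter Q := by
    intro x hx
    rw [Finset.mem_filter] at hx ⊢
    exact ⟨hx.1, h1 x hx.2⟩
  have h4 := Finset.eq_of_subset_of_card_le h3 h2
  have h5 : k ∈ (Finset.range m).filter Q := by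
    rw [Finset.mem_filter, Finset.mem_range]
    exact ⟨hk, hQ⟩
  rw [← h4, Finset.mem_filter] at h5
  exact h5.2

theorem cn_congr {P Q : ℕ → Prop} {m : ℕ} (h : ∀ k, P k ↔ Q k) : cn P m = cn Q m := by
  have : P = Q := funext fun k => propext (h k)
  rw [this]

/-- Program states. -/
structure NS where
  tag : ℕ
  f : Bool
  ck : Bool
  i : ℕ
  c : ℕ
  v : ℕ
  e : ℕ
  u : ℕ
  d : ℕ
  s : ℕ
  x : ℕ

section prog

variable {A : Type} (N : ℕ) (ini : ℕ → Prop) (rel : A → ℕ → ℕ → Prop) (facc : ℕ → Prop)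

/-- The edges at a tape symbol; the right end-marker leads from the final states everywhere. -/
def erel (σ : Sym (WS A)) (p q : ℕ) : Prop := match σ with
  | .sym (.mark a _) => rel a p q
  | .rm => facc p
  | _ => True

/-- The address of the cell that is read. -/
def ad (n : NS) : ℕ := match n.tag with
  | 1 => if n.f = true then 1 else n.x + 1
  | 2 => if n.s ≤ n.i then n.s + 1 else 1
  | 3 => if n.f = true then 1 else n.x + 1
  | 4 => if n.s < n.i then n.s + 1 else 1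
  | 5 => n.i + 1
  | 6 => N + n.v + 1
  | 7 => N + n.v + 1
  | 8 => n.i + 1
  | 9 => N
  | _ => 1

/-- The steps of the program. -/
inductive T : NS → Sym (WS A) → NS → Prop
  | mem (f ck : Bool) (i c v e u d s x x' : ℕ) (σ : Sym (WS A)) (hv : v < N) (hx : x' < N) :
      T ⟨0, f, ck, i, c, v, e, u, d, s, x⟩ σ ⟨1, f, ck, i, c, v, e, u, d, 0, x'⟩
  | skip (f ck : Bool) (i c v e u d s x : ℕ) (σ : Sym (WS A)) (hu : u < N) :
      T ⟨0, f, ck, i, c, v, e, u, d, s, x⟩ σ ⟨0, f, ck, i, c, v, e, u + 1, d, 0, 0⟩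
  | take (f ck : Bool) (i c v e u d s x x' : ℕ) (σ : Sym (WS A)) (hu : u < N) (hx : x' < N) :
      T ⟨0, f, ck, i, c, v, e, u, d, s, x⟩ σ ⟨3, f, ck, i, c, v, e, u, d, 0, x'⟩
  | non0 (f : Bool) (i c v e s x : ℕ) (σ : Sym (WS A)) (hv : v < N) :
      T ⟨0, f, false, i, c, v, e, N, c, s, x⟩ σ ⟨0, f, false, i, c, v + 1, e, 0, 0, 0, 0⟩
  | non1 (f : Bool) (i c v e s x : ℕ) (σ : Sym (WS A)) (hv : v < N) :
      T ⟨0, f, true, i, c, v, e, N, c, s, x⟩ σ ⟨7, f, true, i, c, v, e, N, c, 0, 0⟩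
  | fin (f ck : Bool) (i c e s x : ℕ) (σ : Sym (WS A)) :
      T ⟨0, f, ck, i, c, 0, e, N, c, s, x⟩ σ ⟨8, f, ck, i, c, 0, e, N, c, 0, 0⟩
  | lay (f ck : Bool) (i c e u d s x : ℕ) (σ : Sym (WS A)) (h : ck = true → i + 2 = N) :
      T ⟨0, f, false, i, c, N, e, u, d, s, x⟩ σ ⟨0, f, ck, i + 1, e, 0, 0, 0, 0, 0, 0⟩
  | wr (f : Bool) (i c e u d s x : ℕ) (σ : Sym (WS A)) :
      T ⟨0, f, true, i, c, N, e, u, d, s, x⟩ σ ⟨9, f, true, i, c, N, e, u, d, 0, 0⟩
  | pvf (ck : Bool) (i c v e u d s x : ℕ) (σ : Sym (WS A)) (h : ini x) :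
      T ⟨1, true, ck, i, c, v, e, u, d, s, x⟩ σ ⟨2, true, ck, i, c, v, e, u, d, 0, x⟩
  | pvb (ck : Bool) (i c v e u d s x : ℕ) (a : A) :
      T ⟨1, false, ck, i, c, v, e, u, d, s, x⟩ (.sym (.mark a true))
        ⟨2, false, ck, i, c, v, e, u, d, 0, x⟩
  | pvs (f ck : Bool) (i c v e u d s x x' : ℕ) (a : A) (b : Bool) (hs : s ≤ i)
      (hr : rel a x x') (hx : x' < N) :
      T ⟨2, f, ck, i, c, v, e, u, d, s, x⟩ (.sym (.mark a b))
        ⟨2, f, ck, i, c, v, e, u, d, s + 1, x'⟩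
  | pve0 (f : Bool) (i c v e u d : ℕ) (σ : Sym (WS A)) :
      T ⟨2, f, false, i, c, v, e, u, d, i + 1, v⟩ σ ⟨0, f, false, i, c, v + 1, e + 1, 0, 0, 0, 0⟩
  | pve1 (f : Bool) (i c v e u d : ℕ) (σ : Sym (WS A)) :
      T ⟨2, f, true, i, c, v, e, u, d, i + 1, v⟩ σ ⟨6, f, true, i, c, v, e, u, d, 0, 0⟩
  | puf (ck : Bool) (i c v e u d s x : ℕ) (σ : Sym (WS A)) (h : ini x) :
      T ⟨3, true, ck, i, c, v, e, u, d, s, x⟩ σ ⟨4, true, ck, i, c, v, e, u, d, 0, x⟩
  | pub (ck : Bool) (i c v e u d s x : ℕ) (a : A) :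
      T ⟨3, false, ck, i, c, v, e, u, d, s, x⟩ (.sym (.mark a true))
        ⟨4, false, ck, i, c, v, e, u, d, 0, x⟩
  | pus (f ck : Bool) (i c v e u d s x x' : ℕ) (a : A) (b : Bool) (hs : s < i)
      (hr : rel a x x') (hx : x' < N) :
      T ⟨4, f, ck, i, c, v, e, u, d, s, x⟩ (.sym (.mark a b))
        ⟨4, f, ck, i, c, v, e, u, d, s + 1, x'⟩
  | pue (f ck : Bool) (i c v e u d : ℕ) (σ : Sym (WS A)) :
      T ⟨4, f, ck, i, c, v, e, u, d, i, u⟩ σ ⟨5, f, ck, i, c, v, e, u, d, 0, 0⟩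
  | eg (f ck : Bool) (i c v e u d s x : ℕ) (σ : Sym (WS A)) (h : ¬ erel rel facc σ u v) :
      T ⟨5, f, ck, i, c, v, e, u, d, s, x⟩ σ ⟨0, f, ck, i, c, v, e, u + 1, d + 1, 0, 0⟩
  | bq1 (f : Bool) (i c v e u d s x : ℕ) (a : A) :
      T ⟨6, f, true, i, c, v, e, u, d, s, x⟩ (.sym (.mark a true))
        ⟨0, f, true, i, c, v + 1, e + 1, 0, 0, 0, 0⟩
  | bq0 (f : Bool) (i c v e u d s x : ℕ) (a : A) :
      T ⟨7, f, true, i, c, v, e, u, d, s, x⟩ (.sym (.mark a false))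
        ⟨0, f, true, i, c, v + 1, e, 0, 0, 0, 0⟩

/-- The states reached after `t` letters. -/
def Rh (w : List A) : ℕ → ℕ → Prop
  | 0, p => ini p
  | t + 1, q => q < N ∧ ∃ p, Rh w t p ∧ ∃ a, w[t]? = some a ∧ rel a p q

/-- The annotated tape. -/
structure Ant (w : List A) (τ : ℕ → Sym (WS A)) : Prop where
  zero : τ 0 = .lm
  mark : ∀ t, t < w.length → ∃ a b, w[t]? = some a ∧ τ (t + 1) = .sym (.mark a b)
  last : τ (w.length + 1) = .rm

/-- The bound for the number of states found. -/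
def DB (w : List A) (τ : ℕ → Sym (WS A)) (t v u d : ℕ) : Prop :=
  d ≤ cn (fun k => Rh N ini rel w t k ∧ ¬ erel rel facc (τ (t + 1)) k v) u

/-- The part of the invariant that does not depend on the tag. -/
structure Com (w : List A) (τ : ℕ → Sym (WS A)) (j : ℕ) (n : NS) : Prop where
  first : n.f = true → j = 0
  bits : n.f = false → ∀ x, x < N → ∀ a b, τ (j * N + x + 1) = .sym (.mark a b) →
    (b = true ↔ Rh N ini rel w (j * N) x)
  cnt : n.c = cn (Rh N ini rel w (j * N + n.i)) N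
  cnt' : n.e = cn (Rh N ini rel w (j * N + n.i + 1)) n.v
  vle : n.v ≤ N
  chk : n.ck = true → n.i + 1 = N ∧ ∀ k, k < n.v → ∀ a b,
    τ (j * N + N + k + 1) = .sym (.mark a b) → (b = true ↔ Rh N ini rel w (j * N + N) k)

/-- The part of the invariant that depends on the tag. -/
def Spec (w : List A) (τ : ℕ → Sym (WS A)) (j : ℕ) (n : NS) : Prop := match n.tag with
  | 0 => DB N ini rel facc w τ (j * N + n.i) n.v n.u n.d
  | 1 => n.v < N ∧ n.x < N
  | 2 => n.v < N ∧ Rh N ini rel w (j * N + n.s) n.x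
  | 3 => DB N ini rel facc w τ (j * N + n.i) n.v n.u n.d ∧ n.x < N
  | 4 => DB N ini rel facc w τ (j * N + n.i) n.v n.u n.d ∧ Rh N ini rel w (j * N + n.s) n.x
  | 5 => DB N ini rel facc w τ (j * N + n.i) n.v n.u n.d ∧ Rh N ini rel w (j * N + n.i) n.u
  | 6 => n.v < N ∧ Rh N ini rel w (j * N + n.i + 1) n.v
  | 7 => n.v < N ∧ ¬ Rh N ini rel w (j * N + n.i + 1) n.v
  | 8 => ∀ k, Rh N ini rel w (j * N + n.i) k → ¬ erel rel facc (τ (j * N + n.i + 1)) k 0
  | 9 => n.v = N ∧ n.ck = true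
  | _ => False

/-- The invariant. -/
def Inv (w : List A) (τ : ℕ → Sym (WS A)) (j : ℕ) (n : NS) : Prop :=
  Com N ini rel w τ j n ∧ Spec N ini rel facc w τ j n

variable {N ini rel facc}

theorem Rh_lt (hini : ∀ p, ini p → p < N) {w : List A} {t p : ℕ} (h : Rh N ini rel w t p) :
    p < N := by
  cases t with
  | zero => exact hini p h
  | succ t => exact h.1

theorem Ant.letter {w : List A} {τ : ℕ → Sym (WS A)} (hA : Ant w τ) {t : ℕ} {a : A} {b : Bool}
    (ht : t + 1 ≤ w.length + 1) (h : τ (t + 1) = .sym (.mark a b)) : w[t]? = some a := by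
  rcases Nat.lt_or_ge t w.length with h1 | h1
  · obtain ⟨a', b', h2, h3⟩ := hA.mark t h1
    rw [h3] at h
    cases h
    exact h2
  · have h2 : t = w.length := by omega
    rw [h2, hA.last] at h
    cases h

/-- All states of layer `t` without edge to `v`. -/
theorem none_edge (hini : ∀ p, ini p → p < N) {w : List A} {τ : ℕ → Sym (WS A)} {t v c : ℕ}
    (hc : c = cn (Rh N ini rel w t) N) (hd : DB N ini rel facc w τ t v N c) :
    ∀ k, Rh N ini rel w t k → ¬ erel rel facc (τ (t + 1)) k v := by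
  intro k hk
  have h1 : cn (Rh N ini rel w t) N ≤
      cn (fun k => Rh N ini rel w t k ∧ ¬ erel rel facc (τ (t + 1)) k v) N := by
    rw [← hc]
    exact hd
  exact (cn_full (fun k h => h.1) h1 k (Rh_lt hini hk) hk).2

theorem not_next {w : List A} {τ : ℕ → Sym (WS A)} (hA : Ant w τ) {t v : ℕ}
    (h : ∀ k, Rh N ini rel w t k → ¬ erel rel facc (τ (t + 1)) k v) :
    ¬ Rh N ini rel w (t + 1) v := by
  rintro ⟨_, p, hp, a, ha, hr⟩
  have ht : t < w.length := by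
    by_contra hcon
    rw [List.getElem?_eq_none (by omega)] at ha
    cases ha
  obtain ⟨a', b', h2, h3⟩ := hA.mark t ht
  rw [ha] at h2
  cases h2
  apply h p hp
  rw [h3]
  exact hr

theorem T.sound (hini : ∀ p, ini p → p < N) {w : List A} {τ : ℕ → Sym (WS A)} (hA : Ant w τ)
    {j : ℕ} {n n' : NS} {σ : Sym (WS A)} (hσ : τ (j * N + ad N n) = σ)
    (hpos : j * N + ad N n ≤ w.length + 1) (h : T N ini rel facc n σ n')
    (hI : Inv N ini rel facc w τ j n) : Inv N ini rel facc w τ j n' := by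
  obtain ⟨hC, hS⟩ := hI
  obtain ⟨h1, h2, h3, h4, h5, h6⟩ := hC
  cases h with
  | mem f ck i c v e u d s x x' σ hv hx => exact ⟨⟨h1, h2, h3, h4, h5, h6⟩, hv, hx⟩
  | skip f ck i c v e u d s x σ hu =>
    refine ⟨⟨h1, h2, h3, h4, h5, h6⟩, ?_⟩
    exact le_trans hS (cn_step_le _ _)
  | take f ck i c v e u d s x x' σ hu hx => exact ⟨⟨h1, h2, h3, h4, h5, h6⟩, hS, hx⟩
  | non0 f i c v e s x σ hv =>
    have h7 := not_next hA (none_edge hini h3 hS)
    refine ⟨⟨h1, h2, h3, ?_, hv, fun h => absurd h (by simp)⟩, Nat.zero_le _⟩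
    show e = cn _ (v + 1)
    rw [cn_neg h7]
    exact h4
  | non1 f i c v e s x σ hv =>
    have h7 := not_next hA (none_edge hini h3 hS)
    exact ⟨⟨h1, h2, h3, h4, h5, h6⟩, hv, h7⟩
  | fin f ck i c e s x σ =>
    exact ⟨⟨h1, h2, h3, h4, h5, h6⟩, none_edge hini h3 hS⟩
  | lay f ck i c e u d s x σ h =>
    refine ⟨⟨h1, h2, h4, ?_, Nat.zero_le _, fun h' => ⟨by have := h h'; show i + 1 + 1 = N; omega,
      fun k hk => absurd hk (Nat.not_lt_zero k)⟩⟩, Nat.zero_le _⟩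
    exact (cn_zero _).symm
  | wr f i c e u d s x σ => exact ⟨⟨h1, h2, h3, h4, h5, h6⟩, rfl, rfl⟩
  | pvf ck i c v e u d s x σ h =>
    refine ⟨⟨h1, h2, h3, h4, h5, h6⟩, hS.1, ?_⟩
    have hj : j = 0 := h1 rfl
    subst hj
    show Rh N ini rel w (0 * N + 0) x
    rw [Nat.zero_mul]
    exact h
  | pvb ck i c v e u d s x a =>
    refine ⟨⟨h1, h2, h3, h4, h5, h6⟩, hS.1, ?_⟩
    exact (h2 rfl x hS.2 a true hσ).1 rfl
  | pvs f ck i c v e u d s x x' a b hs hr hx =>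
    refine ⟨⟨h1, h2, h3, h4, h5, h6⟩, hS.1, hx, x, hS.2, a, ?_, hr⟩
    have e1 : ad N ⟨2, f, ck, i, c, v, e, u, d, s, x⟩ = s + 1 := by
      simp only [ad, hs, if_true]
    rw [e1] at hσ hpos
    exact hA.letter hpos hσ
  | pve0 f i c v e u d σ =>
    refine ⟨⟨h1, h2, h3, ?_, hS.1, fun h => absurd h (by simp)⟩, Nat.zero_le _⟩
    have h7 : Rh N ini rel w (j * N + i + 1) v := hS.2
    show e + 1 = cn (Rh N ini rel w (j * N + i + 1)) (v + 1)
    rw [cn_pos h7]
    exact congrArg (· + 1) h4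
  | pve1 f i c v e u d σ => exact ⟨⟨h1, h2, h3, h4, h5, h6⟩, hS.1, hS.2⟩
  | puf ck i c v e u d s x σ h =>
    refine ⟨⟨h1, h2, h3, h4, h5, h6⟩, hS.1, ?_⟩
    have hj : j = 0 := h1 rfl
    subst hj
    show Rh N ini rel w (0 * N + 0) x
    rw [Nat.zero_mul]
    exact h
  | pub ck i c v e u d s x a =>
    refine ⟨⟨h1, h2, h3, h4, h5, h6⟩, hS.1, ?_⟩
    exact (h2 rfl x hS.2 a true hσ).1 rfl
  | pus f ck i c v e u d s x x' a b hs hr hx =>
    refine ⟨⟨h1, h2, h3, h4, h5, h6⟩, hS.1, hx, x, hS.2, a, ?_, hr⟩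
    have e1 : ad N ⟨4, f, ck, i, c, v, e, u, d, s, x⟩ = s + 1 := by
      simp only [ad, hs, if_true]
    rw [e1] at hσ hpos
    exact hA.letter hpos hσ
  | pue f ck i c v e u d σ => exact ⟨⟨h1, h2, h3, h4, h5, h6⟩, hS.1, hS.2⟩
  | eg f ck i c v e u d s x σ h =>
    refine ⟨⟨h1, h2, h3, h4, h5, h6⟩, ?_⟩
    show d + 1 ≤ cn _ (u + 1)
    rw [cn_pos ⟨hS.2, by rw [show τ (j * N + i + 1) = _ from hσ]; exact h⟩]
    exact Nat.succ_le_succ hS.1
  | bq1 f i c v e u d s x a =>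
    refine ⟨⟨h1, h2, h3, ?_, hS.1, fun _ => ⟨(h6 rfl).1, ?_⟩⟩, Nat.zero_le _⟩
    · show e + 1 = cn _ (v + 1)
      rw [cn_pos hS.2]
      exact congrArg (· + 1) h4
    · intro k hk a' b' hk'
      rcases Nat.lt_succ_iff_lt_or_eq.1 hk with h7 | h7
      · exact (h6 rfl).2 k h7 a' b' hk'
      · subst h7
        have e1 : j * N + (N + k + 1) = j * N + N + k + 1 := by omega
        have hσ' : τ (j * N + (N + k + 1)) = .sym (.mark a true) := hσ
        rw [e1, hk'] at hσ'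
        cases hσ'
        have e2 : j * N + N = j * N + i + 1 := by
          have := (h6 rfl).1
          simp only at this
          omega
        rw [e2]
        exact ⟨fun _ => hS.2, fun _ => rfl⟩
  | bq0 f i c v e u d s x a =>
    refine ⟨⟨h1, h2, h3, ?_, hS.1, fun _ => ⟨(h6 rfl).1, ?_⟩⟩, Nat.zero_le _⟩
    · show e = cn _ (v + 1)
      rw [cn_neg hS.2]
      exact h4
    · intro k hk a' b' hk'
      rcases Nat.lt_succ_iff_lt_or_eq.1 hk with h7 | h7
      · exact (h6 rfl).2 k h7 a' b' hk'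
      · subst h7
        have e1 : j * N + (N + k + 1) = j * N + N + k + 1 := by omega
        have hσ' : τ (j * N + (N + k + 1)) = .sym (.mark a false) := hσ
        rw [e1, hk'] at hσ'
        cases hσ'
        have e2 : j * N + N = j * N + i + 1 := by
          have := (h6 rfl).1
          simp only at this
          omega
        rw [e2]
        exact ⟨fun h => absurd h (by simp), fun h => absurd h hS.2⟩

end prog

end Pool.Agent.D0H57.LC
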