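import Mathlib
import Pool.Agent.D0H57.LC.IS

set_option autoImplicit false

/-!
Inductive counting by a 1-limited automaton: the machine and its soundness.
-/

namespace Pool.Agent.D0H57.LC

open Relation
open Pool.Agent.H630R2.LA

/-- Bounded program states. -/
def Bd (K : ℕ) (n : NS) : Prop :=
  n.tag < 10 ∧ n.i < K ∧ n.c < K ∧ n.v < K ∧ n.e < K ∧ n.u < K ∧ n.d < K ∧ n.s < K ∧ n.x < K

/-- Program states with the position of the head. -/
abbrev PSt (K : ℕ) : Type := {n : NS // Bd K n} × Fin K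

theorem NS.ext' {n m : NS} (h1 : n.tag = m.tag) (h2 : n.f = m.f) (h3 : n.ck = m.ck)
    (h4 : n.i = m.i) (h5 : n.c = m.c) (h6 : n.v = m.v) (h7 : n.e = m.e) (h8 : n.u = m.u)
    (h9 : n.d = m.d) (h10 : n.s = m.s) (h11 : n.x = m.x) : n = m := by
  cases n
  cases m
  simp_all

/-- The code of a program state. -/
def code (K : ℕ) (p : PSt K) : (Fin 10 × Bool × Bool) × (Fin 9 → Fin K) :=
  ((⟨p.1.1.tag, p.1.2.1⟩, p.1.1.f, p.1.1.ck),
    ![⟨p.1.1.i, p.1.2.2.1⟩, ⟨p.1.1.c, p.1.2.2.2.1⟩, ⟨p.1.1.v, p.1.2.2.2.2.1⟩,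
      ⟨p.1.1.e, p.1.2.2.2.2.2.1⟩, ⟨p.1.1.u, p.1.2.2.2.2.2.2.1⟩, ⟨p.1.1.d, p.1.2.2.2.2.2.2.2.1⟩,
      ⟨p.1.1.s, p.1.2.2.2.2.2.2.2.2.1⟩, ⟨p.1.1.x, p.1.2.2.2.2.2.2.2.2.2⟩, p.2])

theorem code_inj (K : ℕ) : Function.Injective (code K) := by
  rintro ⟨⟨n, hn⟩, k⟩ ⟨⟨m, hm⟩, l⟩ h
  have h1 := congrArg Prod.fst h
  have h2 := congrArg Prod.snd h
  simp only [code, Prod.mk.injEq, Fin.mk.injEq] at h1
  have g0 := congrFun h2 0
  have g1 := congrFun h2 1
  have g2 := congrFun h2 2
  have g3 := congrFun h2 3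
  have g4 := congrFun h2 4
  have g5 := congrFun h2 5
  have g6 := congrFun h2 6
  have g7 := congrFun h2 7
  have g8 := congrFun h2 8
  simp only [code] at g0 g1 g2 g3 g4 g5 g6 g7 g8
  have e : n = m := NS.ext' h1.1 h1.2.1 h1.2.2 (congrArg Fin.val g0) (congrArg Fin.val g1)
    (congrArg Fin.val g2) (congrArg Fin.val g3) (congrArg Fin.val g4) (congrArg Fin.val g5)
    (congrArg Fin.val g6) (congrArg Fin.val g7)
  subst e
  have e' : k = l := g8
  subst e'
  rfl

instance finite_PSt (K : ℕ) : Finite (PSt K) := Finite.of_injective _ (code_inj K)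

theorem card_PSt (K : ℕ) : Nat.card (PSt K) ≤ 40 * K ^ 9 := by
  refine (Nat.card_le_card_of_injective _ (code_inj K)).trans (le_of_eq ?_)
  simp [Nat.card_prod, Nat.card_fun]

section machine

variable {A : Type} (N : ℕ) (ini : ℕ → Prop) (rel : A → ℕ → ℕ → Prop) (facc : ℕ → Prop)

/-- The first program state. -/
noncomputable def sta (ck : Bool) : NS := ⟨0, true, ck, 0, cn ini N, 0, 0, 0, 0, 0, 0⟩

/-- The program state at the beginning of a block. -/
def nxt (ck : Bool) (e : ℕ) : NS := ⟨0, false, ck, 0, e, 0, 0, 0, 0, 0, 0⟩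

/-- The moves of the machine. -/
inductive Dl : Fin 3 ⊕ PSt (2 * N + 2) → Sym (WS A) →
    (Fin 3 ⊕ PSt (2 * N + 2)) × WS A × Bool → Prop
  | sw (a : A) (b : Bool) : Dl (.inl 0) (.sym (.raw a)) (.inl 0, .mark a b, true)
  | sr : Dl (.inl 0) .rm (.inl 1, .dum, false)
  | rl (a : A) (b : Bool) : Dl (.inl 1) (.sym (.mark a b)) (.inl 1, .mark a b, false)
  | rs (p : PSt (2 * N + 2)) (ck : Bool) (hp : p.1.1 = sta N ini ck) (hk : p.2.val = 1)
      (hc : ck = true → N = 1) : Dl (.inl 1) .lm (.inr p, .dum, true)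
  | tr (p q : PSt (2 * N + 2)) (σ : Sym (WS A)) (h : p.2.val < ad N p.1.1) (h1 : q.1 = p.1)
      (h2 : q.2.val = p.2.val + 1) : Dl (.inr p) σ (.inr q, keep σ, true)
  | tl (p q : PSt (2 * N + 2)) (σ : Sym (WS A)) (h : ad N p.1.1 < p.2.val) (h1 : q.1 = p.1)
      (h2 : q.2.val + 1 = p.2.val) : Dl (.inr p) σ (.inr q, keep σ, false)
  | st (p q : PSt (2 * N + 2)) (σ : Sym (WS A)) (h : p.2.val = ad N p.1.1)
      (h1 : T N ini rel facc p.1.1 σ q.1.1) (h2 : q.2.val + 1 = p.2.val) :
      Dl (.inr p) σ (.inr q, keep σ, false)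
  | wp (p q : PSt (2 * N + 2)) (σ : Sym (WS A)) (ck : Bool) (h : p.2.val = N)
      (h1 : p.1.1.tag = 9) (h2 : q.1.1 = nxt ck p.1.1.e) (h3 : q.2.val = 1)
      (hc : ck = true → N = 1) : Dl (.inr p) σ (.inr q, keep σ, true)
  | ac (p : PSt (2 * N + 2)) (h : p.2.val = ad N p.1.1) (h1 : p.1.1.tag = 8) :
      Dl (.inr p) .rm (.inl 2, .dum, true)

variable [Finite A]

/-- The machine for the complement. -/
def compN : LimAut A where
  Q := Fin 3 ⊕ PSt (2 * N + 2)
  W := WS A
  finQ := inferInstance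
  finW := finite_WS A
  inp := WS.raw
  inp_inj := by
    intro a b hab
    cases hab
    rfl
  δ := fun q σ => {x | Dl N ini rel facc q σ x}
  q0 := .inl 0
  F := {.inl 2}

variable {N ini rel facc} {strict : Prop}

theorem start_inv {w : List A} {τ : ℕ → Sym (WS A)} {ck : Bool} (hc : ck = true → N = 1) :
    Inv N ini rel facc w τ 0 (sta N ini ck) := by
  refine ⟨⟨fun _ => rfl, fun h => absurd h (by simp [sta]), ?_, ?_, Nat.zero_le _,
    fun h => ⟨(hc h).symm, fun k hk => absurd hk (Nat.not_lt_zero k)⟩⟩, Nat.zero_le _⟩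
  · show cn ini N = cn (Rh N ini rel w (0 * N + 0)) N
    rw [Nat.zero_mul]
    rfl
  · exact (cn_zero _).symm

theorem wrap_inv {w : List A} {τ : ℕ → Sym (WS A)} {j : ℕ} {n : NS} {ck : Bool}
    (hI : Inv N ini rel facc w τ j n) (ht : n.tag = 9) (hc : ck = true → N = 1) :
    Inv N ini rel facc w τ (j + 1) (nxt ck n.e) := by
  obtain ⟨tag, f, ck', i, c, v, e, u, d, s, x⟩ := n
  simp only at ht
  subst ht
  obtain ⟨⟨h1, h2, h3, h4, h5, h6⟩, h7, h8⟩ := hI
  simp only at h1 h2 h3 h4 h5 h6 h7 h8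
  subst h7
  obtain ⟨h9, h10⟩ := h6 h8
  have e1 : (j + 1) * v = j * v + v := by ring
  have e2 : j * v + v = j * v + i + 1 := by omega
  refine ⟨⟨fun h => absurd h (by simp [nxt]), fun _ y hy a b hab => ?_, ?_, ?_, Nat.zero_le _,
    fun h => ⟨(hc h).symm, fun k hk => absurd hk (Nat.not_lt_zero k)⟩⟩, Nat.zero_le _⟩
  · rw [e1] at hab ⊢
    exact h10 y hy a b hab
  · show e = cn (Rh v ini rel w ((j + 1) * v + 0)) v
    rw [Nat.add_zero, e1, e2]
    exact h4
  · exact (cn_zero _).symm

theorem frozen_tape {w : List A} {c c' : Cfg (compN N ini rel facc : LimAut A)}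
    (h : Step strict w.length c c') (h0 : c.tape 0 = .lm)
    (hs : ∀ i, 1 ≤ i → i ≤ w.length + 1 → i ∈ c.seen) :
    c'.tape = c.tape ∧ ∀ i, i ∈ c.seen → i ∈ c'.seen := by
  obtain ⟨hle, q, b, d, _, _, _, ht1, ht2, hsn, _, _⟩ := h
  constructor
  · by_cases hmem : c.pos ∈ c.seen
    · exact ht1 hmem
    · have hp0 : c.pos = 0 := by
        by_contra hne
        exact hmem (hs c.pos (by omega) hle)
      rw [ht2 hmem, hp0, h0]
      funext i
      by_cases hi : i = 0
      · subst hi
        simp [Sym.rewrite, h0]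
      · simp [Function.update, hi]
  · intro i hi
    rw [hsn]
    exact Set.mem_insert_of_mem _ hi

/-- The invariant of the configurations. -/
def CInv (w : List A) (c : Cfg (compN N ini rel facc : LimAut A)) : Prop :=
  (∃ t, t ≤ w.length ∧ c.state = .inl 0 ∧ c.pos = t + 1 ∧
    (∀ i, 1 ≤ i → (i ∈ c.seen ↔ i ≤ t)) ∧ c.tape 0 = .lm ∧
    (∀ k, k < t → ∃ a b, w[k]? = some a ∧ c.tape (k + 1) = .sym (.mark a b)) ∧
    (∀ i, t < i → c.tape i = initTape (compN N ini rel facc : LimAut A) w i)) ∨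
  (Ant w c.tape ∧ (∀ i, 1 ≤ i → i ≤ w.length + 1 → i ∈ c.seen) ∧
    (c.state = .inl 1 ∨
      (∃ (p : PSt (2 * N + 2)) (j : ℕ), c.state = .inr p ∧ c.pos = j * N + p.2.val ∧
        Inv N ini rel facc w c.tape j p.1.1) ∨
      (c.state = .inl 2 ∧ ∀ k, Rh N ini rel w w.length k → ¬ facc k)))

theorem Ant.pos_rm {w : List A} {τ : ℕ → Sym (WS A)} (hA : Ant w τ) {p : ℕ}
    (hp : p ≤ w.length + 1) (h : τ p = .rm) : p = w.length + 1 := by
  rcases Nat.eq_zero_or_pos p with h0 | h0
  · rw [h0, hA.zero] at h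
    cases h
  · by_contra hne
    obtain ⟨a, b, h2, h3⟩ := hA.mark (p - 1) (by omega)
    have e : p - 1 + 1 = p := by omega
    rw [e, h] at h3
    cases h3

theorem Ant.pos_lm {w : List A} {τ : ℕ → Sym (WS A)} (hA : Ant w τ) {p : ℕ}
    (hp : p ≤ w.length + 1) (h : τ p = .lm) : p = 0 := by
  by_contra h0
  by_cases hne : p = w.length + 1
  · rw [hne, hA.last] at h
    cases h
  · obtain ⟨a, b, h2, h3⟩ := hA.mark (p - 1) (by omega)
    have e : p - 1 + 1 = p := by omega
    rw [e, h] at h3
    cases h3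

theorem CInv.step (hini : ∀ p, ini p → p < N) {w : List A}
    {c c' : Cfg (compN N ini rel facc : LimAut A)} (h : Step strict w.length c c')
    (hI : CInv w c) : CInv w c' := by
  rcases hI with ⟨t, ht, hst, hpos, hseen, h0, hmark, hraw⟩ | ⟨hA, hs, hph⟩
  · obtain ⟨hle, q, b, d, hδ, _, hst', ht1, ht2, hsn, hr, hl⟩ := h
    have hnot : c.pos ∉ c.seen := by
      intro hm
      have := (hseen c.pos (by omega)).1 hm
      omega
    have htape := ht2 hnot
    have hcell := hraw (t + 1) (by omega)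
    rw [hst, hpos, hcell] at hδ
    have hδ' : Dl N ini rel facc (.inl 0) (initTape (compN N ini rel facc : LimAut A) w (t + 1))
      (q, b, d) := hδ
    have hagree : ∀ i, i ≤ t → c'.tape i = c.tape i := by
      intro i hi
      rw [htape, Function.update_of_ne (by omega)]
    rcases Nat.lt_or_ge t w.length with h1 | h1
    · have hwt : w[t]? = some w[t] := List.getElem?_eq_getElem h1
      have hc2 : initTape (compN N ini rel facc : LimAut A) w (t + 1) = .sym (.raw w[t]) := by
        simp only [initTape, hwt]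
        rfl
      rw [hc2] at hδ' hcell
      cases hδ' with
      | sw a b =>
        left
        refine ⟨t + 1, h1, hst', ?_, ?_, ?_, ?_, ?_⟩
        · rw [hr rfl, hpos]
        · intro i hi
          rw [hsn, Set.mem_insert_iff, hseen i hi, hpos]
          omega
        · rw [hagree 0 (by omega)]
          exact h0
        · intro k hk
          rcases Nat.lt_or_ge k t with h2 | h2
          · obtain ⟨a', b', h3, h4⟩ := hmark k h2
            exact ⟨a', b', h3, by rw [hagree (k + 1) (by omega)]; exact h4⟩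
          · have e : k = t := by omega
            subst e
            refine ⟨w[k], b, hwt, ?_⟩
            rw [htape, hpos, Function.update_self, hcell]
            rfl
        · intro i hi
          rw [htape, Function.update_of_ne (by omega)]
          exact hraw i (by omega)
    · have e : t = w.length := by omega
      subst e
      have hc2 : initTape (compN N ini rel facc : LimAut A) w (w.length + 1) = .rm := by
        simp only [initTape, List.getElem?_eq_none (le_refl w.length)]
      rw [hc2] at hδ' hcell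
      cases hδ' with
      | sr =>
        right
        have htp : c'.tape = c.tape := by
          rw [htape, hpos, hcell]
          funext i
          by_cases hi : i = w.length + 1
          · subst hi
            rw [Function.update_self, hcell]
            rfl
          · rw [Function.update_of_ne hi]
        refine ⟨?_, ?_, Or.inl hst'⟩
        · rw [htp]
          exact ⟨h0, fun k hk => hmark k hk, hcell⟩
        · intro i hi hi'
          rw [hsn, Set.mem_insert_iff, hseen i hi, hpos]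
          omega
  · right
    obtain ⟨htp, hsub⟩ := frozen_tape h hA.zero hs
    obtain ⟨hle, q, b, d, hδ, _, hst', ht1, ht2, hsn, hr, hl⟩ := h
    have hδ' : Dl N ini rel facc c.state (c.tape c.pos) (q, b, d) := hδ
    refine ⟨by rw [htp]; exact hA, fun i h1 h2 => hsub i (hs i h1 h2), ?_⟩
    rw [htp, hst']
    rcases hph with h1 | ⟨p, j, h1, h2, h3⟩ | ⟨h1, h2⟩
    · rw [h1] at hδ'
      generalize hσ : c.tape c.pos = σ at hδ'
      cases hδ' with
      | rl a b => exact Or.inl rfl
      | rs p ck hp hk hc =>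
        refine Or.inr (Or.inl ⟨p, 0, rfl, ?_, ?_⟩)
        · rw [hr rfl, hA.pos_lm hle hσ, hk, Nat.zero_mul]
        · rw [hp]
          exact start_inv hc
    · rw [h1] at hδ'
      generalize hσ : c.tape c.pos = σ at hδ'
      cases hδ' with
      | tr p q σ h4 h5 h6 =>
        refine Or.inr (Or.inl ⟨q, j, rfl, ?_, ?_⟩)
        · rw [hr rfl, h2, h6]
          omega
        · rw [h5]
          exact h3
      | tl p q σ h4 h5 h6 =>
        refine Or.inr (Or.inl ⟨q, j, rfl, ?_, ?_⟩)
        · have := hl rfl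
          omega
        · rw [h5]
          exact h3
      | st p q σ h4 h5 h6 =>
        refine Or.inr (Or.inl ⟨q, j, rfl, ?_, ?_⟩)
        · have := hl rfl
          omega
        · exact T.sound hini hA (by rw [← h4, ← h2]; exact hσ) (by rw [← h4, ← h2]; exact hle)
            h5 h3
      | wp p q σ ck h4 h5 h6 h7 hc =>
        refine Or.inr (Or.inl ⟨q, j + 1, rfl, ?_, ?_⟩)
        · have e : (j + 1) * N = j * N + N := by ring
          rw [hr rfl, h2, h4, h7, e]
        · rw [h6]
          exact wrap_inv h3 h5 hc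
      | ac p h4 h5 =>
        refine Or.inr (Or.inr ⟨rfl, ?_⟩)
        have hrm := hA.pos_rm hle hσ
        obtain ⟨_, hS⟩ := h3
        have had : ad N p.1.1 = p.1.1.i + 1 := by
          simp only [ad, h5]
        simp only [Spec, h5] at hS
        have e : j * N + p.1.1.i = w.length := by
          rw [h2, h4, had] at hrm
          omega
        rw [e] at hS
        intro k hk hf
        apply hS k hk
        rw [hA.last]
        exact hf
    · rw [h1] at hδ'
      generalize c.tape c.pos = σ at hδ'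
      cases hδ'

/-- Soundness. -/
theorem compN_sound (hini : ∀ p, ini p → p < N) (w : List A)
    (h : w ∈ (compN N ini rel facc : LimAut A).language strict) :
    ∀ k, Rh N ini rel w w.length k → ¬ facc k := by
  obtain ⟨c, hc, hp, hf⟩ := h
  have hI : CInv w c := by
    clear hp hf
    induction hc with
    | refl =>
      left
      refine ⟨0, Nat.zero_le _, rfl, rfl, ?_, rfl, fun k hk => absurd hk (Nat.not_lt_zero k),
        fun i _ => rfl⟩
      intro i hi
      simp [init]
      omega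
    | tail _ hs ih => exact ih.step hini hs
  have hf' : c.state = .inl 2 := hf
  rcases hI with ⟨t, ht, hst, _⟩ | ⟨_, _, h1 | ⟨p, j, h1, _⟩ | ⟨_, h2⟩⟩
  · rw [hst] at hf'
    cases hf'
  · rw [h1] at hf'
    cases hf'
  · rw [h1] at hf'
    cases hf'
  · exact h2

end machine

end Pool.Agent.D0H57.LC
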