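import Mathlib
import Pool.Agent.D0H57.LC.ISM

set_option autoImplicit false

/-!
Inductive counting by a 1-limited automaton: completeness.
-/

namespace Pool.Agent.D0H57.LC

open Relation
open Pool.Agent.H630R2.LA

section complete

variable {A : Type} (N : ℕ) (ini : ℕ → Prop) (rel : A → ℕ → ℕ → Prop) (facc : ℕ → Prop)

/-- Steps of the program inside the bounds. -/
def TS (w : List A) (τ : ℕ → Sym (WS A)) (j : ℕ) (n n' : NS) : Prop :=
  T N ini rel facc n (τ (j * N + ad N n)) n' ∧ Bd (2 * N + 2) n' ∧
    j * N + ad N n ≤ w.length + 1 ∧ ad N n < 2 * N + 2 ∧ 1 ≤ ad N n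

/-- The situation in which the program works. -/
structure Ctx (w : List A) (τ : ℕ → Sym (WS A)) (j i : ℕ) (f ck : Bool) : Prop where
  ant : Ant w τ
  bits : ∀ t, ∀ a b, τ (t + 1) = .sym (.mark a b) →
    (b = true ↔ Rh N ini rel w ((t / N) * N) (t % N))
  hN : 1 ≤ N
  hini : ∀ p, ini p → p < N
  first : f = true → j = 0
  full : f = false → j * N + N ≤ w.length
  le : j * N + i ≤ w.length
  ilt : i < 2 * N
  chk : ck = true → i + 1 = N ∧ j * N + N + N ≤ w.length

variable {N ini rel facc}

theorem Ctx.bit {w : List A} {τ : ℕ → Sym (WS A)} {j i : ℕ} {f ck : Bool}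
    (C : Ctx N ini rel w τ j i f ck) (m k : ℕ) (hk : k < N) {a : A} {b : Bool}
    (h : τ (m * N + k + 1) = .sym (.mark a b)) : b = true ↔ Rh N ini rel w (m * N) k := by
  have h1 := C.bits (m * N + k) a b h
  have e1 : (m * N + k) / N = m := by
    rw [Nat.mul_comm, Nat.mul_add_div C.hN, Nat.div_eq_of_lt hk, Nat.add_zero]
  have e2 : (m * N + k) % N = k := by
    rw [Nat.mul_add_mod_self_right, Nat.mod_eq_of_lt hk]
  rw [e1, e2] at h1
  exact h1

variable {w : List A} {τ : ℕ → Sym (WS A)} {j i : ℕ} {f ck : Bool}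

theorem path_v (C : Ctx N ini rel w τ j i f ck) {c v e u d s x : ℕ} (hc : c ≤ N) (hv : v < N)
    (he : e ≤ N) (hu : u ≤ N) (hd : d ≤ N) : ∀ s', s' ≤ i + 1 → ∀ y,
    Rh N ini rel w (j * N + s') y →
    ReflTransGen (TS N ini rel facc w τ j) ⟨0, f, ck, i, c, v, e, u, d, s, x⟩
      ⟨2, f, ck, i, c, v, e, u, d, s', y⟩ := by
  have hi := C.ilt
  have hle := C.le
  have hN := C.hN
  intro s'
  induction s' with
  | zero =>
    intro _ y hy
    have hyN := Rh_lt C.hini hy
    refine (ReflTransGen.single (b := ⟨1, f, ck, i, c, v, e, u, d, 0, y⟩) ?_).tail ?_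
    · refine ⟨T.mem _ _ _ _ _ _ _ _ _ _ _ _ hv hyN, ?_, ?_, ?_, ?_⟩
      · simp only [Bd]; omega
      · simp only [ad]; omega
      · simp only [ad]; omega
      · simp only [ad]; omega
    · cases hf : f with
      | true =>
        have hj := C.first hf
        refine ⟨T.pvf _ _ _ _ _ _ _ _ _ _ ?_, ?_, ?_, ?_, ?_⟩
        · subst hj
          rw [Nat.zero_mul] at hy
          exact hy
        · simp only [Bd]; omega
        · simp only [ad, if_true]; omega
        · simp only [ad, if_true]; omega
        · simp only [ad, if_true]; omega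
      | false =>
        have hfull := C.full hf
        have e1 : ad N ⟨1, false, ck, i, c, v, e, u, d, 0, y⟩ = y + 1 := by simp [ad]
        obtain ⟨a, b, h1, h2⟩ := C.ant.mark (j * N + y) (by omega)
        have h3 := (C.bit j y hyN h2).2 hy
        subst h3
        have hτ : τ (j * N + (y + 1)) = .sym (.mark a true) := h2
        refine ⟨?_, ?_, ?_, ?_, ?_⟩
        · rw [e1, hτ]
          exact T.pvb _ _ _ _ _ _ _ _ _ _
        · simp only [Bd]; omega
        · rw [e1]; omega
        · rw [e1]; omega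
        · rw [e1]; omega
  | succ s' ih =>
    intro hs y hy
    obtain ⟨hyN, y0, hy0, a, ha, hr⟩ := hy
    refine (ih (by omega) y0 hy0).tail ?_
    have ha' : w[j * N + s']? = some a := ha
    have ht : j * N + s' < w.length := by
      by_contra hcon
      rw [List.getElem?_eq_none (by omega)] at ha'
      cases ha'
    obtain ⟨a', b, h1, h2⟩ := C.ant.mark (j * N + s') ht
    rw [ha'] at h1
    cases h1
    have hs' : s' ≤ i := by omega
    have e1 : ad N ⟨2, f, ck, i, c, v, e, u, d, s', y0⟩ = s' + 1 := by simp [ad, hs']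
    have hτ : τ (j * N + (s' + 1)) = .sym (.mark a b) := h2
    have hy0N := Rh_lt C.hini hy0
    refine ⟨?_, ?_, ?_, ?_, ?_⟩
    · rw [e1, hτ]
      exact T.pvs _ _ _ _ _ _ _ _ _ _ _ _ _ hs' hr hyN
    · simp only [Bd]; omega
    · rw [e1]; omega
    · rw [e1]; omega
    · rw [e1]; omega

theorem path_u (C : Ctx N ini rel w τ j i f ck) {c v e u d s x : ℕ} (hc : c ≤ N) (hv : v ≤ N)
    (he : e ≤ N) (hu : u < N) (hd : d ≤ N) : ∀ s', s' ≤ i → ∀ y,
    Rh N ini rel w (j * N + s') y →
    ReflTransGen (TS N ini rel facc w τ j) ⟨0, f, ck, i, c, v, e, u, d, s, x⟩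
      ⟨4, f, ck, i, c, v, e, u, d, s', y⟩ := by
  have hi := C.ilt
  have hle := C.le
  have hN := C.hN
  intro s'
  induction s' with
  | zero =>
    intro _ y hy
    have hyN := Rh_lt C.hini hy
    refine (ReflTransGen.single (b := ⟨3, f, ck, i, c, v, e, u, d, 0, y⟩) ?_).tail ?_
    · refine ⟨T.take _ _ _ _ _ _ _ _ _ _ _ _ hu hyN, ?_, ?_, ?_, ?_⟩
      · simp only [Bd]; omega
      · simp only [ad]; omega
      · simp only [ad]; omega
      · simp only [ad]; omega
    · cases hf : f with
      | true =>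
        have hj := C.first hf
        refine ⟨T.puf _ _ _ _ _ _ _ _ _ _ ?_, ?_, ?_, ?_, ?_⟩
        · subst hj
          rw [Nat.zero_mul] at hy
          exact hy
        · simp only [Bd]; omega
        · simp only [ad, if_true]; omega
        · simp only [ad, if_true]; omega
        · simp only [ad, if_true]; omega
      | false =>
        have hfull := C.full hf
        have e1 : ad N ⟨3, false, ck, i, c, v, e, u, d, 0, y⟩ = y + 1 := by simp [ad]
        obtain ⟨a, b, h1, h2⟩ := C.ant.mark (j * N + y) (by omega)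
        have h3 := (C.bit j y hyN h2).2 hy
        subst h3
        have hτ : τ (j * N + (y + 1)) = .sym (.mark a true) := h2
        refine ⟨?_, ?_, ?_, ?_, ?_⟩
        · rw [e1, hτ]
          exact T.pub _ _ _ _ _ _ _ _ _ _
        · simp only [Bd]; omega
        · rw [e1]; omega
        · rw [e1]; omega
        · rw [e1]; omega
  | succ s' ih =>
    intro hs y hy
    obtain ⟨hyN, y0, hy0, a, ha, hr⟩ := hy
    refine (ih (by omega) y0 hy0).tail ?_
    have ha' : w[j * N + s']? = some a := ha
    have ht : j * N + s' < w.length := by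
      by_contra hcon
      rw [List.getElem?_eq_none (by omega)] at ha'
      cases ha'
    obtain ⟨a', b, h1, h2⟩ := C.ant.mark (j * N + s') ht
    rw [ha'] at h1
    cases h1
    have hs' : s' < i := by omega
    have e1 : ad N ⟨4, f, ck, i, c, v, e, u, d, s', y0⟩ = s' + 1 := by simp [ad, hs']
    have hτ : τ (j * N + (s' + 1)) = .sym (.mark a b) := h2
    have hy0N := Rh_lt C.hini hy0
    refine ⟨?_, ?_, ?_, ?_, ?_⟩
    · rw [e1, hτ]
      exact T.pus _ _ _ _ _ _ _ _ _ _ _ _ _ hs' hr hyN
    · simp only [Bd]; omega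
    · rw [e1]; omega
    · rw [e1]; omega
    · rw [e1]; omega

/-- A member is found. -/
theorem member (C : Ctx N ini rel w τ j i f ck) {c v e u d s x : ℕ} (hc : c ≤ N) (hv : v < N)
    (he : e < N) (hu : u ≤ N) (hd : d ≤ N) (h : Rh N ini rel w (j * N + i + 1) v) :
    ReflTransGen (TS N ini rel facc w τ j) ⟨0, f, ck, i, c, v, e, u, d, s, x⟩
      ⟨0, f, ck, i, c, v + 1, e + 1, 0, 0, 0, 0⟩ := by
  have hi := C.ilt
  have hle := C.le
  have hN := C.hN
  have h1 := path_v (facc := facc) C (s := s) (x := x) hc hv he.le hu hd (i + 1) le_rfl v h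
  have e1 : ad N ⟨2, f, ck, i, c, v, e, u, d, i + 1, v⟩ = 1 := by simp [ad]
  cases hck : ck with
  | false =>
    rw [hck] at h1 e1
    refine h1.tail ⟨T.pve0 _ _ _ _ _ _ _ _, ?_, ?_, ?_, ?_⟩
    · simp only [Bd]; omega
    · rw [e1]; omega
    · rw [e1]; omega
    · rw [e1]
  | true =>
    rw [hck] at h1 e1
    obtain ⟨h2, h3⟩ := C.chk hck
    obtain ⟨a, b, h4, h5⟩ := C.ant.mark (j * N + N + v) (by omega)
    have e3 : (j + 1) * N = j * N + N := by ring
    have h6 : b = true := by
      rw [← e3] at h5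
      rw [C.bit (j + 1) v hv h5, e3]
      have e4 : j * N + N = j * N + i + 1 := by omega
      rw [e4]
      exact h
    subst h6
    have e2 : ad N ⟨6, f, true, i, c, v, e, u, d, 0, 0⟩ = N + v + 1 := by simp [ad]
    have hτ : τ (j * N + (N + v + 1)) = .sym (.mark a true) := by
      have e4 : j * N + (N + v + 1) = j * N + N + v + 1 := by omega
      rw [e4]
      exact h5
    refine (h1.tail (c := ⟨6, f, true, i, c, v, e, u, d, 0, 0⟩)
      ⟨T.pve1 _ _ _ _ _ _ _ _, ?_, ?_, ?_, ?_⟩).tail ⟨?_, ?_, ?_, ?_, ?_⟩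
    · simp only [Bd]; omega
    · rw [e1]; omega
    · rw [e1]; omega
    · rw [e1]
    · rw [e2, hτ]
      exact T.bq1 _ _ _ _ _ _ _ _ _ _
    · simp only [Bd]; omega
    · rw [e2]; omega
    · rw [e2]; omega
    · rw [e2]; omega

/-- The enumeration. -/
theorem enumerate (C : Ctx N ini rel w τ j i f ck) {c v e : ℕ} (hc : c ≤ N) (hv : v ≤ N)
    (he : e ≤ N) (hno : ∀ k, Rh N ini rel w (j * N + i) k →
      ¬ erel rel facc (τ (j * N + i + 1)) k v) : ∀ u, u ≤ N →
    ReflTransGen (TS N ini rel facc w τ j) ⟨0, f, ck, i, c, v, e, 0, 0, 0, 0⟩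
      ⟨0, f, ck, i, c, v, e, u, cn (Rh N ini rel w (j * N + i)) u, 0, 0⟩ := by
  have hi := C.ilt
  have hle := C.le
  have hN := C.hN
  intro u
  induction u with
  | zero =>
    intro _
    rw [cn_zero]
  | succ u ih =>
    intro hu
    have h0 := ih (by omega)
    have hd := cn_le (Rh N ini rel w (j * N + i)) u
    by_cases h : Rh N ini rel w (j * N + i) u
    · rw [cn_pos h]
      have h1 := path_u (facc := facc) C (s := 0) (x := 0) hc hv he (show u < N by omega)
        (show cn (Rh N ini rel w (j * N + i)) u ≤ N by omega) i le_rfl u h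
      generalize cn (Rh N ini rel w (j * N + i)) u = d at *
      have e1 : ad N ⟨4, f, ck, i, c, v, e, u, d, i, u⟩ = 1 := by simp [ad]
      have e2 : ad N ⟨5, f, ck, i, c, v, e, u, d, 0, 0⟩ = i + 1 := by simp [ad]
      refine ((h0.trans h1).tail (c := ⟨5, f, ck, i, c, v, e, u, d, 0, 0⟩)
        ⟨T.pue _ _ _ _ _ _ _ _ _, ?_, ?_, ?_, ?_⟩).tail ⟨T.eg _ _ _ _ _ _ _ _ _ _ _ ?_, ?_,
          ?_, ?_, ?_⟩
      · simp only [Bd]; omega
      · rw [e1]; omega
      · rw [e1]; omega
      · rw [e1]
      · rw [e2]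
        exact hno u h
      · simp only [Bd]; omega
      · rw [e2]; omega
      · rw [e2]; omega
      · rw [e2]; omega
    · rw [cn_neg h]
      refine h0.tail ⟨T.skip _ _ _ _ _ _ _ _ _ _ _ (by omega), ?_, ?_, ?_, ?_⟩
      · simp only [Bd]; omega
      · simp only [ad]; omega
      · simp only [ad]; omega
      · simp only [ad]; omega

/-- One layer. -/
theorem layer (C : Ctx N ini rel w τ j i f ck) (ht : j * N + i < w.length) : ∀ v, v ≤ N →
    ReflTransGen (TS N ini rel facc w τ j)
      ⟨0, f, ck, i, cn (Rh N ini rel w (j * N + i)) N, 0, 0, 0, 0, 0, 0⟩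
      ⟨0, f, ck, i, cn (Rh N ini rel w (j * N + i)) N, v,
        cn (Rh N ini rel w (j * N + i + 1)) v, 0, 0, 0, 0⟩ := by
  have hi := C.ilt
  have hle := C.le
  have hN := C.hN
  have hc := cn_le (Rh N ini rel w (j * N + i)) N
  intro v
  induction v with
  | zero =>
    intro _
    rw [cn_zero]
  | succ v ih =>
    intro hv
    have h0 := ih (by omega)
    have he := cn_le (Rh N ini rel w (j * N + i + 1)) v
    by_cases h : Rh N ini rel w (j * N + i + 1) v
    · rw [cn_pos h]
      exact h0.trans (member C hc (by omega) (by omega) (Nat.zero_le _) (Nat.zero_le _) h)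
    · rw [cn_neg h]
      obtain ⟨a, b, h1, h2⟩ := C.ant.mark (j * N + i) ht
      have hno : ∀ k, Rh N ini rel w (j * N + i) k →
          ¬ erel rel facc (τ (j * N + i + 1)) k v := by
        intro k hk hr
        rw [h2] at hr
        exact h ⟨by omega, k, hk, a, h1, hr⟩
      have h3 := enumerate C hc (show v ≤ N by omega)
        (show cn (Rh N ini rel w (j * N + i + 1)) v ≤ N by omega) hno N le_rfl
      refine (h0.trans h3).trans ?_
      generalize cn (Rh N ini rel w (j * N + i)) N = c at *
      cases hck : ck with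
      | false =>
        refine ReflTransGen.single ⟨T.non0 _ _ _ _ _ _ _ _ (by omega), ?_, ?_, ?_, ?_⟩
        · simp only [Bd]; omega
        · simp only [ad]; omega
        · simp only [ad]; omega
        · simp only [ad]; omega
      | true =>
        obtain ⟨h4, h5⟩ := C.chk hck
        obtain ⟨a', b', h6, h7⟩ := C.ant.mark (j * N + N + v) (by omega)
        have e3 : (j + 1) * N = j * N + N := by ring
        have h8 : b' = false := by
          have h7' := h7
          rw [← e3] at h7'
          have h9 := C.bit (j + 1) v (by omega) h7'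
          rw [e3] at h9
          have e4 : j * N + N = j * N + i + 1 := by omega
          rw [e4] at h9
          cases b' with
          | false => rfl
          | true => exact absurd (h9.1 rfl) h
        subst h8
        generalize cn (Rh N ini rel w (j * N + i + 1)) v = e at *
        have e2 : ad N ⟨7, f, true, i, c, v, e, N, c, 0, 0⟩ = N + v + 1 := by simp [ad]
        have hτ : τ (j * N + (N + v + 1)) = .sym (.mark a' false) := by
          have e4 : j * N + (N + v + 1) = j * N + N + v + 1 := by omega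
          rw [e4]
          exact h7
        have hA1 : TS N ini rel facc w τ j ⟨0, f, true, i, c, v, e, N, c, 0, 0⟩
            ⟨7, f, true, i, c, v, e, N, c, 0, 0⟩ := by
          refine ⟨T.non1 _ _ _ _ _ _ _ _ (by omega), ?_, ?_, ?_, ?_⟩
          · simp only [Bd]; omega
          · simp only [ad]; omega
          · simp only [ad]; omega
          · simp only [ad]; omega
        have hA2 : TS N ini rel facc w τ j ⟨7, f, true, i, c, v, e, N, c, 0, 0⟩
            ⟨0, f, true, i, c, v + 1, e, 0, 0, 0, 0⟩ := by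
          refine ⟨?_, ?_, ?_, ?_, ?_⟩
          · rw [e2, hτ]
            exact T.bq0 _ _ _ _ _ _ _ _ _ _
          · simp only [Bd]; omega
          · rw [e2]; omega
          · rw [e2]; omega
          · rw [e2]; omega
        exact (ReflTransGen.single hA1).tail hA2

end complete

end Pool.Agent.D0H57.LC
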