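import Mathlib
import Pool.Agent.D0H57.LC.ISC

set_option autoImplicit false

/-!
Inductive counting by a 1-limited automaton: the language of the machine.
-/

namespace Pool.Agent.D0H57.LC

open Relation
open Pool.Agent.H630R2.LA

section machine

variable {A : Type} [Finite A] {N : ℕ} {ini : ℕ → Prop} {rel : A → ℕ → ℕ → Prop}
  {facc : ℕ → Prop} {strict : Prop}

theorem fr_move {τ : ℕ → Sym (WS A)} {p q : Fin 3 ⊕ PSt (2 * N + 2)} {x y m : ℕ} {b : WS A}
    {d : Bool} (hx : x ≤ m) (h : Dl N ini rel facc p (τ x) (q, b, d))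
    (hb : (τ x).rewrite b = τ x) (h1 : d = true → y = x + 1) (h2 : d = false → y + 1 = x) :
    Fr strict (compN N ini rel facc : LimAut A) τ m (p, x) (q, y) :=
  ⟨hx, d, ⟨b, h, fun _ => hb⟩, h1, h2⟩

theorem travel_right {τ : ℕ → Sym (WS A)} {j M : ℕ} : ∀ (k : ℕ) (p : PSt (2 * N + 2)),
    p.2.val + k = ad N p.1.1 → j * N + ad N p.1.1 ≤ M → ad N p.1.1 < 2 * N + 2 →
    ∃ q : PSt (2 * N + 2), q.1 = p.1 ∧ q.2.val = ad N p.1.1 ∧
      ReflTransGen (Fr strict (compN N ini rel facc : LimAut A) τ M) (.inr p, j * N + p.2.val)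
        (.inr q, j * N + q.2.val) := by
  intro k
  induction k with
  | zero =>
    intro p h _ _
    exact ⟨p, rfl, h, ReflTransGen.refl⟩
  | succ k ih =>
    intro p h h1 h2
    let q1 : PSt (2 * N + 2) := (p.1, ⟨p.2.val + 1, by omega⟩)
    obtain ⟨q, h3, h4, h5⟩ := ih q1 (by show p.2.val + 1 + k = ad N p.1.1; omega) h1 h2
    refine ⟨q, h3, h4, ReflTransGen.head ?_ h5⟩
    refine fr_move (by omega) (Dl.tr p q1 _ (by omega) rfl rfl) (rewrite_keep _) ?_ ?_
    · intro _
      show j * N + (p.2.val + 1) = j * N + p.2.val + 1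
      omega
    · intro h
      exact absurd h (by simp)

theorem travel_left {τ : ℕ → Sym (WS A)} {j M : ℕ} : ∀ (k : ℕ) (p : PSt (2 * N + 2)),
    p.2.val = ad N p.1.1 + k → j * N + p.2.val ≤ M → 
    ∃ q : PSt (2 * N + 2), q.1 = p.1 ∧ q.2.val = ad N p.1.1 ∧
      ReflTransGen (Fr strict (compN N ini rel facc : LimAut A) τ M) (.inr p, j * N + p.2.val)
        (.inr q, j * N + q.2.val) := by
  intro k
  induction k with
  | zero =>
    intro p h _
    exact ⟨p, rfl, h, ReflTransGen.refl⟩
  | succ k ih =>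
    intro p h h1
    have hlt := p.2.isLt
    let q1 : PSt (2 * N + 2) := (p.1, ⟨p.2.val - 1, by omega⟩)
    obtain ⟨q, h3, h4, h5⟩ := ih q1 (by show p.2.val - 1 = ad N p.1.1 + k; omega)
      (by show j * N + (p.2.val - 1) ≤ M; omega)
    refine ⟨q, h3, h4, ReflTransGen.head ?_ h5⟩
    refine fr_move h1 (Dl.tl p q1 _ (by omega) rfl (by show p.2.val - 1 + 1 = p.2.val; omega))
      (rewrite_keep _) ?_ ?_
    · intro h
      exact absurd h (by simp)
    · intro _
      show j * N + (p.2.val - 1) + 1 = j * N + p.2.val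
      omega

theorem travel {τ : ℕ → Sym (WS A)} {j M : ℕ} (p : PSt (2 * N + 2))
    (h0 : j * N + p.2.val ≤ M) (h1 : j * N + ad N p.1.1 ≤ M) (h2 : ad N p.1.1 < 2 * N + 2) :
    ∃ q : PSt (2 * N + 2), q.1 = p.1 ∧ q.2.val = ad N p.1.1 ∧
      ReflTransGen (Fr strict (compN N ini rel facc : LimAut A) τ M) (.inr p, j * N + p.2.val)
        (.inr q, j * N + q.2.val) := by
  rcases Nat.le_total p.2.val (ad N p.1.1) with h | h
  · exact travel_right (ad N p.1.1 - p.2.val) p (by omega) h1 h2
  · exact travel_left (p.2.val - ad N p.1.1) p (by omega) h0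

/-- Reachability of a program state by the machine. -/
def MR (strict : Prop) (N : ℕ) (ini : ℕ → Prop) (rel : A → ℕ → ℕ → Prop) (facc : ℕ → Prop)
    (w : List A) (τ : ℕ → Sym (WS A)) (j : ℕ) (n : NS) : Prop :=
  ∃ p : PSt (2 * N + 2), p.1.1 = n ∧ j * N + p.2.val ≤ w.length + 1 ∧
    ReflTransGen (Fr strict (compN N ini rel facc : LimAut A) τ (w.length + 1))
      (.inl 1, w.length) (.inr p, j * N + p.2.val)

theorem MR.ts {w : List A} {τ : ℕ → Sym (WS A)} {j : ℕ} {n n' : NS}
    (h : MR strict N ini rel facc w τ j n) (ht : TS N ini rel facc w τ j n n') :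
    MR strict N ini rel facc w τ j n' := by
  obtain ⟨p, h1, h2, h3⟩ := h
  obtain ⟨h4, h5, h6, h7, h8⟩ := ht
  subst h1
  obtain ⟨q0, g1, g2, g3⟩ := travel (strict := strict) (ini := ini) (rel := rel) (facc := facc)
    (τ := τ) p h2 h6 h7
  let q : PSt (2 * N + 2) := (⟨n', h5⟩, ⟨ad N p.1.1 - 1, by omega⟩)
  refine ⟨q, rfl, ?_, (h3.trans g3).tail ?_⟩
  · show j * N + (ad N p.1.1 - 1) ≤ w.length + 1
    omega
  · refine fr_move (by rw [g2]; exact h6) (Dl.st q0 q _ (by rw [g1, g2]) ?_ ?_)
      (rewrite_keep _) ?_ ?_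
    · rw [g2, g1]
      exact h4
    · show ad N p.1.1 - 1 + 1 = q0.2.val
      omega
    · intro h
      exact absurd h (by simp)
    · intro _
      show j * N + (ad N p.1.1 - 1) + 1 = j * N + q0.2.val
      omega

theorem MR.tss {w : List A} {τ : ℕ → Sym (WS A)} {j : ℕ} {n n' : NS}
    (h : MR strict N ini rel facc w τ j n)
    (ht : ReflTransGen (TS N ini rel facc w τ j) n n') : MR strict N ini rel facc w τ j n' := by
  induction ht with
  | refl => exact h
  | tail _ hs ih => exact ih.ts hs

theorem MR.start {w : List A} {τ : ℕ → Sym (WS A)} (hA : Ant w τ) (hN : 1 ≤ N) {ck : Bool}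
    (hc : ck = true → N = 1) : MR strict N ini rel facc w τ 0 (sta N ini ck) := by
  have hrew : ∀ k, k ≤ w.length →
      ReflTransGen (Fr strict (compN N ini rel facc : LimAut A) τ (w.length + 1))
        (.inl 1, k) (.inl 1, 0) := by
    intro k
    induction k with
    | zero => intro _; exact ReflTransGen.refl
    | succ k ih =>
      intro hk
      obtain ⟨a, b, _, h2⟩ := hA.mark k (by omega)
      refine ReflTransGen.head ?_ (ih (by omega))
      refine fr_move (q := .inl 1) (b := .mark a b) (d := false) (by omega) ?_ ?_ ?_ ?_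
      · rw [h2]
        exact Dl.rl a b
      · rw [h2]
        rfl
      · intro h
        exact absurd h (by simp)
      · intro _
        rfl
  have hcn := cn_le ini N
  have hB : Bd (2 * N + 2) (sta N ini ck) := by
    simp only [Bd, sta]
    omega
  let p : PSt (2 * N + 2) := (⟨sta N ini ck, hB⟩, ⟨1, by omega⟩)
  refine ⟨p, rfl, ?_, (hrew _ le_rfl).tail ?_⟩
  · show 0 * N + 1 ≤ w.length + 1
    omega
  · refine fr_move (b := .dum) (d := true) (Nat.zero_le _) ?_ ?_ ?_ ?_
    · rw [hA.zero]
      exact Dl.rs p ck rfl rfl hc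
    · rw [hA.zero]
      rfl
    · intro _
      show 0 * N + 1 = 0 + 1
      omega
    · intro h
      exact absurd h (by simp)

theorem MR.wrap {w : List A} {τ : ℕ → Sym (WS A)} {j : ℕ} {f : Bool} {i c e : ℕ}
    (h : MR strict N ini rel facc w τ j ⟨9, f, true, i, c, N, e, 0, 0, 0, 0⟩)
    (hl : j * N + N ≤ w.length) (he : e ≤ N) {ck : Bool} (hc : ck = true → N = 1) :
    MR strict N ini rel facc w τ (j + 1) (nxt ck e) := by
  obtain ⟨p, h1, h2, h3⟩ := h
  have e1 : ad N p.1.1 = N := by rw [h1]; rfl
  obtain ⟨q0, g1, g2, g3⟩ := travel (strict := strict) (ini := ini) (rel := rel) (facc := facc)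
    (τ := τ) (j := j) (M := w.length + 1) p h2 (by rw [e1]; omega) (by rw [e1]; omega)
  have hB : Bd (2 * N + 2) (nxt ck e) := by
    simp only [Bd, nxt]
    omega
  let q : PSt (2 * N + 2) := (⟨nxt ck e, hB⟩, ⟨1, by omega⟩)
  have e2 : (j + 1) * N = j * N + N := by ring
  refine ⟨q, rfl, ?_, (h3.trans g3).tail ?_⟩
  · show (j + 1) * N + 1 ≤ w.length + 1
    omega
  · refine fr_move (by rw [g2, e1]; omega) (Dl.wp q0 q _ ck (by rw [g2, e1]) (by rw [g1, h1])
      (by rw [g1, h1]) rfl hc) (rewrite_keep _) ?_ ?_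
    · intro _
      show (j + 1) * N + 1 = j * N + q0.2.val + 1
      rw [g2, e1, e2]
    · intro h
      exact absurd h (by simp)

/-- The run through the layers. -/
theorem run_layers (hini : ∀ p, ini p → p < N) (hN : 1 ≤ N) {w : List A}
    {τ : ℕ → Sym (WS A)} (hA : Ant w τ)
    (hbits : ∀ t, ∀ a b, τ (t + 1) = .sym (.mark a b) →
      (b = true ↔ Rh N ini rel w ((t / N) * N) (t % N))) : ∀ t, t ≤ w.length →
    ∃ (j i : ℕ) (f : Bool), t = j * N + i ∧ i < 2 * N ∧ (f = true → j = 0) ∧
      (f = false → j * N + N ≤ w.length) ∧ (N ≤ i → w.length < j * N + N + N) ∧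
      ∀ ck : Bool, (ck = true → i + 1 = N) → MR strict N ini rel facc w τ j
        ⟨0, f, ck, i, cn (Rh N ini rel w t) N, 0, 0, 0, 0, 0, 0⟩ := by
  intro t
  induction t with
  | zero =>
    intro _
    refine ⟨0, 0, true, by omega, by omega, fun _ => rfl, fun h => absurd h (by simp),
      fun h => by omega, fun ck hck => ?_⟩
    exact MR.start hA hN (fun h => (hck h).symm)
  | succ t ih =>
    intro ht
    obtain ⟨j, i, f, h1, h2, h3, h4, h5, h6⟩ := ih (by omega)
    subst h1
    have he := cn_le (Rh N ini rel w (j * N + i + 1)) N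
    have hcN := cn_le (Rh N ini rel w (j * N + i)) N
    by_cases hcase : i + 1 = N ∧ j * N + N + N ≤ w.length
    · have C : Ctx N ini rel w τ j i f true :=
        ⟨hA, hbits, hN, hini, h3, h4, by omega, h2, fun _ => hcase⟩
      have h7 := (h6 true (fun _ => hcase.1)).tss (layer C (by omega) N le_rfl)
      have h8 := h7.ts (n' := ⟨9, f, true, i, cn (Rh N ini rel w (j * N + i)) N, N,
        cn (Rh N ini rel w (j * N + i + 1)) N, 0, 0, 0, 0⟩) ⟨T.wr _ _ _ _ _ _ _ _ _,
          by simp only [Bd]; omega, by simp only [ad]; omega, by simp only [ad]; omega,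
          by simp only [ad]; omega⟩
      have e2 : (j + 1) * N = j * N + N := by ring
      refine ⟨j + 1, 0, false, by omega, by omega, fun h => absurd h (by simp),
        fun _ => by omega, fun h => by omega, fun ck hck => ?_⟩
      exact h8.wrap (by omega) he (fun h => (hck h).symm)
    · have C : Ctx N ini rel w τ j i f false :=
        ⟨hA, hbits, hN, hini, h3, h4, by omega, h2, fun h => absurd h (by simp)⟩
      have h7 := (h6 false (fun h => absurd h (by simp))).tss (layer C (by omega) N le_rfl)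
      have hi : i + 1 < 2 * N := by
        by_contra hcon
        have h8 := h5 (by omega)
        omega
      refine ⟨j, i + 1, f, by omega, hi, h3, h4, fun h => ?_, fun ck hck => ?_⟩
      · by_cases h8 : N ≤ i
        · exact h5 h8
        · by_contra hcon
          exact hcase ⟨by omega, by omega⟩
      · exact h7.ts ⟨T.lay _ _ _ _ _ _ _ _ _ _ (fun h => by have := hck h; omega),
          by simp only [Bd]; omega, by simp only [ad]; omega, by simp only [ad]; omega,
          by simp only [ad]; omega⟩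

/-- Completeness on the annotated tape. -/
theorem run_all (hini : ∀ p, ini p → p < N) (hN : 1 ≤ N) {w : List A}
    {τ : ℕ → Sym (WS A)} (hA : Ant w τ)
    (hbits : ∀ t, ∀ a b, τ (t + 1) = .sym (.mark a b) →
      (b = true ↔ Rh N ini rel w ((t / N) * N) (t % N)))
    (hno : ∀ k, Rh N ini rel w w.length k → ¬ facc k) :
    ReflTransGen (Fr strict (compN N ini rel facc : LimAut A) τ (w.length + 1))
      (.inl 1, w.length) (.inl 2, w.length + 2) := by
  obtain ⟨j, i, f, h1, h2, h3, h4, h5, h6⟩ := run_layers (strict := strict) (facc := facc)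
    hini hN hA hbits w.length le_rfl
  have C : Ctx N ini rel w τ j i f false :=
    ⟨hA, hbits, hN, hini, h3, h4, by omega, h2, fun h => absurd h (by simp)⟩
  have hcN := cn_le (Rh N ini rel w (j * N + i)) N
  have h0 := h6 false (fun h => absurd h (by simp))
  have hno' : ∀ k, Rh N ini rel w (j * N + i) k →
      ¬ erel rel facc (τ (j * N + i + 1)) k 0 := by
    intro k hk
    rw [← h1] at hk ⊢
    rw [hA.last]
    exact hno k hk
  rw [h1] at h0
  have h7 : MR strict N ini rel facc w τ j ⟨0, f, false, i,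
      cn (Rh N ini rel w (j * N + i)) N, 0, 0, N, cn (Rh N ini rel w (j * N + i)) N, 0, 0⟩ :=
    h0.tss (enumerate C hcN (Nat.zero_le _) (Nat.zero_le _) hno' N le_rfl)
  generalize cn (Rh N ini rel w (j * N + i)) N = c at *
  have h8 := h7.ts (n' := ⟨8, f, false, i, c, 0, 0, N, c, 0, 0⟩) ⟨T.fin _ _ _ _ _ _ _ _,
    by simp only [Bd]; omega, by simp only [ad]; omega, by simp only [ad]; omega,
    by simp only [ad]; omega⟩
  obtain ⟨p, g1, g2, g3⟩ := h8
  have e1 : ad N p.1.1 = i + 1 := by rw [g1]; rfl
  obtain ⟨q0, g4, g5, g6⟩ := travel (strict := strict) (ini := ini) (rel := rel)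
    (facc := facc) (τ := τ) (j := j) (M := w.length + 1) p g2 (by rw [e1]; omega)
    (by rw [e1]; omega)
  have e2 : j * N + q0.2.val = w.length + 1 := by
    rw [g5, e1]
    omega
  refine (g3.trans g6).tail ?_
  refine fr_move (b := .dum) (d := true) (by rw [e2]) ?_ ?_ ?_ ?_
  · rw [e2, hA.last]
    exact Dl.ac q0 (by rw [g5, g4]) (by rw [g4, g1])
  · rw [e2, hA.last]
    rfl
  · intro _
    rw [e2]
  · intro h
    exact absurd h (by simp)

/-- The first sweep. -/
theorem sweep (w : List A) (bf : ℕ → Bool) (t : ℕ) (ht : t ≤ w.length) :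
    ∃ (τ : ℕ → Sym (WS A)) (S : Set ℕ), τ 0 = .lm ∧
      (∀ k, k < t → ∃ a, w[k]? = some a ∧ τ (k + 1) = .sym (.mark a (bf k))) ∧
      (∀ i, t < i → τ i = initTape (compN N ini rel facc : LimAut A) w i) ∧
      (∀ i, 1 ≤ i → (i ∈ S ↔ i ≤ t)) ∧
      ReflTransGen (Step strict w.length) (init (compN N ini rel facc : LimAut A) w)
        ⟨.inl 0, t + 1, τ, S⟩ := by
  induction t with
  | zero =>
    refine ⟨initTape (compN N ini rel facc : LimAut A) w, ∅, rfl,
      fun k hk => absurd hk (Nat.not_lt_zero k), fun _ _ => rfl, ?_, ReflTransGen.refl⟩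
    intro i hi
    simp
    omega
  | succ t ih =>
    obtain ⟨τ, S, h0, h1, h2, h3, h4⟩ := ih (by omega)
    have hlt : t < w.length := by omega
    have hwt : w[t]? = some w[t] := List.getElem?_eq_getElem hlt
    have hcell : τ (t + 1) = .sym (.raw w[t]) := by
      rw [h2 (t + 1) (by omega)]
      simp only [initTape, hwt]
      rfl
    have hnot : t + 1 ∉ S := by
      intro h
      have := (h3 (t + 1) (by omega)).1 h
      omega
    refine ⟨Function.update τ (t + 1) (.sym (.mark w[t] (bf t))), insert (t + 1) S, ?_, ?_, ?_,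
      ?_, h4.tail ?_⟩
    · rw [Function.update_of_ne (by omega)]
      exact h0
    · intro k hk
      rcases Nat.lt_or_ge k t with h5 | h5
      · obtain ⟨a, h6, h7⟩ := h1 k h5
        exact ⟨a, h6, by rw [Function.update_of_ne (by omega)]; exact h7⟩
      · have e : k = t := by omega
        subst e
        exact ⟨w[k], hwt, by rw [Function.update_self]⟩
    · intro i hi
      rw [Function.update_of_ne (by omega)]
      exact h2 i (by omega)
    · intro i hi
      rw [Set.mem_insert_iff, h3 i hi]
      omega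
    · refine ⟨by show t + 1 ≤ w.length + 1; omega, .inl 0, .mark w[t] (bf t), true, ?_,
        fun _ h => absurd h hnot, rfl, fun h => absurd h hnot, ?_, rfl, fun _ => rfl,
        fun h => absurd h (by simp)⟩
      · show Dl N ini rel facc (.inl 0) (τ (t + 1)) _
        rw [hcell]
        exact Dl.sw _ _
      · intro _
        show _ = Function.update τ (t + 1) ((τ (t + 1)).rewrite (.mark w[t] (bf t)))
        rw [hcell]
        rfl

/-- Completeness. -/
theorem compN_complete (hini : ∀ p, ini p → p < N) (hN : 1 ≤ N) (w : List A)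
    (hno : ∀ k, Rh N ini rel w w.length k → ¬ facc k) :
    w ∈ (compN N ini rel facc : LimAut A).language strict := by
  classical
  obtain ⟨τ, S, h0, h1, h2, h3, h4⟩ := sweep (strict := strict) (N := N) (ini := ini)
    (rel := rel) (facc := facc) w (fun t => decide (Rh N ini rel w ((t / N) * N) (t % N)))
    w.length le_rfl
  have hcell : τ (w.length + 1) = .rm := by
    rw [h2 _ (by omega)]
    simp only [initTape, List.getElem?_eq_none (le_refl w.length)]
    rfl
  have hA : Ant w τ := by
    refine ⟨h0, fun t ht => ?_, hcell⟩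
    obtain ⟨a, h5, h6⟩ := h1 t ht
    exact ⟨a, _, h5, h6⟩
  have hbits : ∀ t, ∀ a b, τ (t + 1) = .sym (.mark a b) →
      (b = true ↔ Rh N ini rel w ((t / N) * N) (t % N)) := by
    intro t a b h
    rcases Nat.lt_or_ge t w.length with h5 | h5
    · obtain ⟨a', h6, h7⟩ := h1 t h5
      rw [h7] at h
      cases h
      exact decide_eq_true_iff
    · rw [h2 _ (by omega)] at h
      simp only [initTape, List.getElem?_eq_none h5] at h
      cases h
  have hnot : w.length + 1 ∉ S := by
    intro h
    have := (h3 (w.length + 1) (by omega)).1 h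
    omega
  have hS1 : ∀ i, 1 ≤ i → (i ∈ insert (w.length + 1) S ↔ i ≤ w.length + 1) := by
    intro i hi
    rw [Set.mem_insert_iff, h3 i hi]
    omega
  have hstep : Step strict w.length
      (⟨.inl 0, w.length + 1, τ, S⟩ : Cfg (compN N ini rel facc : LimAut A))
      ⟨.inl 1, w.length, τ, insert (w.length + 1) S⟩ := by
    refine ⟨le_rfl, .inl 1, .dum, false, ?_, fun _ h => absurd h hnot, rfl,
      fun h => absurd h hnot, ?_, rfl, fun h => absurd h (by simp), fun _ => rfl⟩
    · show Dl N ini rel facc (.inl 0) (τ (w.length + 1)) _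
      rw [hcell]
      exact Dl.sr
    · intro _
      show τ = Function.update τ (w.length + 1) ((τ (w.length + 1)).rewrite .dum)
      funext i
      by_cases hi : i = w.length + 1
      · subst hi
        rw [Function.update_self, hcell]
        rfl
      · rw [Function.update_of_ne hi]
  have hpath := run_all (strict := strict) (facc := facc) hini hN hA hbits hno
  obtain ⟨S', hS', hlift⟩ := lift (n := w.length) le_rfl h0 hpath _ hS1
  exact ⟨_, (h4.tail hstep).trans hlift, rfl, rfl⟩

/-- The language of the machine. -/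
theorem compN_language (hini : ∀ p, ini p → p < N) (hN : 1 ≤ N) (w : List A) :
    w ∈ (compN N ini rel facc : LimAut A).language strict ↔
      ∀ k, Rh N ini rel w w.length k → ¬ facc k :=
  ⟨fun h => compN_sound hini w h, fun h => compN_complete hini hN w h⟩

end machine

end Pool.Agent.D0H57.LC
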