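import Mathlib
import Pool.Agent.D0H57.LC.ISD
import Pool.Agent.D0H57.LC.Core

set_option autoImplicit false

/-!
Complementation with a quadratic exponent.
-/

namespace Pool.Agent.D0H57.LC

open Filter
open Pool.Agent.H630R2.LA
open Pool.Agent.R50.LX (Expr Acc Pth Pth_append acc_la)

theorem card_compN {A : Type} [Finite A] (N : ℕ) (ini : ℕ → Prop) (rel : A → ℕ → ℕ → Prop)
    (facc : ℕ → Prop) :
    Nat.card (compN N ini rel facc : LimAut A).Q ≤ 40 * (2 * N + 2) ^ 9 + 3 := by
  have h : Nat.card (compN N ini rel facc : LimAut A).Q =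
      Nat.card (Fin 3) + Nat.card (PSt (2 * N + 2)) := Nat.card_sum
  rw [h, Nat.card_fin]
  have := card_PSt (2 * N + 2)
  omega

theorem size_compN {A : Type} [Finite A] (N : ℕ) (ini : ℕ → Prop) (rel : A → ℕ → ℕ → Prop)
    (facc : ℕ → Prop) :
    (compN N ini rel facc : LimAut A).size ≤
      96 * (40 * (2 * N + 2) ^ 9 + 3) ^ 2 * (Nat.card A + 1) ^ 2 := by
  set M : LimAut A := compN N ini rel facc with hM
  have hQ := card_compN N ini rel facc (A := A)
  rw [← hM] at hQ
  have hfinQ := M.finQ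
  have hfinW : Finite (WS A) := finite_WS A
  have hfinS : Finite (Sym (WS A)) := by
    apply Nat.finite_of_card_ne_zero
    rw [card_Sym]
    omega
  have hT : M.numTrans ≤ Nat.card M.Q * ((3 * Nat.card A + 1 + 2) *
      (Nat.card M.Q * ((3 * Nat.card A + 1) * 2))) := by
    have h1 : Nat.card (M.Q × Sym (WS A) × M.Q × WS A × Bool) =
        Nat.card M.Q * ((3 * Nat.card A + 1 + 2) *
          (Nat.card M.Q * ((3 * Nat.card A + 1) * 2))) := by
      rw [Nat.card_prod, Nat.card_prod, Nat.card_prod, Nat.card_prod, card_Sym, card_WS]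
      simp
    rw [← h1]
    have hW1 : Finite M.W := hfinW
    have hS1 : Finite (Sym M.W) := hfinS
    have hP : Finite (M.Q × Sym M.W × M.Q × M.W × Bool) := inferInstance
    unfold LimAut.numTrans
    have h2 : Nat.card (M.Q × Sym (WS A) × M.Q × WS A × Bool) =
        (Set.univ : Set (M.Q × Sym M.W × M.Q × M.W × Bool)).ncard := (Set.ncard_univ _).symm
    rw [h2]
    exact Set.ncard_le_ncard (Set.subset_univ _) Set.finite_univ
  have hF : M.F.ncard = 1 := Set.ncard_singleton _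
  have hW : Nat.card M.W = 3 * Nat.card A + 1 := card_WS A
  have hpos : 1 ≤ Nat.card M.Q := by
    have : Nonempty M.Q := ⟨M.q0⟩
    exact Nat.card_pos
  unfold LimAut.size
  rw [hF, hW]
  generalize M.numTrans = T at *
  generalize Nat.card M.Q = q at *
  generalize Nat.card A = a at *
  generalize 40 * (2 * N + 2) ^ 9 + 3 = Z at *
  have h1 : q ^ 2 * (a + 1) ^ 2 ≤ Z ^ 2 * (a + 1) ^ 2 :=
    Nat.mul_le_mul_right _ (Nat.pow_le_pow_left hQ 2)
  have h2 : q * ((3 * a + 1 + 2) * (q * ((3 * a + 1) * 2))) ≤ 18 * (q ^ 2 * (a + 1) ^ 2) := by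
    nlinarith [Nat.zero_le (q ^ 2 * a), Nat.zero_le (q ^ 2), Nat.zero_le (q ^ 2 * a ^ 2)]
  have h3 : q ≤ q ^ 2 * (a + 1) ^ 2 := by
    calc q ≤ q ^ 2 := Nat.le_self_pow (by norm_num) q
      _ ≤ q ^ 2 * (a + 1) ^ 2 := Nat.le_mul_of_pos_right _ (by positivity)
  have h4 : a + 1 ≤ q ^ 2 * (a + 1) ^ 2 := by
    calc a + 1 ≤ (a + 1) ^ 2 := Nat.le_self_pow (by norm_num) _
      _ ≤ q ^ 2 * (a + 1) ^ 2 := Nat.le_mul_of_pos_left _ (by positivity)
  have h5 : 96 * Z ^ 2 * (a + 1) ^ 2 = 96 * (Z ^ 2 * (a + 1) ^ 2) := by ring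
  rw [h5]
  omega

/-- Complementation of one-way nondeterministic automata. -/
theorem compl_acc {A : Type} [Finite A] {L : Set (List A)} {r : ℕ} (h : Acc L r) :
    ∃ M' : LimAut A, (∀ strict : Prop, M'.language strict = Lᶜ) ∧
      Nat.card M'.Q ≤ 40 * (2 * r + 4) ^ 9 + 3 ∧
      M'.size ≤ 96 * (40 * (2 * r + 4) ^ 9 + 3) ^ 2 * (Nat.card A + 1) ^ 2 := by
  obtain ⟨X, hX, I, F, s, h1, h2⟩ := h
  let e : X ≃ Fin (Nat.card X) := Finite.equivFin X
  let ini : ℕ → Prop := fun p => ∃ x ∈ I, (e x).val = p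
  let rel : A → ℕ → ℕ → Prop := fun a p q => ∃ x y, (e x).val = p ∧ (e y).val = q ∧ s a x y
  let facc : ℕ → Prop := fun p => ∃ x ∈ F, (e x).val = p
  have hini : ∀ p, ini p → p < Nat.card X + 1 := by
    rintro p ⟨x, _, rfl⟩
    have := (e x).isLt
    omega
  have einj : ∀ x y : X, (e x).val = (e y).val → x = y := by
    intro x y hxy
    exact e.injective (Fin.ext hxy)
  have key : ∀ (w : List A) (t : ℕ), t ≤ w.length → ∀ q,
      Rh (Nat.card X + 1) ini rel w t q ↔
        ∃ x ∈ I, ∃ y, (e y).val = q ∧ Pth s (w.take t) x y := by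
    intro w t
    induction t with
    | zero =>
      intro _ q
      constructor
      · rintro ⟨x, hx, hq⟩
        exact ⟨x, hx, x, hq, rfl⟩
      · rintro ⟨x, hx, y, hq, hp⟩
        have hp' : x = y := hp
        subst hp'
        exact ⟨x, hx, hq⟩
    | succ t ih =>
      intro ht q
      have hwt : w[t]? = some w[t] := List.getElem?_eq_getElem (by omega)
      have htake : w.take (t + 1) = w.take t ++ [w[t]] := by
        rw [List.take_add_one, hwt]
        rfl
      constructor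
      · rintro ⟨_, p, hp, a, ha, x', y, hx', hy, hs⟩
        rw [hwt] at ha
        cases ha
        obtain ⟨x, hx, z, hz, hpth⟩ := (ih (by omega) p).1 hp
        have : z = x' := einj _ _ (by rw [hz, hx'])
        subst this
        refine ⟨x, hx, y, hy, ?_⟩
        rw [htake, Pth_append]
        exact ⟨z, hpth, y, hs, rfl⟩
      · rintro ⟨x, hx, y, hy, hp⟩
        rw [htake, Pth_append] at hp
        obtain ⟨z, hz, z', hs, hz'⟩ := hp
        have hz'' : z' = y := hz'
        subst hz''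
        refine ⟨?_, (e z).val, (ih (by omega) _).2 ⟨x, hx, z, rfl, hz⟩, w[t], hwt, z, z', rfl,
          hy, hs⟩
        have := (e z').isLt
        omega
  have hcard : Nat.card X + 1 ≤ r + 1 := by omega
  have hb : 40 * (2 * (Nat.card X + 1) + 2) ^ 9 + 3 ≤ 40 * (2 * r + 4) ^ 9 + 3 := by
    have : (2 * (Nat.card X + 1) + 2) ^ 9 ≤ (2 * r + 4) ^ 9 := Nat.pow_le_pow_left (by omega) 9
    omega
  refine ⟨compN (Nat.card X + 1) ini rel facc, fun strict => ?_,
    (card_compN _ _ _ _).trans hb, (size_compN _ _ _ _).trans ?_⟩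
  · ext w
    rw [compN_language hini (by omega), Set.mem_compl_iff, h2]
    constructor
    · rintro h ⟨x, hx, y, hy, hp⟩
      refine h (e y).val ((key w w.length le_rfl _).2 ⟨x, hx, y, rfl, ?_⟩) ⟨y, hy, rfl⟩
      rw [List.take_length]
      exact hp
    · rintro h k hk ⟨y, hy, rfl⟩
      obtain ⟨x, hx, y', hy', hp⟩ := (key w w.length le_rfl _).1 hk
      rw [List.take_length] at hp
      have : y' = y := einj _ _ hy'
      subst this
      exact h ⟨x, hx, y', hy, hp⟩
  · apply Nat.mul_le_mul_right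
    apply Nat.mul_le_mul_left
    exact Nat.pow_le_pow_left hb 2

/-- Complementation of expressions. -/
theorem compl_expr {A : Type} [Finite A] (strict : Prop) (e : Expr A) :
    ∃ M' : LimAut A, M'.language strict = (e.lang strict)ᶜ ∧
      Nat.card M'.Q ≤ 2 ^ (9 * e.weight + 33) ∧ M'.size ≤ 2 ^ (100 * e.size ^ 2) := by
  obtain ⟨M', h1, h2, h3⟩ := compl_acc (e.acc strict)
  obtain ⟨h4, h5, h6⟩ := e.weight_le
  have hz : 40 * (2 * 2 ^ e.weight + 4) ^ 9 + 3 ≤ 2 ^ (9 * e.weight + 33) := by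
    have g1 : 2 * 2 ^ e.weight + 4 ≤ 2 ^ (e.weight + 3) := by
      have := Nat.one_le_two_pow (n := e.weight)
      rw [pow_add]
      omega
    have g2 : (2 * 2 ^ e.weight + 4) ^ 9 ≤ 2 ^ (9 * e.weight + 27) := by
      refine (Nat.pow_le_pow_left g1 9).trans (le_of_eq ?_)
      rw [← pow_mul]
      congr 1
      ring
    have g3 := Nat.one_le_two_pow (n := 9 * e.weight + 27)
    have g4 : 2 ^ (9 * e.weight + 33) = 64 * 2 ^ (9 * e.weight + 27) := by
      have : 9 * e.weight + 33 = 6 + (9 * e.weight + 27) := by ring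
      rw [this, pow_add 2 6]
      norm_num
    rw [g4]
    omega
  refine ⟨M', h1 strict, h2.trans hz, h3.trans ?_⟩
  have ha : Nat.card A + 1 ≤ 2 ^ e.size := by
    have := Nat.lt_two_pow_self (n := e.size)
    omega
  calc 96 * (40 * (2 * 2 ^ e.weight + 4) ^ 9 + 3) ^ 2 * (Nat.card A + 1) ^ 2
      ≤ 2 ^ 7 * (2 ^ (9 * e.weight + 33)) ^ 2 * (2 ^ e.size) ^ 2 :=
        Nat.mul_le_mul (Nat.mul_le_mul (by norm_num) (Nat.pow_le_pow_left hz 2))
          (Nat.pow_le_pow_left ha 2)
    _ = 2 ^ (7 + (9 * e.weight + 33) * 2 + e.size * 2) := by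
        rw [← pow_mul, ← pow_mul, ← pow_add, ← pow_add]
    _ ≤ 2 ^ (100 * e.size ^ 2) := by
        apply Nat.pow_le_pow_right (by norm_num)
        nlinarith

/-- The values `laSize` of the complement of `L(e)`, for the expressions `e` of size at
most `n`. -/
def costsL (strict : Prop) (n : ℕ) : Set ℕ :=
  {s | ∃ (A : Type) (_ : Finite A) (e : Expr A), e.size ≤ n ∧
    s = laSize strict (e.lang strict)ᶜ}

/-- The cost of complementing expressions by 1-limited automata. -/
noncomputable def CL (strict : Prop) (n : ℕ) : ℕ := sSup (costsL strict n)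

section costs

variable {strict : Prop}

theorem la_le_quad {A : Type} [Finite A] (e : Expr A) (n : ℕ) (hn : e.size ≤ n) :
    laSize strict (e.lang strict)ᶜ ≤ 2 ^ (100 * n ^ 2) := by
  obtain ⟨M', h1, h2, h3⟩ := compl_expr strict e
  refine le_trans (Nat.sInf_le ⟨M', h1, rfl⟩) (h3.trans ?_)
  exact Nat.pow_le_pow_right (by norm_num) (Nat.mul_le_mul_left _ (Nat.pow_le_pow_left hn 2))

theorem bddL (n : ℕ) : BddAbove (costsL strict n) := by
  refine ⟨2 ^ (100 * n ^ 2), ?_⟩
  rintro s ⟨A, hA, e, he, rfl⟩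
  exact la_le_quad e n he

theorem L_greatest (n : ℕ) (hn : 4 ≤ n) : IsGreatest (costsL strict n) (CL strict n) := by
  have hne : (costsL strict n).Nonempty :=
    ⟨_, Empty, inferInstance, .la N602.FT.trivM, by
      show (N602.FT.trivM).size ≤ n
      rw [N602.FT.size_trivM]
      exact hn, rfl⟩
  exact ⟨Nat.sSup_mem hne (bddL n), fun s hs => le_csSup (bddL n) hs⟩

theorem L_le (n : ℕ) (hn : 4 ≤ n) : CL strict n ≤ 2 ^ (100 * n ^ 2) := by
  obtain ⟨A, hA, e, he, h1⟩ := (L_greatest (strict := strict) n hn).1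
  rw [h1]
  exact la_le_quad e n he

theorem C_le_L (n : ℕ) (hn : 4 ≤ n) : CC strict n ≤ CL strict n := by
  obtain ⟨A, hA, M, hM, h1⟩ := (C_greatest (strict := strict) n hn).1
  rw [h1]
  exact le_csSup (bddL n) ⟨A, hA, .la M, hM, rfl⟩

theorem L_le_Y (n : ℕ) (hn : 4 ≤ n) : CL strict n ≤ CY strict n := by
  obtain ⟨A, hA, e, he, h1⟩ := (L_greatest (strict := strict) n hn).1
  rw [h1]
  exact (la_le_det e).trans (le_csSup (bddY n) ⟨A, hA, e, he, rfl⟩)

end costs

end Pool.Agent.D0H57.LC
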