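import Mathlib
import Pool.Agent.D0H57.LC.ISE

set_option autoImplicit false

/-!
Inductive counting by a self-verifying 1-limited automaton.
-/

namespace Pool.Agent.D0H57.LC.SV

open Relation
open Pool.Agent.H630R2.LA
open Pool.Agent.D0H57.LC

section machine

variable {A : Type} (N : ℕ) (ini : ℕ → Prop) (rel : A → ℕ → ℕ → Prop) (facc : ℕ → Prop)
  (F : Set (Fin 4 ⊕ PSt (2 * N + 2)))

/-- The moves of the machine. -/
inductive Dv : Fin 4 ⊕ PSt (2 * N + 2) → Sym (WS A) →
    (Fin 4 ⊕ PSt (2 * N + 2)) × WS A × Bool → Prop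
  | sw (a : A) (b : Bool) : Dv (.inl 0) (.sym (.raw a)) (.inl 0, .mark a b, true)
  | sr : Dv (.inl 0) .rm (.inl 1, .dum, false)
  | rl (a : A) (b : Bool) : Dv (.inl 1) (.sym (.mark a b)) (.inl 1, .mark a b, false)
  | rs (p : PSt (2 * N + 2)) (ck : Bool) (hp : p.1.1 = sta N ini ck) (hk : p.2.val = 1)
      (hc : ck = true → N = 1) : Dv (.inl 1) .lm (.inr p, .dum, true)
  | tr (p q : PSt (2 * N + 2)) (σ : Sym (WS A)) (h : p.2.val < ad N p.1.1) (h1 : q.1 = p.1)
      (h2 : q.2.val = p.2.val + 1) : Dv (.inr p) σ (.inr q, keep σ, true)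
  | tl (p q : PSt (2 * N + 2)) (σ : Sym (WS A)) (h : ad N p.1.1 < p.2.val) (h1 : q.1 = p.1)
      (h2 : q.2.val + 1 = p.2.val) : Dv (.inr p) σ (.inr q, keep σ, false)
  | st (p q : PSt (2 * N + 2)) (σ : Sym (WS A)) (h : p.2.val = ad N p.1.1)
      (h1 : T N ini rel facc p.1.1 σ q.1.1) (h2 : q.2.val + 1 = p.2.val) :
      Dv (.inr p) σ (.inr q, keep σ, false)
  | wp (p q : PSt (2 * N + 2)) (σ : Sym (WS A)) (ck : Bool) (h : p.2.val = N)
      (h1 : p.1.1.tag = 9) (h2 : q.1.1 = nxt ck p.1.1.e) (h3 : q.2.val = 1)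
      (hc : ck = true → N = 1) : Dv (.inr p) σ (.inr q, keep σ, true)
  | ac (p : PSt (2 * N + 2)) (h : p.2.val = ad N p.1.1) (h1 : p.1.1.tag = 8) :
      Dv (.inr p) .rm (.inl 2, .dum, true)
  | ay (p : PSt (2 * N + 2)) (h : p.2.val = ad N p.1.1) (h1 : p.1.1.tag = 5)
      (h2 : facc p.1.1.u) : Dv (.inr p) .rm (.inl 3, .dum, true)

variable [Finite A]

/-- The machine for the complement. -/
def compV : LimAut A where
  Q := Fin 4 ⊕ PSt (2 * N + 2)
  W := WS A
  finQ := inferInstance
  finW := finite_WS A
  inp := WS.raw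
  inp_inj := by
    intro a b hab
    cases hab
    rfl
  δ := fun q σ => {x | Dv N ini rel facc q σ x}
  q0 := .inl 0
  F := F

variable {N ini rel facc F} {strict : Prop}

theorem frozen_tape {w : List A} {c c' : Cfg (compV N ini rel facc F : LimAut A)}
    (h : Step strict w.length c c') (h0 : c.tape 0 = .lm)
    (hs : ∀ i, 1 ≤ i → i ≤ w.length + 1 → i ∈ c.seen) :
    c'.tape = c.tape ∧ ∀ i, i ∈ c.seen → i ∈ c'.seen := by
  obtain ⟨hle, q, b, d, _, _, _, ht1, ht2, hsn, _, _⟩ := h
  constructor
  · by_cases hmem : c.pos ∈ c.seen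
    · exact ht1 hmem
    · have hp0 : c.pos = 0 := by
        by_contra hne
        exact hmem (hs c.pos (by omega) hle)
      rw [ht2 hmem, hp0, h0]
      funext i
      by_cases hi : i = 0
      · subst hi
        simp [Sym.rewrite, h0]
      · simp [Function.update, hi]
  · intro i hi
    rw [hsn]
    exact Set.mem_insert_of_mem _ hi

/-- The invariant of the configurations. -/
def CInv (w : List A) (c : Cfg (compV N ini rel facc F : LimAut A)) : Prop :=
  (∃ t, t ≤ w.length ∧ c.state = .inl 0 ∧ c.pos = t + 1 ∧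
    (∀ i, 1 ≤ i → (i ∈ c.seen ↔ i ≤ t)) ∧ c.tape 0 = .lm ∧
    (∀ k, k < t → ∃ a b, w[k]? = some a ∧ c.tape (k + 1) = .sym (.mark a b)) ∧
    (∀ i, t < i → c.tape i = initTape (compV N ini rel facc F : LimAut A) w i)) ∨
  (Ant w c.tape ∧ (∀ i, 1 ≤ i → i ≤ w.length + 1 → i ∈ c.seen) ∧
    (c.state = .inl 1 ∨
      (∃ (p : PSt (2 * N + 2)) (j : ℕ), c.state = .inr p ∧ c.pos = j * N + p.2.val ∧
        Inv N ini rel facc w c.tape j p.1.1) ∨
      (c.state = .inl 2 ∧ ∀ k, Rh N ini rel w w.length k → ¬ facc k) ∨
      (c.state = .inl 3 ∧ ∃ k, Rh N ini rel w w.length k ∧ facc k)))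

theorem CInv.step (hini : ∀ p, ini p → p < N) {w : List A}
    {c c' : Cfg (compV N ini rel facc F : LimAut A)} (h : Step strict w.length c c')
    (hI : CInv w c) : CInv w c' := by
  rcases hI with ⟨t, ht, hst, hpos, hseen, h0, hmark, hraw⟩ | ⟨hA, hs, hph⟩
  · obtain ⟨hle, q, b, d, hδ, _, hst', ht1, ht2, hsn, hr, hl⟩ := h
    have hnot : c.pos ∉ c.seen := by
      intro hm
      have := (hseen c.pos (by omega)).1 hm
      omega
    have htape := ht2 hnot
    have hcell := hraw (t + 1) (by omega)
    rw [hst, hpos, hcell] at hδ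
    have hδ' : Dv N ini rel facc (.inl 0) (initTape (compV N ini rel facc F : LimAut A) w (t + 1))
      (q, b, d) := hδ
    have hagree : ∀ i, i ≤ t → c'.tape i = c.tape i := by
      intro i hi
      rw [htape, Function.update_of_ne (by omega)]
    rcases Nat.lt_or_ge t w.length with h1 | h1
    · have hwt : w[t]? = some w[t] := List.getElem?_eq_getElem h1
      have hc2 : initTape (compV N ini rel facc F : LimAut A) w (t + 1) = .sym (.raw w[t]) := by
        simp only [initTape, hwt]
        rfl
      rw [hc2] at hδ' hcell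
      cases hδ' with
      | sw a b =>
        left
        refine ⟨t + 1, h1, hst', ?_, ?_, ?_, ?_, ?_⟩
        · rw [hr rfl, hpos]
        · intro i hi
          rw [hsn, Set.mem_insert_iff, hseen i hi, hpos]
          omega
        · rw [hagree 0 (by omega)]
          exact h0
        · intro k hk
          rcases Nat.lt_or_ge k t with h2 | h2
          · obtain ⟨a', b', h3, h4⟩ := hmark k h2
            exact ⟨a', b', h3, by rw [hagree (k + 1) (by omega)]; exact h4⟩
          · have e : k = t := by omega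
            subst e
            refine ⟨w[k], b, hwt, ?_⟩
            rw [htape, hpos, Function.update_self, hcell]
            rfl
        · intro i hi
          rw [htape, Function.update_of_ne (by omega)]
          exact hraw i (by omega)
    · have e : t = w.length := by omega
      subst e
      have hc2 : initTape (compV N ini rel facc F : LimAut A) w (w.length + 1) = .rm := by
        simp only [initTape, List.getElem?_eq_none (le_refl w.length)]
      rw [hc2] at hδ' hcell
      cases hδ' with
      | sr =>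
        right
        have htp : c'.tape = c.tape := by
          rw [htape, hpos, hcell]
          funext i
          by_cases hi : i = w.length + 1
          · subst hi
            rw [Function.update_self, hcell]
            rfl
          · rw [Function.update_of_ne hi]
        refine ⟨?_, ?_, Or.inl hst'⟩
        · rw [htp]
          exact ⟨h0, fun k hk => hmark k hk, hcell⟩
        · intro i hi hi'
          rw [hsn, Set.mem_insert_iff, hseen i hi, hpos]
          omega
  · right
    obtain ⟨htp, hsub⟩ := frozen_tape h hA.zero hs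
    obtain ⟨hle, q, b, d, hδ, _, hst', ht1, ht2, hsn, hr, hl⟩ := h
    have hδ' : Dv N ini rel facc c.state (c.tape c.pos) (q, b, d) := hδ
    refine ⟨by rw [htp]; exact hA, fun i h1 h2 => hsub i (hs i h1 h2), ?_⟩
    rw [htp, hst']
    rcases hph with h1 | ⟨p, j, h1, h2, h3⟩ | ⟨h1, h2⟩ | ⟨h1, h2⟩
    · rw [h1] at hδ'
      generalize hσ : c.tape c.pos = σ at hδ'
      cases hδ' with
      | rl a b => exact Or.inl rfl
      | rs p ck hp hk hc =>
        refine Or.inr (Or.inl ⟨p, 0, rfl, ?_, ?_⟩)
        · rw [hr rfl, hA.pos_lm hle hσ, hk, Nat.zero_mul]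
        · rw [hp]
          exact start_inv hc
    · rw [h1] at hδ'
      generalize hσ : c.tape c.pos = σ at hδ'
      cases hδ' with
      | tr p q σ h4 h5 h6 =>
        refine Or.inr (Or.inl ⟨q, j, rfl, ?_, ?_⟩)
        · rw [hr rfl, h2, h6]
          omega
        · rw [h5]
          exact h3
      | tl p q σ h4 h5 h6 =>
        refine Or.inr (Or.inl ⟨q, j, rfl, ?_, ?_⟩)
        · have := hl rfl
          omega
        · rw [h5]
          exact h3
      | st p q σ h4 h5 h6 =>
        refine Or.inr (Or.inl ⟨q, j, rfl, ?_, ?_⟩)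
        · have := hl rfl
          omega
        · exact T.sound hini hA (by rw [← h4, ← h2]; exact hσ) (by rw [← h4, ← h2]; exact hle)
            h5 h3
      | wp p q σ ck h4 h5 h6 h7 hc =>
        refine Or.inr (Or.inl ⟨q, j + 1, rfl, ?_, ?_⟩)
        · have e : (j + 1) * N = j * N + N := by ring
          rw [hr rfl, h2, h4, h7, e]
        · rw [h6]
          exact wrap_inv h3 h5 hc
      | ac p h4 h5 =>
        refine Or.inr (Or.inr (Or.inl ⟨rfl, ?_⟩))
        have hrm := hA.pos_rm hle hσ
        obtain ⟨_, hS⟩ := h3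
        have had : ad N p.1.1 = p.1.1.i + 1 := by
          simp only [ad, h5]
        simp only [Spec, h5] at hS
        have e : j * N + p.1.1.i = w.length := by
          rw [h2, h4, had] at hrm
          omega
        rw [e] at hS
        intro k hk hf
        apply hS k hk
        rw [hA.last]
        exact hf
      | ay p h4 h5 h6 =>
        refine Or.inr (Or.inr (Or.inr ⟨rfl, p.1.1.u, ?_, h6⟩))
        have hrm := hA.pos_rm hle hσ
        obtain ⟨_, hS⟩ := h3
        have had : ad N p.1.1 = p.1.1.i + 1 := by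
          simp only [ad, h5]
        simp only [Spec, h5] at hS
        have e : j * N + p.1.1.i = w.length := by
          rw [h2, h4, had] at hrm
          omega
        rw [e] at hS
        exact hS.2
    · rw [h1] at hδ'
      generalize c.tape c.pos = σ at hδ'
      cases hδ'
    · rw [h1] at hδ'
      generalize c.tape c.pos = σ at hδ'
      cases hδ'

/-- Soundness. -/
theorem compV_inv (hini : ∀ p, ini p → p < N) (w : List A)
    (c : Cfg (compV N ini rel facc F : LimAut A))
    (hc : ReflTransGen (Step strict w.length) (init (compV N ini rel facc F : LimAut A) w) c) :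
    CInv w c := by
  induction hc with
  | refl =>
    left
    refine ⟨0, Nat.zero_le _, rfl, rfl, ?_, rfl, fun k hk => absurd hk (Nat.not_lt_zero k),
      fun i _ => rfl⟩
    intro i hi
    simp [init]
    omega
  | tail _ hs ih => exact ih.step hini hs

theorem sound_no (hini : ∀ p, ini p → p < N) (w : List A)
    (h : w ∈ (compV N ini rel facc {.inl 2} : LimAut A).language strict) :
    ∀ k, Rh N ini rel w w.length k → ¬ facc k := by
  obtain ⟨c, hc, hp, hf⟩ := h
  have hI := compV_inv hini w c hc
  have hf' : c.state = .inl 2 := hf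
  rcases hI with ⟨t, ht, hst, _⟩ | ⟨_, _, h1 | ⟨p, j, h1, _⟩ | ⟨_, h2⟩ | ⟨h1, _⟩⟩
  · rw [hst] at hf'
    cases hf'
  · rw [h1] at hf'
    cases hf'
  · rw [h1] at hf'
    cases hf'
  · exact h2
  · rw [h1] at hf'
    cases hf'

theorem sound_yes (hini : ∀ p, ini p → p < N) (w : List A)
    (h : w ∈ (compV N ini rel facc {.inl 3} : LimAut A).language strict) :
    ∃ k, Rh N ini rel w w.length k ∧ facc k := by
  obtain ⟨c, hc, hp, hf⟩ := h
  have hI := compV_inv hini w c hc
  have hf' : c.state = .inl 3 := hf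
  rcases hI with ⟨t, ht, hst, _⟩ | ⟨_, _, h1 | ⟨p, j, h1, _⟩ | ⟨h1, _⟩ | ⟨_, h2⟩⟩
  · rw [hst] at hf'
    cases hf'
  · rw [h1] at hf'
    cases hf'
  · rw [h1] at hf'
    cases hf'
  · rw [h1] at hf'
    cases hf'
  · exact h2

end machine

end Pool.Agent.D0H57.LC.SV
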