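import Mathlib
import Pool.Agent.D0H57.LC.ISVD

set_option autoImplicit false

/-!
The cost of self-verifying 1-limited automata.
-/

namespace Pool.Agent.D0H57.LC.SV

open Filter
open Pool.Agent.H630R2.LA
open Pool.Agent.R50.LX (Expr Acc Pth Pth_append acc_la)
open Pool.Agent.D0H57.LC

/-- `M` with the set `R` of rejecting states is self-verifying: the inputs with a computation that
moves past the right end-marker in a state of `R` are the inputs without a computation that moves
past it in a final state. -/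
def SelfVer {A : Type} (strict : Prop) (M : LimAut A) (R : Set M.Q) : Prop :=
  ({ M with F := R } : LimAut A).language strict = (M.language strict)ᶜ

theorem card_compV {A : Type} [Finite A] (N : ℕ) (ini : ℕ → Prop) (rel : A → ℕ → ℕ → Prop)
    (facc : ℕ → Prop) (F : Set (Fin 4 ⊕ PSt (2 * N + 2))) :
    Nat.card (compV N ini rel facc F : LimAut A).Q ≤ 40 * (2 * N + 2) ^ 9 + 4 := by
  have h : Nat.card (compV N ini rel facc F : LimAut A).Q =
      Nat.card (Fin 4) + Nat.card (PSt (2 * N + 2)) := Nat.card_sum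
  rw [h, Nat.card_fin]
  have := card_PSt (2 * N + 2)
  omega

theorem size_compV {A : Type} [Finite A] (N : ℕ) (ini : ℕ → Prop) (rel : A → ℕ → ℕ → Prop)
    (facc : ℕ → Prop) (z : Fin 4) :
    (compV N ini rel facc {.inl z} : LimAut A).size + 1 ≤
      97 * (40 * (2 * N + 2) ^ 9 + 4) ^ 2 * (Nat.card A + 1) ^ 2 := by
  set M : LimAut A := compV N ini rel facc {.inl z} with hM
  have hQ := card_compV N ini rel facc {.inl z} (A := A)
  rw [← hM] at hQ
  have hfinQ := M.finQ
  have hfinW : Finite (WS A) := finite_WS A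
  have hfinS : Finite (Sym (WS A)) := by
    apply Nat.finite_of_card_ne_zero
    rw [card_Sym]
    omega
  have hT : M.numTrans ≤ Nat.card M.Q * ((3 * Nat.card A + 1 + 2) *
      (Nat.card M.Q * ((3 * Nat.card A + 1) * 2))) := by
    have h1 : Nat.card (M.Q × Sym (WS A) × M.Q × WS A × Bool) =
        Nat.card M.Q * ((3 * Nat.card A + 1 + 2) *
          (Nat.card M.Q * ((3 * Nat.card A + 1) * 2))) := by
      rw [Nat.card_prod, Nat.card_prod, Nat.card_prod, Nat.card_prod, card_Sym, card_WS]
      simp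
    rw [← h1]
    have hW1 : Finite M.W := hfinW
    have hS1 : Finite (Sym M.W) := hfinS
    have hP : Finite (M.Q × Sym M.W × M.Q × M.W × Bool) := inferInstance
    unfold LimAut.numTrans
    have h2 : Nat.card (M.Q × Sym (WS A) × M.Q × WS A × Bool) =
        (Set.univ : Set (M.Q × Sym M.W × M.Q × M.W × Bool)).ncard := (Set.ncard_univ _).symm
    rw [h2]
    exact Set.ncard_le_ncard (Set.subset_univ _) Set.finite_univ
  have hF : M.F.ncard = 1 := Set.ncard_singleton _
  have hW : Nat.card M.W = 3 * Nat.card A + 1 := card_WS A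
  have hpos : 1 ≤ Nat.card M.Q := by
    have : Nonempty M.Q := ⟨M.q0⟩
    exact Nat.card_pos
  unfold LimAut.size
  rw [hF, hW]
  generalize M.numTrans = T at *
  generalize Nat.card M.Q = q at *
  generalize Nat.card A = a at *
  generalize 40 * (2 * N + 2) ^ 9 + 4 = Z at *
  have h1 : q ^ 2 * (a + 1) ^ 2 ≤ Z ^ 2 * (a + 1) ^ 2 :=
    Nat.mul_le_mul_right _ (Nat.pow_le_pow_left hQ 2)
  have h2 : q * ((3 * a + 1 + 2) * (q * ((3 * a + 1) * 2))) ≤ 18 * (q ^ 2 * (a + 1) ^ 2) := by
    nlinarith [Nat.zero_le (q ^ 2 * a), Nat.zero_le (q ^ 2), Nat.zero_le (q ^ 2 * a ^ 2)]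
  have h3 : q ≤ q ^ 2 * (a + 1) ^ 2 := by
    calc q ≤ q ^ 2 := Nat.le_self_pow (by norm_num) q
      _ ≤ q ^ 2 * (a + 1) ^ 2 := Nat.le_mul_of_pos_right _ (by positivity)
  have h4 : a + 1 ≤ q ^ 2 * (a + 1) ^ 2 := by
    calc a + 1 ≤ (a + 1) ^ 2 := Nat.le_self_pow (by norm_num) _
      _ ≤ q ^ 2 * (a + 1) ^ 2 := Nat.le_mul_of_pos_left _ (by positivity)
  have h5 : 97 * Z ^ 2 * (a + 1) ^ 2 = 97 * (Z ^ 2 * (a + 1) ^ 2) := by ring
  rw [h5]
  omega

/-- Self-verifying machines for one-way nondeterministic automata. -/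
theorem sv_acc {A : Type} [Finite A] {L : Set (List A)} {r : ℕ} (h : Acc L r) :
    ∃ (M' : LimAut A) (R : Set M'.Q), (∀ strict : Prop, M'.language strict = L) ∧
      (∀ strict : Prop, SelfVer strict M' R) ∧
      Nat.card M'.Q ≤ 40 * (2 * r + 4) ^ 9 + 4 ∧
      M'.size + R.ncard ≤ 97 * (40 * (2 * r + 4) ^ 9 + 4) ^ 2 * (Nat.card A + 1) ^ 2 := by
  obtain ⟨X, hX, I, F, s, h1, h2⟩ := h
  let e : X ≃ Fin (Nat.card X) := Finite.equivFin X
  let ini : ℕ → Prop := fun p => ∃ x ∈ I, (e x).val = p
  let rel : A → ℕ → ℕ → Prop := fun a p q => ∃ x y, (e x).val = p ∧ (e y).val = q ∧ s a x y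
  let facc : ℕ → Prop := fun p => ∃ x ∈ F, (e x).val = p
  have hini : ∀ p, ini p → p < Nat.card X + 1 := by
    rintro p ⟨x, _, rfl⟩
    have := (e x).isLt
    omega
  have einj : ∀ x y : X, (e x).val = (e y).val → x = y := by
    intro x y hxy
    exact e.injective (Fin.ext hxy)
  have key : ∀ (w : List A) (t : ℕ), t ≤ w.length → ∀ q,
      Rh (Nat.card X + 1) ini rel w t q ↔
        ∃ x ∈ I, ∃ y, (e y).val = q ∧ Pth s (w.take t) x y := by
    intro w t
    induction t with
    | zero =>
      intro _ q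
      constructor
      · rintro ⟨x, hx, hq⟩
        exact ⟨x, hx, x, hq, rfl⟩
      · rintro ⟨x, hx, y, hq, hp⟩
        have hp' : x = y := hp
        subst hp'
        exact ⟨x, hx, hq⟩
    | succ t ih =>
      intro ht q
      have hwt : w[t]? = some w[t] := List.getElem?_eq_getElem (by omega)
      have htake : w.take (t + 1) = w.take t ++ [w[t]] := by
        rw [List.take_add_one, hwt]
        rfl
      constructor
      · rintro ⟨_, p, hp, a, ha, x', y, hx', hy, hs⟩
        rw [hwt] at ha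
        cases ha
        obtain ⟨x, hx, z, hz, hpth⟩ := (ih (by omega) p).1 hp
        have : z = x' := einj _ _ (by rw [hz, hx'])
        subst this
        refine ⟨x, hx, y, hy, ?_⟩
        rw [htake, Pth_append]
        exact ⟨z, hpth, y, hs, rfl⟩
      · rintro ⟨x, hx, y, hy, hp⟩
        rw [htake, Pth_append] at hp
        obtain ⟨z, hz, z', hs, hz'⟩ := hp
        have hz'' : z' = y := hz'
        subst hz''
        refine ⟨?_, (e z).val, (ih (by omega) _).2 ⟨x, hx, z, rfl, hz⟩, w[t], hwt, z, z', rfl,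
          hy, hs⟩
        have := (e z').isLt
        omega
  have hb : 40 * (2 * (Nat.card X + 1) + 2) ^ 9 + 4 ≤ 40 * (2 * r + 4) ^ 9 + 4 := by
    have : (2 * (Nat.card X + 1) + 2) ^ 9 ≤ (2 * r + 4) ^ 9 := Nat.pow_le_pow_left (by omega) 9
    omega
  have hL : ∀ strict : Prop,
      (compV (Nat.card X + 1) ini rel facc {.inl 3} : LimAut A).language strict = L := by
    intro strict
    ext w
    rw [language_yes hini (by omega), h2]
    constructor
    · rintro ⟨k, hk, y, hy, rfl⟩
      obtain ⟨x, hx, y', hy', hp⟩ := (key w w.length le_rfl _).1 hk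
      rw [List.take_length] at hp
      have : y' = y := einj _ _ hy'
      subst this
      exact ⟨x, hx, y', hy, hp⟩
    · rintro ⟨x, hx, y, hy, hp⟩
      refine ⟨(e y).val, (key w w.length le_rfl _).2 ⟨x, hx, y, rfl, ?_⟩, y, hy, rfl⟩
      rw [List.take_length]
      exact hp
  have hN : ∀ strict : Prop,
      (compV (Nat.card X + 1) ini rel facc {.inl 2} : LimAut A).language strict = Lᶜ := by
    intro strict
    ext w
    rw [language_no hini (by omega), Set.mem_compl_iff, h2]
    constructor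
    · rintro h ⟨x, hx, y, hy, hp⟩
      refine h (e y).val ((key w w.length le_rfl _).2 ⟨x, hx, y, rfl, ?_⟩) ⟨y, hy, rfl⟩
      rw [List.take_length]
      exact hp
    · rintro h k hk ⟨y, hy, rfl⟩
      obtain ⟨x, hx, y', hy', hp⟩ := (key w w.length le_rfl _).1 hk
      rw [List.take_length] at hp
      have : y' = y := einj _ _ hy'
      subst this
      exact h ⟨x, hx, y', hy, hp⟩
  refine ⟨compV (Nat.card X + 1) ini rel facc {.inl 3}, {.inl 2}, hL, fun strict => ?_,
    (card_compV _ _ _ _ _).trans hb, ?_⟩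
  · show (compV (Nat.card X + 1) ini rel facc {.inl 2} : LimAut A).language strict = _
    rw [hN, hL]
  · have h3 : ({.inl 2} : Set (Fin 4 ⊕ PSt (2 * (Nat.card X + 1) + 2))).ncard = 1 :=
      Set.ncard_singleton _
    rw [show (({.inl 2} : Set (compV (Nat.card X + 1) ini rel facc {.inl 3} : LimAut A).Q).ncard)
      = 1 from h3]
    refine (size_compV _ _ _ _ _).trans ?_
    apply Nat.mul_le_mul_right
    apply Nat.mul_le_mul_left
    exact Nat.pow_le_pow_left hb 2

/-- Self-verifying machines for expressions. -/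
theorem sv_expr {A : Type} [Finite A] (strict : Prop) (e : Expr A) :
    ∃ (M' : LimAut A) (R : Set M'.Q), M'.language strict = e.lang strict ∧
      SelfVer strict M' R ∧ Nat.card M'.Q ≤ 2 ^ (9 * e.weight + 33) ∧
      M'.size + R.ncard ≤ 2 ^ (100 * e.size ^ 2) := by
  obtain ⟨M', R, h1, h1', h2, h3⟩ := sv_acc (e.acc strict)
  obtain ⟨h4, h5, h6⟩ := e.weight_le
  have hz : 40 * (2 * 2 ^ e.weight + 4) ^ 9 + 4 ≤ 2 ^ (9 * e.weight + 33) := by
    have g1 : 2 * 2 ^ e.weight + 4 ≤ 2 ^ (e.weight + 3) := by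
      have := Nat.one_le_two_pow (n := e.weight)
      rw [pow_add]
      omega
    have g2 : (2 * 2 ^ e.weight + 4) ^ 9 ≤ 2 ^ (9 * e.weight + 27) := by
      refine (Nat.pow_le_pow_left g1 9).trans (le_of_eq ?_)
      rw [← pow_mul]
      congr 1
      ring
    have g3 := Nat.one_le_two_pow (n := 9 * e.weight + 27)
    have g4 : 2 ^ (9 * e.weight + 33) = 64 * 2 ^ (9 * e.weight + 27) := by
      have : 9 * e.weight + 33 = 6 + (9 * e.weight + 27) := by ring
      rw [this, pow_add 2 6]
      norm_num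
    rw [g4]
    omega
  refine ⟨M', R, h1 strict, h1' strict, h2.trans hz, h3.trans ?_⟩
  have ha : Nat.card A + 1 ≤ 2 ^ e.size := by
    have := Nat.lt_two_pow_self (n := e.size)
    omega
  calc 97 * (40 * (2 * 2 ^ e.weight + 4) ^ 9 + 4) ^ 2 * (Nat.card A + 1) ^ 2
      ≤ 2 ^ 7 * (2 ^ (9 * e.weight + 33)) ^ 2 * (2 ^ e.size) ^ 2 :=
        Nat.mul_le_mul (Nat.mul_le_mul (by norm_num) (Nat.pow_le_pow_left hz 2))
          (Nat.pow_le_pow_left ha 2)
    _ = 2 ^ (7 + (9 * e.weight + 33) * 2 + e.size * 2) := by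
        rw [← pow_mul, ← pow_mul, ← pow_add, ← pow_add]
    _ ≤ 2 ^ (100 * e.size ^ 2) := by
        apply Nat.pow_le_pow_right (by norm_num)
        nlinarith

/-- The least size of a self-verifying 1-limited automaton for `L`; the rejecting states are
counted in addition to the size of the machine. -/
noncomputable def svSize (strict : Prop) {A : Type} (L : Set (List A)) : ℕ :=
  sInf {s | ∃ (M : LimAut A) (R : Set M.Q), M.language strict = L ∧ SelfVer strict M R ∧
    M.size + R.ncard = s}

/-- The values `svSize L(M)`, for the 1-limited automata `M` of size at most `n`. -/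
def costsS (strict : Prop) (n : ℕ) : Set ℕ :=
  {s | ∃ (A : Type) (_ : Finite A) (M : LimAut A), M.size ≤ n ∧
    s = svSize strict (M.language strict)}

/-- The values `svSize L(e)`, for the expressions `e` of size at most `n`. -/
def costsSE (strict : Prop) (n : ℕ) : Set ℕ :=
  {s | ∃ (A : Type) (_ : Finite A) (e : Expr A), e.size ≤ n ∧ s = svSize strict (e.lang strict)}

/-- The cost of the conversion of 1-limited automata into self-verifying ones. -/
noncomputable def SV (strict : Prop) (n : ℕ) : ℕ := sSup (costsS strict n)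

/-- The cost of the conversion of expressions into self-verifying 1-limited automata. -/
noncomputable def SVE (strict : Prop) (n : ℕ) : ℕ := sSup (costsSE strict n)

section costs

variable {strict : Prop}

theorem sv_le {A : Type} [Finite A] (e : Expr A) (n : ℕ) (hn : e.size ≤ n) :
    svSize strict (e.lang strict) ≤ 2 ^ (100 * n ^ 2) := by
  obtain ⟨M', R, h1, h2, _, h3⟩ := sv_expr strict e
  refine le_trans (Nat.sInf_le ⟨M', R, h1, h2, rfl⟩) (h3.trans ?_)
  exact Nat.pow_le_pow_right (by norm_num) (Nat.mul_le_mul_left _ (Nat.pow_le_pow_left hn 2))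

theorem bddS (n : ℕ) : BddAbove (costsS strict n) := by
  refine ⟨2 ^ (100 * n ^ 2), ?_⟩
  rintro s ⟨A, hA, M, hM, rfl⟩
  exact sv_le (Expr.la M) n hM

theorem bddSE (n : ℕ) : BddAbove (costsSE strict n) := by
  refine ⟨2 ^ (100 * n ^ 2), ?_⟩
  rintro s ⟨A, hA, e, he, rfl⟩
  exact sv_le e n he

theorem S_greatest (n : ℕ) (hn : 4 ≤ n) : IsGreatest (costsS strict n) (SV strict n) := by
  have hne : (costsS strict n).Nonempty :=
    ⟨_, Empty, inferInstance, N602.FT.trivM, by rw [N602.FT.size_trivM]; exact hn, rfl⟩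
  exact ⟨Nat.sSup_mem hne (bddS n), fun s hs => le_csSup (bddS n) hs⟩

theorem SE_greatest (n : ℕ) (hn : 4 ≤ n) : IsGreatest (costsSE strict n) (SVE strict n) := by
  have hne : (costsSE strict n).Nonempty :=
    ⟨_, Empty, inferInstance, .la N602.FT.trivM, by
      show (N602.FT.trivM).size ≤ n
      rw [N602.FT.size_trivM]
      exact hn, rfl⟩
  exact ⟨Nat.sSup_mem hne (bddSE n), fun s hs => le_csSup (bddSE n) hs⟩

theorem S_le_SE (n : ℕ) (hn : 4 ≤ n) : SV strict n ≤ SVE strict n := by
  obtain ⟨A, hA, M, hM, h1⟩ := (S_greatest (strict := strict) n hn).1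
  rw [h1]
  exact le_csSup (bddSE n) ⟨A, hA, .la M, hM, rfl⟩

theorem SE_le (n : ℕ) (hn : 4 ≤ n) : SVE strict n ≤ 2 ^ (100 * n ^ 2) := by
  obtain ⟨A, hA, e, he, h1⟩ := (SE_greatest (strict := strict) n hn).1
  rw [h1]
  exact sv_le e n he

/-- The complement is not more expensive. -/
theorem la_le_sv {A : Type} [Finite A] (M : LimAut A) :
    laSize strict (M.language strict)ᶜ ≤ svSize strict (M.language strict) := by
  have hne : {s | ∃ (M' : LimAut A) (R : Set M'.Q), M'.language strict = M.language strict ∧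
      SelfVer strict M' R ∧ M'.size + R.ncard = s}.Nonempty := by
    obtain ⟨M', R, h1, h2, _, _⟩ := sv_expr strict (Expr.la M)
    exact ⟨_, M', R, h1, h2, rfl⟩
  obtain ⟨M', R, h1, h2, h3⟩ := Nat.sInf_mem hne
  have h4 : M'.size + R.ncard = svSize strict (M.language strict) := h3
  rw [← h4]
  have h5 : ({ M' with F := R } : LimAut A).language strict = (M.language strict)ᶜ := by
    rw [← h1]
    exact h2
  have h6 : ({ M' with F := R } : LimAut A).size ≤ M'.size + R.ncard := by
    unfold LimAut.size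
    have : ({ M' with F := R } : LimAut A).numTrans = M'.numTrans := rfl
    rw [this]
    show Nat.card M'.Q + Nat.card A + (Nat.card M'.W + 2) + 5 * M'.numTrans + 1 + R.ncard ≤ _
    omega
  exact (Nat.sInf_le ⟨_, h5, rfl⟩ : laSize strict (M.language strict)ᶜ ≤ _).trans h6

theorem C_le_S (n : ℕ) (hn : 4 ≤ n) : CC strict n ≤ SV strict n := by
  obtain ⟨A, hA, M, hM, h1⟩ := (C_greatest (strict := strict) n hn).1
  rw [h1]
  exact (la_le_sv M).trans (le_csSup (bddS n) ⟨A, hA, M, hM, rfl⟩)

theorem S_lower (n : ℕ) (hn : 680000 ≤ n) : 2 ^ (n ^ 2) ≤ SV strict n ^ 200000000000 :=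
  (X_lower n hn).trans (Nat.pow_le_pow_left ((X_le_C n (by omega)).trans (C_le_S n (by omega))) _)

end costs

end Pool.Agent.D0H57.LC.SV
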